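import Pool.Agent.HomRU.Final

set_option autoImplicit false

open Filter Topology

namespace Pool.Agent.HomRU

section

variable {A : Type} [CStarAlgebra A] {τ : TracialState A}

/-- The sequence of finite-range unitary representations of `Γ(3)` used below. -/
noncomputable def rhoSeq (U : ∀ k, MatUnits τ (Fin k → Fin 2 → ZMod (2 ^ k))) (k : ℕ) :
    G3 →* A := (U k).perm.comp ((permHom k).comp G3.subtype)

theorem rhoSeq_unitary (U : ∀ k, MatUnits τ (Fin k → Fin 2 → ZMod (2 ^ k))) (k : ℕ) :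
    IsUnitaryRep (rhoSeq U k) := by
  intro g
  show star ((U k).perm (permHom k g.1)) = (U k).perm (permHom k (g.1)⁻¹)
  rw [(U k).star_perm, map_inv (permHom k)]

theorem rhoSeq_trace (U : ∀ k, MatUnits τ (Fin k → Fin 2 → ZMod (2 ^ k))) (g : G3) (hg : g ≠ 1) :
    Tendsto (fun k => τ.toLin (rhoSeq U k g)) atTop (𝓝 0) :=
  tendsto_tr_perm U g.1 (fun h => hg (Subtype.ext h))

theorem rhoSeq_finite (U : ∀ k, MatUnits τ (Fin k → Fin 2 → ZMod (2 ^ k))) (k : ℕ) :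
    ∃ W : Finset A, ∀ g, rhoSeq U k g ∈ W := by
  classical
  exact ⟨Finset.univ.image (U k).perm, fun g => Finset.mem_image.2 ⟨_, Finset.mem_univ _, rfl⟩⟩

theorem norm2_unitary_eq_one {𝒰 : Ultrafilter ℕ} (u : Uni τ 𝒰) :
    (Ultrapower.trace τ 𝒰).norm2 u.1 = 1 := by
  have := (Ultrapower.trace τ 𝒰).norm2_unitary_mul u.2.1 1
  rwa [mul_one, TracialState.norm2_one] at this

theorem norm2_comm_eq {𝒰 : Ultrafilter ℕ} (u : Uni τ 𝒰) (x y : Ultrapower τ 𝒰) :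
    (Ultrapower.trace τ 𝒰).norm2 (x * u.1 - u.1 * y) =
      (Ultrapower.trace τ 𝒰).norm2 (x - u.1 * y * star u.1) := by
  have e1 : x * u.1 - u.1 * y = (x - u.1 * y * star u.1) * u.1 := by
    rw [sub_mul, mul_assoc (u.1 * y), u.2.1, mul_one]
  rw [e1, TracialState.norm2_mul_unitary _ u.2.2]

/-- Two homomorphisms of the group von Neumann algebra of `Γ(3)` into the ultrapower at positive
distance from each other. -/
theorem core_theorem (hU : ∀ k, Nonempty (MatUnits τ (Fin k → Fin 2 → ZMod (2 ^ k))))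
    (𝒰 : Ultrafilter ℕ) (h𝒰 : (𝒰 : Filter ℕ) ≤ cofinite) :
    ∃ π σ : UHom τ 𝒰 (trivCocycle G3).Alg,
      ∀ a : ℕ → (trivCocycle G3).Alg, (∀ n, ‖a n‖ ≤ 1) → Generates (trivCocycle G3).vN a →
        homDist τ 𝒰 a π σ ≠ 0 := by
  obtain ⟨U⟩ : Nonempty (∀ k, MatUnits τ (Fin k → Fin 2 → ZMod (2 ^ k))) :=
    ⟨fun k => (hU k).some⟩
  have hρ := rhoSeq_unitary U
  have hid : Tendsto (fun k : ℕ => k) (𝒰 : Filter ℕ) atTop := by
    rw [← Nat.cofinite_eq_atTop]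
    exact h𝒰
  obtain ⟨s, hs, hgap⟩ := exists_reindex τ 𝒰 (rhoSeq U) hρ h𝒰 (rhoSeq_trace U)
    (rhoSeq_finite U) T3 S3 gap3
  obtain ⟨π, hπ1, hπ2⟩ := exists_hom τ 𝒰 (rhoSeq U) hρ (rhoSeq_trace U) (fun k => k) hid h𝒰
  obtain ⟨σ, hσ1, hσ2⟩ := exists_hom τ 𝒰 (rhoSeq U) hρ (rhoSeq_trace U) s hs h𝒰
  refine ⟨π, σ, fun a ha1 ha hd => ?_⟩
  obtain ⟨F, hFne, hF⟩ := approx_equiv hπ2 hσ2 a ha1 ha hd
  have hT := hF (lamHom G3 T3)
  have hS := hF (lamHom G3 S3)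
  rw [hπ1, hσ1] at hT hS
  have hlim := (((hT.pow 2).add (hS.pow 2)).const_mul 75)
  norm_num at hlim
  have hle : (1 : ℝ) ≤ 0 := by
    refine ge_of_tendsto' hlim fun u => ?_
    have h1 := hgap u.1
    rw [norm2_comm_eq, norm2_comm_eq, norm2_unitary_eq_one] at h1
    linarith
  linarith

end

/-- the conclusion for the internal models -/
theorem main_core.{u} (𝒰 : Ultrafilter ℕ) (h𝒰 : (𝒰 : Filter ℕ) ≤ cofinite) :
    Nonempty (UHom SG.ω.tr 𝒰 (trivCocycle G3).Alg) ∧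
    ∀ a : ℕ → (trivCocycle G3).Alg, (∀ n, ‖a n‖ ≤ 1) → Generates (trivCocycle G3).vN a →
      ∀ (B : Type u) (_ : NormedAddCommGroup B) (_ : NormedSpace ℝ B),
        ¬ ∃ Φ : HomSpace SG.ω.tr 𝒰 (trivCocycle G3).Alg → B,
          IsAffine SG.ω.tr 𝒰 Φ ∧ IsIsometric SG.ω.tr 𝒰 a Φ := by
  obtain ⟨π, σ, h⟩ := core_theorem (τ := SG.ω.tr)
    (fun k => flipR.exists_matUnits _ _ (card_level k)) 𝒰 h𝒰
  refine ⟨⟨π⟩, fun a ha1 ha B _ _ => ?_⟩
  rintro ⟨Φ, hΦ, hΦ'⟩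
  exact h a ha1 ha (homDist_eq_zero_of_embedding 𝒰 flipR.halving a ha1 Φ hΦ hΦ' π σ)

/-- The enumerated group elements generate the group von Neumann algebra. -/
theorem exists_generates : ∃ a : ℕ → (trivCocycle G3).Alg, (∀ n, ‖a n‖ ≤ 1) ∧
    Generates (trivCocycle G3).vN a := by
  obtain ⟨f, hf⟩ := exists_surjective_nat G3
  refine ⟨fun n => (trivCocycle G3).u (f n), fun n => ?_, fun N hN => ?_⟩
  · exact norm_le_one_of_star_mul ((trivCocycle G3).star_u_mul _)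
  · apply (trivCocycle G3).vN_le
    intro g
    obtain ⟨n, rfl⟩ := hf g
    exact hN n

end Pool.Agent.HomRU
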