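import Pool.Agent.HomRU.Midpoint

set_option autoImplicit false
set_option linter.unusedSectionVars false
set_option linter.style.haveILetI false

open Filter Topology

namespace Pool.Agent.HomRU

/-- Two anticommuting self-adjoint unitaries whose relative commutant is a copy of the algebra. -/
structure Flip {A : Type*} [CStarAlgebra A] (τ : TracialState A) where
  /-- the embedding onto the relative commutant -/
  sh : A →⋆ₐ[ℂ] A
  /-- first unitary -/
  Z : A
  /-- second unitary -/
  X : A
  sh_inj : Function.Injective sh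
  Z_sq : Z * Z = 1
  X_sq : X * X = 1
  star_Z : star Z = Z
  star_X : star X = X
  anti : X * Z = -(Z * X)
  Z_comm : ∀ a, Z * sh a = sh a * Z
  X_comm : ∀ a, X * sh a = sh a * X
  mem_range : ∀ y, Z * y = y * Z → X * y = y * X → ∃ x, sh x = y
  tr_sh : ∀ a, τ.toLin (sh a) = τ.toLin a
  tr_Z : ∀ a, τ.toLin (Z * sh a) = 0
  tr_X : ∀ a, τ.toLin (X * sh a) = 0
  tr_ZX : ∀ a, τ.toLin (Z * X * sh a) = 0

namespace Flip

variable {A : Type*} [CStarAlgebra A] {τ : TracialState A} (F : Flip τ)

/-- the projection `(1 + Z)/2` -/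
noncomputable def p : A := (1 / 2 : ℂ) • (1 + F.Z)

theorem half_add (a : A) : (1 / 2 : ℂ) • a + (1 / 2 : ℂ) • a = a := by
  rw [← add_smul]
  norm_num

theorem Z_mul_p : F.Z * F.p = F.p := by
  unfold p
  rw [mul_smul_comm, mul_add, mul_one, F.Z_sq, add_comm]

theorem p_mul_Z : F.p * F.Z = F.p := by
  unfold p
  rw [smul_mul_assoc, add_mul, one_mul, F.Z_sq, add_comm]

theorem star_p : star F.p = F.p := by
  unfold p
  rw [star_smul, star_add, star_one, F.star_Z]
  congr 1
  simp

theorem p_sq : F.p * F.p = F.p := by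
  conv_lhs => enter [1]; unfold p
  rw [smul_mul_assoc, add_mul, one_mul, Z_mul_p, smul_add, half_add]

theorem isStarProjection_p : IsStarProjection F.p := ⟨F.p_sq, F.star_p⟩

theorem one_sub_p : 1 - F.p = (1 / 2 : ℂ) • (1 - F.Z) := by
  unfold p
  rw [sub_eq_iff_eq_add, ← smul_add, sub_add_add_cancel, smul_add, half_add]

theorem X_mul_p : F.X * F.p = (1 - F.p) * F.X := by
  rw [one_sub_p]
  unfold p
  rw [mul_smul_comm, smul_mul_assoc, mul_add, mul_one, F.anti, sub_mul, one_mul, ← sub_eq_add_neg]

theorem X_mul_q : F.X * (1 - F.p) = F.p * F.X := by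
  rw [mul_sub, X_mul_p, sub_mul, one_mul, mul_one]
  abel

theorem p_mul_q : F.p * (1 - F.p) = 0 := by
  rw [mul_sub, mul_one, p_sq, sub_self]

theorem q_mul_p : (1 - F.p) * F.p = 0 := by
  rw [sub_mul, one_mul, p_sq, sub_self]

theorem q_sq : (1 - F.p) * (1 - F.p) = 1 - F.p := by
  rw [mul_sub, mul_one, q_mul_p, sub_zero]

theorem star_q : star (1 - F.p) = 1 - F.p := by
  rw [star_sub, star_one, star_p]

theorem p_comm (a : A) : F.p * F.sh a = F.sh a * F.p := by
  unfold p
  rw [smul_mul_assoc, mul_smul_comm, add_mul, mul_add, F.Z_comm, one_mul, mul_one]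

theorem q_comm (a : A) : (1 - F.p) * F.sh a = F.sh a * (1 - F.p) := by
  rw [sub_mul, mul_sub, p_comm, one_mul, mul_one]

/-- multiplication by a commuting projection as a `*`-homomorphism -/
noncomputable def cut (e : A) (he : IsStarProjection e) (hc : ∀ a, e * F.sh a = F.sh a * e) :
    A →⋆ₙₐ[ℂ] A where
  toFun a := e * F.sh a
  map_smul' c a := by
    show e * F.sh (c • a) = c • (e * F.sh a)
    rw [map_smul, mul_smul_comm]
  map_zero' := by rw [map_zero, mul_zero]
  map_add' a b := by rw [map_add, mul_add]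
  map_mul' a b := by
    calc e * F.sh (a * b) = (e * e) * (F.sh a * F.sh b) := by
          rw [map_mul, he.isIdempotentElem.eq]
      _ = e * (e * F.sh a) * F.sh b := by simp only [mul_assoc]
      _ = e * (F.sh a * e) * F.sh b := by rw [hc]
      _ = e * F.sh a * (e * F.sh b) := by simp only [mul_assoc]
  map_star' a := by
    show e * F.sh (star a) = star (e * F.sh a)
    rw [star_mul, map_star, he.isSelfAdjoint.star_eq]
    rw [← map_star, hc]

theorem cut_apply (e : A) (he : IsStarProjection e) (hc : ∀ a, e * F.sh a = F.sh a * e) (a : A) :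
    F.cut e he hc a = e * F.sh a := rfl

theorem X_conj_p : F.X * F.p * F.X = 1 - F.p := by
  rw [X_mul_p, mul_assoc, F.X_sq, mul_one]

theorem X_conj_q : F.X * (1 - F.p) * F.X = F.p := by
  rw [X_mul_q, mul_assoc, F.X_sq, mul_one]

theorem isCornerHom (e e' : A) (he : IsStarProjection e) (hc : ∀ a, e * F.sh a = F.sh a * e)
    (h1 : e + e' = 1) (h2 : F.X * e = e' * F.X) (h2' : F.X * e' = e * F.X) (h3 : ∃ ε : ℂ, ε * ε = 1 ∧
      F.Z * e = ε • e ∧ e * F.Z = ε • e) :
    IsCornerHom e (F.cut e he hc) := by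
  have hidem : e * e = e := he.isIdempotentElem.eq
  have hee' : e * e' = 0 := by
    rw [← add_left_cancel_iff (a := e * e), ← mul_add, h1, mul_one, hidem, add_zero]
  have he'e : e' * e = 0 := by
    rw [← add_left_cancel_iff (a := e * e), ← add_mul, h1, one_mul, hidem, add_zero]
  constructor
  · rw [injective_iff_map_eq_zero]
    intro a ha
    rw [cut_apply] at ha
    have h4 : e' * F.sh a = 0 := by
      calc e' * F.sh a = e' * (F.X * F.X) * F.sh a := by rw [F.X_sq, mul_one]
        _ = (e' * F.X) * (F.X * F.sh a) := by simp only [mul_assoc]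
        _ = F.X * (e * (F.sh a * F.X)) := by rw [← h2, F.X_comm]; simp only [mul_assoc]
        _ = F.X * ((e * F.sh a) * F.X) := by simp only [mul_assoc]
        _ = 0 := by rw [ha, zero_mul, mul_zero]
    have h5 : F.sh a = 0 := by
      calc F.sh a = (e + e') * F.sh a := by rw [h1, one_mul]
        _ = 0 := by rw [add_mul, ha, h4, add_zero]
    exact F.sh_inj (h5.trans (map_zero F.sh).symm)
  · apply Set.Subset.antisymm
    · rintro _ ⟨a, rfl⟩
      show e * (F.cut e he hc a) * e = F.cut e he hc a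
      rw [cut_apply, ← mul_assoc, hidem, mul_assoc, ← hc, ← mul_assoc, hidem]
    · intro y hy
      have hy' : e * y * e = y := hy
      have h4 : e * y = y := by rw [← hy', ← mul_assoc, ← mul_assoc, hidem]
      have h5 : y * e = y := by rw [← hy', mul_assoc, hidem]
      obtain ⟨ε, hε, hZe, heZ⟩ := h3
      have hZy : F.Z * y = ε • y := by
        calc F.Z * y = (F.Z * e) * y := by rw [mul_assoc, h4]
          _ = ε • y := by rw [hZe, smul_mul_assoc, h4]
      have hyZ : y * F.Z = ε • y := by
        calc y * F.Z = y * (e * F.Z) := by rw [← mul_assoc, h5]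
          _ = ε • y := by rw [heZ, mul_smul_comm, h5]
      have hanti' : F.Z * F.X = -(F.X * F.Z) := by rw [F.anti, neg_neg]
      obtain ⟨x, hx⟩ := F.mem_range (y + F.X * y * F.X) (by
        have e1 : F.Z * (F.X * y * F.X) = -(ε • (F.X * y * F.X)) := by
          calc F.Z * (F.X * y * F.X) = (F.Z * F.X) * y * F.X := by simp only [mul_assoc]
            _ = -(F.X * (F.Z * y) * F.X) := by rw [hanti']; noncomm_ring
            _ = _ := by rw [hZy, mul_smul_comm, smul_mul_assoc]
        have e2 : (F.X * y * F.X) * F.Z = -(ε • (F.X * y * F.X)) := by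
          calc (F.X * y * F.X) * F.Z = F.X * y * (F.X * F.Z) := by simp only [mul_assoc]
            _ = -(F.X * (y * F.Z) * F.X) := by rw [F.anti]; noncomm_ring
            _ = _ := by rw [hyZ, mul_smul_comm, smul_mul_assoc]
        rw [mul_add, add_mul, e1, e2, hZy, hyZ]) (by
        have e1 : F.X * (F.X * y * F.X) = y * F.X := by
          calc F.X * (F.X * y * F.X) = (F.X * F.X) * y * F.X := by simp only [mul_assoc]
            _ = _ := by rw [F.X_sq, one_mul]
        have e2 : (F.X * y * F.X) * F.X = F.X * y := by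
          rw [mul_assoc, F.X_sq, mul_one]
        rw [mul_add, add_mul, e1, e2, add_comm])
      refine ⟨x, ?_⟩
      rw [cut_apply, hx, mul_add, h4]
      have h6 : e * (F.X * y * F.X) = 0 := by
        calc e * (F.X * y * F.X) = (e * F.X) * y * F.X := by simp only [mul_assoc]
          _ = F.X * (e' * (e * y)) * F.X := by rw [← h2', h4]; simp only [mul_assoc]
          _ = F.X * ((e' * e) * y) * F.X := by simp only [mul_assoc]
          _ = 0 := by rw [he'e, zero_mul, mul_zero, zero_mul]
      rw [h6, add_zero]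

theorem tr_p (a : A) : τ.toLin (F.p * F.sh a) = (1 / 2 : ℂ) * τ.toLin a := by
  unfold p
  rw [smul_mul_assoc, map_smul, add_mul, one_mul, map_add, F.tr_Z, add_zero, F.tr_sh, smul_eq_mul]

theorem tr_q (a : A) : τ.toLin ((1 - F.p) * F.sh a) = (1 / 2 : ℂ) * τ.toLin a := by
  rw [sub_mul, one_mul, map_sub, tr_p, F.tr_sh]
  ring

/-- a flip system gives a halving -/
noncomputable def halving : Halving τ where
  p := F.p
  ψ₀ := F.cut F.p F.isStarProjection_p F.p_comm
  ψ₁ := F.cut (1 - F.p) F.isStarProjection_p.one_sub F.q_comm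
  proj := F.isStarProjection_p
  iso₀ := F.isCornerHom F.p (1 - F.p) _ _ (add_sub_cancel _ _) F.X_mul_p F.X_mul_q
    ⟨1, one_mul 1, by rw [Z_mul_p, one_smul], by rw [p_mul_Z, one_smul]⟩
  iso₁ := F.isCornerHom (1 - F.p) F.p _ _ (sub_add_cancel _ _) F.X_mul_q F.X_mul_p
    ⟨-1, by norm_num, by
      rw [one_sub_p, mul_smul_comm, mul_sub, F.Z_sq, mul_one, neg_smul, one_smul, ← smul_neg,
        neg_sub], by
      rw [one_sub_p, smul_mul_assoc, sub_mul, F.Z_sq, one_mul, neg_smul, one_smul, ← smul_neg,
        neg_sub]⟩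
  tr₀ a := F.tr_p a
  tr₁ a := F.tr_q a

end Flip

/-- Matrix units indexed by `X`, with trace. -/
structure MatUnits {A : Type*} [CStarAlgebra A] (τ : TracialState A) (X : Type) [Fintype X]
    [DecidableEq X] where
  /-- the matrix units -/
  E : X → X → A
  mul : ∀ v w v' w', E v w * E v' w' = if w = v' then E v w' else 0
  star_E : ∀ v w, star (E v w) = E w v
  sum : ∑ v, E v v = 1
  tr : ∀ v w, τ.toLin (E v w) = if v = w then (1 / (Fintype.card X : ℂ)) else 0

namespace Flip

variable {A : Type*} [CStarAlgebra A] {τ : TracialState A} (F : Flip τ)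

/-- the two by two matrix units -/
noncomputable def e (i j : Bool) : A :=
  match i, j with
  | false, false => F.p
  | true, true => 1 - F.p
  | true, false => F.X * F.p
  | false, true => F.p * F.X

theorem e_mul (i j k l : Bool) : F.e i j * F.e k l = if j = k then F.e i l else 0 := by
  have h1 : F.p * F.X * (1 - F.p) = F.p * F.X := by
    rw [mul_assoc, X_mul_q, ← mul_assoc, p_sq]
  have h2 : F.p * F.X * F.p = 0 := by
    rw [mul_assoc, X_mul_p, ← mul_assoc, p_mul_q, zero_mul]
  have h3 : F.X * F.p * (1 - F.p) = 0 := by rw [mul_assoc, p_mul_q, mul_zero]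
  have h4 : F.X * F.p * F.p = F.X * F.p := by rw [mul_assoc, p_sq]
  cases i <;> cases j <;> cases k <;> cases l <;> simp only [e, if_true, if_false, reduceCtorEq]
  · exact F.p_sq
  · rw [← mul_assoc, p_sq]
  · rw [← mul_assoc]; exact h2
  · exact F.p_mul_q
  · exact h2
  · rw [← mul_assoc, h2, zero_mul]
  · rw [← mul_assoc, mul_assoc F.p, F.X_sq, mul_one, p_sq]
  · exact h1
  · exact h4
  · rw [← mul_assoc, h4, X_mul_p, mul_assoc, F.X_sq, mul_one]
  · rw [← mul_assoc, mul_assoc F.X, ← X_mul_q, ← mul_assoc, F.X_sq, one_mul, q_mul_p]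
  · exact h3
  · exact F.q_mul_p
  · rw [← mul_assoc, q_mul_p, zero_mul]
  · rw [X_mul_p, ← mul_assoc, q_sq]
  · exact F.q_sq

theorem star_e (i j : Bool) : star (F.e i j) = F.e j i := by
  cases i <;> cases j <;> simp only [e]
  · exact F.star_p
  · rw [star_mul, star_p, F.star_X]
  · rw [star_mul, star_p, F.star_X]
  · exact F.star_q

theorem e_comm (i j : Bool) (a : A) : F.e i j * F.sh a = F.sh a * F.e i j := by
  cases i <;> cases j <;> simp only [e]
  · exact F.p_comm a
  · rw [mul_assoc, F.X_comm, ← mul_assoc, p_comm, mul_assoc]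
  · rw [mul_assoc, p_comm, ← mul_assoc, F.X_comm, mul_assoc]
  · exact F.q_comm a

theorem tr_e (i j : Bool) (a : A) :
    τ.toLin (F.e i j * F.sh a) = if i = j then (1 / 2 : ℂ) * τ.toLin a else 0 := by
  have hXp : F.X * F.p = (1 / 2 : ℂ) • (F.X - F.Z * F.X) := by
    unfold p
    rw [mul_smul_comm, mul_add, mul_one, F.anti, sub_eq_add_neg]
  have hpX : F.p * F.X = (1 / 2 : ℂ) • (F.X + F.Z * F.X) := by
    unfold p
    rw [smul_mul_assoc, add_mul, one_mul]
  cases i <;> cases j <;> simp only [e, if_true, if_false, reduceCtorEq]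
  · exact F.tr_p a
  · rw [hpX, smul_mul_assoc, map_smul, add_mul, map_add, F.tr_X, F.tr_ZX, add_zero, smul_zero]
  · rw [hXp, smul_mul_assoc, map_smul, sub_mul, map_sub, F.tr_X, F.tr_ZX, sub_zero, smul_zero]
  · exact F.tr_q a

/-- amplification of matrix units -/
noncomputable def amp {X : Type} [Fintype X] [DecidableEq X] (U : MatUnits τ X) :
    MatUnits τ (Bool × X) where
  E v w := F.e v.1 w.1 * F.sh (U.E v.2 w.2)
  mul v w v' w' := by
    calc F.e v.1 w.1 * F.sh (U.E v.2 w.2) * (F.e v'.1 w'.1 * F.sh (U.E v'.2 w'.2))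
        = F.e v.1 w.1 * (F.sh (U.E v.2 w.2) * F.e v'.1 w'.1) * F.sh (U.E v'.2 w'.2) := by
          simp only [mul_assoc]
      _ = (F.e v.1 w.1 * F.e v'.1 w'.1) * F.sh (U.E v.2 w.2 * U.E v'.2 w'.2) := by
          rw [← e_comm, map_mul]; simp only [mul_assoc]
      _ = _ := by
          rw [e_mul, U.mul]
          by_cases h1 : w.1 = v'.1
          · by_cases h2 : w.2 = v'.2
            · rw [if_pos h1, if_pos h2, if_pos (Prod.ext h1 h2)]
            · rw [if_neg h2, if_neg (fun h => h2 (congrArg Prod.snd h)), map_zero, mul_zero]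
          · rw [if_neg h1, if_neg (fun h => h1 (congrArg Prod.fst h)), zero_mul]
  star_E v w := by rw [star_mul, star_e, ← map_star, U.star_E, e_comm]
  sum := by
    rw [Fintype.sum_prod_type]
    simp_rw [← Finset.mul_sum, ← map_sum]
    rw [U.sum, map_one, Fintype.sum_bool]
    show (1 - F.p) * 1 + F.p * 1 = 1
    rw [mul_one, mul_one, sub_add_cancel]
  tr v w := by
    rw [tr_e, U.tr]
    by_cases h1 : v.1 = w.1
    · by_cases h2 : v.2 = w.2
      · rw [if_pos h1, if_pos h2, if_pos (Prod.ext h1 h2), Fintype.card_prod, Fintype.card_bool]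
        push_cast
        ring
      · rw [if_pos h1, if_neg h2, if_neg (fun h => h2 (congrArg Prod.snd h)), mul_zero]
    · rw [if_neg h1, if_neg (fun h => h1 (congrArg Prod.fst h))]

/-- trivial matrix units -/
noncomputable def unitMat (τ : TracialState A) : MatUnits τ Unit where
  E _ _ := 1
  mul v w v' w' := by rw [if_pos (Subsingleton.elim _ _), mul_one]
  star_E v w := star_one _
  sum := by simp
  tr v w := by
    rw [if_pos (Subsingleton.elim _ _), τ.map_one]
    simp

/-- transport of matrix units -/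
noncomputable def _root_.Pool.Agent.HomRU.MatUnits.transport {X Y : Type} [Fintype X]
    [DecidableEq X] [Fintype Y] [DecidableEq Y] (U : MatUnits τ X) (f : Y ≃ X) : MatUnits τ Y where
  E v w := U.E (f v) (f w)
  mul v w v' w' := by
    rw [U.mul]
    by_cases h : w = v'
    · rw [if_pos h, if_pos (congrArg f h)]
    · rw [if_neg h, if_neg (fun h' => h (f.injective h'))]
  star_E v w := U.star_E _ _
  sum := by rw [f.sum_comp (fun x => U.E x x), U.sum]
  tr v w := by
    rw [U.tr, Fintype.card_congr f]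
    by_cases h : v = w
    · rw [if_pos h, if_pos (congrArg f h)]
    · rw [if_neg h, if_neg (fun h' => h (f.injective h'))]

include F in
theorem exists_matUnits_aux (n : ℕ) : ∃ (X : Type) (_ : Fintype X) (_ : DecidableEq X),
    Fintype.card X = 2 ^ n ∧ Nonempty (MatUnits τ X) := by
  induction n with
  | zero => exact ⟨Unit, inferInstance, inferInstance, rfl, ⟨unitMat τ⟩⟩
  | succ n ih =>
    obtain ⟨X, h1, h2, h3, ⟨U⟩⟩ := ih
    refine ⟨Bool × X, inferInstance, inferInstance, ?_, ⟨F.amp U⟩⟩
    rw [Fintype.card_prod, Fintype.card_bool, h3, pow_succ']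

include F in
/-- matrix units of any size `2^n` -/
theorem exists_matUnits (n : ℕ) (Y : Type) [Fintype Y] [DecidableEq Y]
    (hY : Fintype.card Y = 2 ^ n) : Nonempty (MatUnits τ Y) := by
  obtain ⟨X, h1, h2, h3, ⟨U⟩⟩ := F.exists_matUnits_aux n
  exact ⟨U.transport (Fintype.equivOfCardEq (hY.trans h3.symm))⟩

end Flip

end Pool.Agent.HomRU
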