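import Pool.Agent.HomRU.SelfSim
import Pool.Agent.HomRU.Flip

set_option autoImplicit false
set_option linter.unusedSectionVars false
set_option linter.style.haveILetI false

open scoped InnerProductSpace
open Filter Topology

namespace Pool.Agent.HomRU

/-- the four group -/
abbrev V4 : Type := Multiplicative (ZMod 2) × Multiplicative (ZMod 2)

/-- the cocycle values on the four group -/
def c4 (a b : V4) : ℤˣ := if a.2 ≠ 1 ∧ b.1 ≠ 1 then -1 else 1

/-- the cocycle on the four group -/
def ω4 : SignCocycle V4 where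
  c := c4
  one_left := by decide
  one_right := by decide
  cocycle := by decide

theorem ω4_nondeg : ∀ b : V4, b ≠ 1 → ∃ a, a * b = b * a ∧ ω4.c a b ≠ ω4.c b a := by decide

/-- the group of finitely supported sequences in the four group -/
def FinG : Subgroup (ℕ → V4) where
  carrier := {f | ∃ N, ∀ i, N ≤ i → f i = 1}
  mul_mem' := by
    rintro f g ⟨N, hN⟩ ⟨N', hN'⟩
    refine ⟨max N N', fun i hi => ?_⟩
    rw [Pi.mul_apply, hN i (le_trans (le_max_left _ _) hi), hN' i (le_trans (le_max_right _ _) hi),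
      mul_one]
  one_mem' := ⟨0, fun i _ => rfl⟩
  inv_mem' := by
    rintro f ⟨N, hN⟩
    refine ⟨N, fun i hi => ?_⟩
    rw [Pi.inv_apply, hN i hi, inv_one]

/-- the product cocycle -/
noncomputable def cFin (f g : FinG) : ℤˣ := ∏ᶠ i, ω4.c (f.1 i) (g.1 i)

theorem cFin_eq (f g : FinG) (N : ℕ) (h : ∀ i, N ≤ i → f.1 i = 1 ∨ g.1 i = 1) :
    cFin f g = ∏ i ∈ Finset.range N, ω4.c (f.1 i) (g.1 i) := by
  unfold cFin
  apply finprod_eq_prod_of_mulSupport_subset
  intro i hi
  rw [Function.mem_mulSupport] at hi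
  rw [Finset.coe_range, Set.mem_Iio]
  by_contra h1
  rcases h i (not_lt.1 h1) with h2 | h2
  · exact hi (by rw [h2, ω4.one_left])
  · exact hi (by rw [h2, ω4.one_right])

/-- the cocycle on the infinite sum -/
noncomputable def ωFin : SignCocycle FinG where
  c := cFin
  one_left g := by
    rw [cFin_eq 1 g 0 (fun i _ => Or.inl rfl), Finset.range_zero, Finset.prod_empty]
  one_right g := by
    rw [cFin_eq g 1 0 (fun i _ => Or.inr rfl), Finset.range_zero, Finset.prod_empty]
  cocycle := by
    intro f g h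
    obtain ⟨N1, h1⟩ := f.2
    obtain ⟨N2, h2⟩ := g.2
    obtain ⟨N3, h3⟩ := h.2
    have h1' : ∀ i, max N1 (max N2 N3) ≤ i → f.1 i = 1 := fun i hi =>
      h1 i (le_trans (le_max_left _ _) hi)
    have h2' : ∀ i, max N1 (max N2 N3) ≤ i → g.1 i = 1 := fun i hi =>
      h2 i (le_trans (le_trans (le_max_left _ _) (le_max_right _ _)) hi)
    have h3' : ∀ i, max N1 (max N2 N3) ≤ i → h.1 i = 1 := fun i hi =>
      h3 i (le_trans (le_trans (le_max_right _ _) (le_max_right _ _)) hi)
    rw [cFin_eq f g _ (fun i hi => Or.inl (h1' i hi)),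
      cFin_eq (f * g) h _ (fun i hi => Or.inr (h3' i hi)),
      cFin_eq g h _ (fun i hi => Or.inl (h2' i hi)),
      cFin_eq f (g * h) _ (fun i hi => Or.inl (h1' i hi)),
      ← Finset.prod_mul_distrib, ← Finset.prod_mul_distrib]
    refine Finset.prod_congr rfl fun i _ => ?_
    exact ω4.cocycle _ _ _

/-- prepend an entry -/
def consG (a : V4) (f : ℕ → V4) : ℕ → V4
  | 0 => a
  | (n + 1) => f n

/-- the self-similarity -/
def eG : V4 × FinG ≃* FinG where
  toFun p := ⟨consG p.1 p.2.1, by
    obtain ⟨N, hN⟩ := p.2.2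
    refine ⟨N + 1, fun i hi => ?_⟩
    cases i with
    | zero => omega
    | succ n => exact hN n (by omega)⟩
  invFun f := (f.1 0, ⟨fun n => f.1 (n + 1), by
    obtain ⟨N, hN⟩ := f.2
    exact ⟨N, fun i hi => hN (i + 1) (by omega)⟩⟩)
  left_inv p := rfl
  right_inv f := by
    apply Subtype.ext
    funext i
    cases i with
    | zero => rfl
    | succ n => rfl
  map_mul' p q := by
    apply Subtype.ext
    funext i
    cases i with
    | zero => rfl
    | succ n => rfl

theorem eG_zero (p : V4 × FinG) : (eG p).1 0 = p.1 := rfl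
theorem eG_succ (p : V4 × FinG) (n : ℕ) : (eG p).1 (n + 1) = p.2.1 n := rfl

/-- the self-similar system of the hyperfinite factor -/
noncomputable def SG : SelfSim V4 FinG where
  ω₀ := ω4
  ω := ωFin
  e := eG
  compat := by
    intro p q
    obtain ⟨N, hN⟩ := p.2.2
    show cFin (eG p) (eG q) = ω4.c p.1 q.1 * cFin p.2 q.2
    rw [cFin_eq (eG p) (eG q) (N + 1), cFin_eq p.2 q.2 N (fun i hi => Or.inl (hN i hi)),
      Finset.prod_range_succ']
    · rw [mul_comm]
      rfl
    · intro i hi
      left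
      cases i with
      | zero => omega
      | succ n => exact hN n (by omega)

/-- put an element at a place -/
def singleG (n : ℕ) (a : V4) : FinG := ⟨fun i => if i = n then a else 1, n + 1, fun i hi =>
  if_neg (by omega)⟩

theorem FinG_comm (f g : FinG) : f * g = g * f := by
  apply Subtype.ext
  funext i
  exact mul_comm _ _

theorem ωFin_nondeg (g : FinG) (hg : g ≠ 1) : ∃ h, h * g = g * h ∧ ωFin.c h g ≠ ωFin.c g h := by
  have h1 : ∃ i, g.1 i ≠ 1 := by
    by_contra h
    push Not at h
    exact hg (Subtype.ext (funext h))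
  obtain ⟨i, hi⟩ := h1
  obtain ⟨a, _, ha⟩ := ω4_nondeg _ hi
  refine ⟨singleG i a, FinG_comm _ _, ?_⟩
  have e1 : ωFin.c (singleG i a) g = ω4.c a (g.1 i) := by
    show cFin _ _ = _
    rw [cFin_eq _ _ (i + 1) (fun j hj => Or.inl (if_neg (by omega)))]
    rw [Finset.prod_eq_single i]
    · show ω4.c (if i = i then a else 1) (g.1 i) = _
      rw [if_pos rfl]
    · intro j _ hj
      show ω4.c (if j = i then a else 1) (g.1 j) = 1
      rw [if_neg hj, ω4.one_left]
    · intro h
      exact absurd (Finset.mem_range.2 (Nat.lt_succ_self i)) h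
  have e2 : ωFin.c g (singleG i a) = ω4.c (g.1 i) a := by
    show cFin _ _ = _
    rw [cFin_eq _ _ (i + 1) (fun j hj => Or.inr (if_neg (by omega)))]
    rw [Finset.prod_eq_single i]
    · show ω4.c (g.1 i) (if i = i then a else 1) = _
      rw [if_pos rfl]
    · intro j _ hj
      show ω4.c (g.1 j) (if j = i then a else 1) = 1
      rw [if_neg hj, ω4.one_right]
    · intro h
      exact absurd (Finset.mem_range.2 (Nat.lt_succ_self i)) h
  rw [e1, e2]
  exact ha

/-- elements supported below `n` -/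
def KG (n : ℕ) : Subgroup FinG where
  carrier := {f | ∀ i, n ≤ i → f.1 i = 1}
  mul_mem' := by
    intro f g hf hg i hi
    show f.1 i * g.1 i = 1
    rw [hf i hi, hg i hi, mul_one]
  one_mem' := fun i _ => rfl
  inv_mem' := by
    intro f hf i hi
    show (f.1 i)⁻¹ = 1
    rw [hf i hi, inv_one]

theorem KG_mono : Monotone KG := by
  intro m n hmn f hf i hi
  exact hf i (hmn.trans hi)

theorem KG_finite (n : ℕ) : Finite (KG n) := by
  have h : Function.Injective (fun f : KG n => fun i : Fin n => f.1.1 i) := by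
    intro f g hfg
    apply Subtype.ext
    apply Subtype.ext
    funext i
    by_cases hi : i < n
    · exact congrFun hfg ⟨i, hi⟩
    · rw [f.2 i (not_lt.1 hi), g.2 i (not_lt.1 hi)]
  exact Finite.of_injective _ h

theorem KG_union (f : FinG) : ∃ n, f ∈ KG n := f.2

instance : Infinite FinG := by
  refine Infinite.of_injective (fun n : ℕ => singleG n (Multiplicative.ofAdd 1, 1)) ?_
  intro m n h
  have h1 := congrFun (congrArg Subtype.val h) m
  have h2 : (if m = m then ((Multiplicative.ofAdd 1, 1) : V4) else 1) =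
    if m = n then (Multiplicative.ofAdd 1, 1) else 1 := h1
  by_contra hmn
  rw [if_pos rfl, if_neg hmn] at h2
  exact absurd h2 (by decide)

theorem isHyperfinite_R : IsHyperfiniteIIOneFactor SG.ω.vN :=
  ωFin.isHyperfinite (fun g hg => Or.inl (ωFin_nondeg g hg)) KG KG_mono KG_finite KG_union

/-- the first generator -/
def z4 : V4 := (1, Multiplicative.ofAdd 1)
/-- the second generator -/
def x4 : V4 := (Multiplicative.ofAdd 1, 1)

theorem SG_star_v (a : V4) (h1 : a * a = 1) (h2 : ω4.c a a = 1) : star (SG.v a) = SG.v a := by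
  have h3 : SG.v a * SG.v a = 1 := by
    rw [SG.v_mul_v, h1]
    show sg (ω4.c a a) • SG.v 1 = 1
    rw [h2, sg_one, one_smul, SG.v_one]
  calc star (SG.v a) = star (SG.v a) * (SG.v a * SG.v a) := by rw [h3, mul_one]
    _ = SG.v a := by
      rw [← mul_assoc]
      show star (SG.ω.u (SG.e (a, 1))) * SG.ω.u (SG.e (a, 1)) * _ = _
      rw [SG.ω.star_u_mul, one_mul]

/-- the flip system of the hyperfinite factor -/
noncomputable def flipR : Flip SG.ω.tr where
  sh := SG.sh
  Z := SG.v z4
  X := SG.v x4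
  sh_inj := SG.sh_injective
  Z_sq := by
    rw [SG.v_mul_v]
    show sg (ω4.c z4 z4) • SG.v (z4 * z4) = 1
    rw [show ω4.c z4 z4 = 1 by decide, show z4 * z4 = 1 by decide, sg_one, one_smul, SG.v_one]
  X_sq := by
    rw [SG.v_mul_v]
    show sg (ω4.c x4 x4) • SG.v (x4 * x4) = 1
    rw [show ω4.c x4 x4 = 1 by decide, show x4 * x4 = 1 by decide, sg_one, one_smul, SG.v_one]
  star_Z := SG_star_v _ (by decide) (by decide)
  star_X := SG_star_v _ (by decide) (by decide)
  anti := by
    rw [SG.v_mul_v, SG.v_mul_v]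
    show sg (ω4.c x4 z4) • SG.v (x4 * z4) = -(sg (ω4.c z4 x4) • SG.v (z4 * x4))
    rw [show ω4.c x4 z4 = 1 by decide, show ω4.c z4 x4 = -1 by decide,
      show x4 * z4 = z4 * x4 by decide, sg_one, one_smul]
    have : sg (-1) = -1 := by simp [sg]
    rw [this, neg_smul, one_smul, neg_neg]
  Z_comm := SG.v_comm_sh _
  X_comm := SG.v_comm_sh _
  mem_range := by
    intro y hZ hX
    apply SG.mem_range_sh ω4_nondeg y
    have hZX : SG.v (z4 * x4) * y = y * SG.v (z4 * x4) := by
      have h1 : SG.v z4 * SG.v x4 = sg (ω4.c z4 x4) • SG.v (z4 * x4) := SG.v_mul_v _ _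
      have h2 : SG.v (z4 * x4) = sg (ω4.c z4 x4) • (SG.v z4 * SG.v x4) := by
        rw [h1, smul_smul, sg_mul_self, one_smul]
      rw [h2, smul_mul_assoc, mul_smul_comm, mul_assoc, hX, ← mul_assoc, hZ, mul_assoc]
    have h1 : SG.v 1 * y = y * SG.v 1 := by rw [SG.v_one, one_mul, mul_one]
    intro a
    have h4 : a = 1 ∨ a = z4 ∨ a = x4 ∨ a = z4 * x4 := by
      revert a
      decide
    rcases h4 with h | h | h | h <;> rw [h] <;> assumption
  tr_sh a := by
    have := SG.tr_v_mul_sh 1 a
    rwa [SG.v_one, one_mul, if_pos rfl] at this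
  tr_Z a := by
    have := SG.tr_v_mul_sh z4 a
    rwa [if_neg (by decide)] at this
  tr_X a := by
    have := SG.tr_v_mul_sh x4 a
    rwa [if_neg (by decide)] at this
  tr_ZX a := by
    have := SG.tr_v_mul_sh (z4 * x4) a
    rw [if_neg (by decide)] at this
    have h1 : SG.v z4 * SG.v x4 = sg (ω4.c z4 x4) • SG.v (z4 * x4) := SG.v_mul_v _ _
    rw [h1, smul_mul_assoc, map_smul, this, smul_zero]

end Pool.Agent.HomRU
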