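import Mathlib

set_option autoImplicit false

open Filter Topology

namespace Pool.Agent.HomRU

/-! ### Tracial states -/

/-- A tracial state on a unital complex `*`-algebra: a linear functional `τ` with `τ 1 = 1`,
`τ (a* a) ≥ 0` and `τ (a b) = τ (b a)`. -/
structure TracialState (A : Type*) [Ring A] [StarRing A] [Algebra ℂ A] where
  /-- the underlying linear functional -/
  toLin : A →ₗ[ℂ] ℂ
  map_one : toLin 1 = 1
  nonneg : ∀ a : A, ∃ r : ℝ, 0 ≤ r ∧ toLin (star a * a) = r
  tracial : ∀ a b : A, toLin (a * b) = toLin (b * a)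

namespace TracialState

variable {A : Type*} [Ring A] [StarRing A] [Algebra ℂ A]

/-- The `2`-norm `‖a‖₂ = τ(a* a)^{1/2}`. -/
noncomputable def norm2 (τ : TracialState A) (a : A) : ℝ := Real.sqrt (τ.toLin (star a * a)).re

end TracialState

end Pool.Agent.HomRU
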