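import Mathlib

set_option autoImplicit false
set_option linter.unusedSectionVars false
set_option linter.style.haveILetI false

open scoped InnerProductSpace

namespace Pool.Agent.HomRU

/-- `ℓ²(ι)` -/
abbrev ell2 (ι : Type*) : Type _ := lp (fun _ : ι => ℂ) 2

section

variable {ι : Type*} {E : Type*} [NormedAddCommGroup E] [InnerProductSpace ℂ E] [CompleteSpace E]

open Classical in
/-- the standard basis vector -/
noncomputable def dl (i : ι) : ell2 ι := lp.single 2 i (1 : ℂ)

open Classical in
theorem dl_apply (i j : ι) : dl i j = if j = i then 1 else 0 := by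
  unfold dl
  rw [lp.single_apply, Pi.single_apply]

theorem dl_apply_self (i : ι) : dl i i = 1 := by
  rw [dl_apply, if_pos rfl]

theorem dl_apply_ne {i j : ι} (h : j ≠ i) : dl i j = 0 := by
  rw [dl_apply, if_neg h]

theorem inner_dl_left (i : ι) (f : ell2 ι) : ⟪dl i, f⟫_ℂ = f i := by
  classical
  have := lp.inner_single_left (𝕜 := ℂ) (G := fun _ : ι => ℂ) i (1 : ℂ) f
  have e : (lp.single 2 i (1 : ℂ) : ell2 ι) = dl i := by
    unfold dl
    congr
  rw [← e, this]
  simp

theorem inner_dl_right (i : ι) (f : ell2 ι) : ⟪f, dl i⟫_ℂ = (starRingEnd ℂ) (f i) := by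
  rw [← inner_conj_symm, inner_dl_left]

open Classical in
theorem inner_dl_dl (i j : ι) : ⟪dl i, dl j⟫_ℂ = if i = j then 1 else 0 := by
  rw [inner_dl_left, dl_apply]

theorem orthonormal_dl : Orthonormal ℂ (dl : ι → ell2 ι) := by
  classical
  rw [orthonormal_iff_ite]
  intro i j
  rw [inner_dl_dl]

theorem norm_dl (i : ι) : ‖(dl i : ell2 ι)‖ = 1 := orthonormal_dl.1 i

theorem hasSum_dl (f : ell2 ι) : HasSum (fun i => f i • dl i) f := by
  classical
  have h := lp.hasSum_single (E := fun _ : ι => ℂ) (p := 2) (by norm_num) f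
  have e : (fun i => f i • dl i) = fun i => (lp.single 2 i (f i) : ell2 ι) := by
    funext i
    apply lp.ext
    funext j
    rw [lp.coeFn_smul, Pi.smul_apply, dl_apply, lp.single_apply, Pi.single_apply]
    by_cases hij : j = i
    · rw [if_pos hij, if_pos hij, smul_eq_mul, mul_one]
    · rw [if_neg hij, if_neg hij, smul_zero]
  rw [e]
  exact h

theorem clm_ext {F : Type*} [NormedAddCommGroup F] [NormedSpace ℂ F] {S T : ell2 ι →L[ℂ] F}
    (h : ∀ i, S (dl i) = T (dl i)) : S = T := by
  ext f
  have h1 := (hasSum_dl f).mapL S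
  have h2 := (hasSum_dl f).mapL T
  have e : (fun i => S (f i • dl i)) = fun i => T (f i • dl i) := by
    funext i
    rw [map_smul, map_smul, h]
  rw [e] at h1
  exact h1.unique h2

theorem ell2_ext {f g : ell2 ι} (h : ∀ i, ⟪dl i, f⟫_ℂ = ⟪dl i, g⟫_ℂ) : f = g := by
  apply lp.ext
  funext i
  rw [← inner_dl_left, ← inner_dl_left, h]

/-- the isometry determined by an orthonormal family -/
noncomputable def isoOf {v : ι → E} (hv : Orthonormal ℂ v) : ell2 ι →ₗᵢ[ℂ] E :=
  hv.orthogonalFamily.linearIsometry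

theorem isoOf_dl {v : ι → E} (hv : Orthonormal ℂ v) (i : ι) : isoOf hv (dl i) = v i := by
  classical
  have e : (lp.single 2 i (1 : ℂ) : ell2 ι) = dl i := by
    unfold dl
    congr
  unfold isoOf
  rw [← e, hv.orthogonalFamily.linearIsometry_apply_single]
  simp

/-- the isometry determined by an orthonormal family, as a continuous linear map -/
noncomputable def opOf {v : ι → E} (hv : Orthonormal ℂ v) : ell2 ι →L[ℂ] E :=
  (isoOf hv).toContinuousLinearMap

theorem opOf_dl {v : ι → E} (hv : Orthonormal ℂ v) (i : ι) : opOf hv (dl i) = v i := isoOf_dl hv i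

theorem norm_opOf {v : ι → E} (hv : Orthonormal ℂ v) (f : ell2 ι) : ‖opOf hv f‖ = ‖f‖ :=
  (isoOf hv).norm_map f

theorem inner_opOf {v : ι → E} (hv : Orthonormal ℂ v) (f g : ell2 ι) :
    ⟪opOf hv f, opOf hv g⟫_ℂ = ⟪f, g⟫_ℂ :=
  (isoOf hv).inner_map_map f g

theorem adjoint_opOf_mul {v : ι → E} (hv : Orthonormal ℂ v) :
    (ContinuousLinearMap.adjoint (opOf hv)).comp (opOf hv) = ContinuousLinearMap.id ℂ _ := by
  ext1 f
  refine ext_inner_left ℂ fun g => ?_
  rw [ContinuousLinearMap.comp_apply, ContinuousLinearMap.adjoint_inner_right, inner_opOf]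
  rfl

/-- signed reindexing of the standard basis is orthonormal -/
theorem orthonormal_sign_dl {κ : Type*} (e : κ → ι) (he : Function.Injective e) (s : κ → ℤˣ) :
    Orthonormal ℂ (fun i => (((s i : ℤ) : ℂ)) • dl (e i)) := by
  classical
  rw [orthonormal_iff_ite]
  intro i j
  rw [inner_smul_left, inner_smul_right, inner_dl_dl]
  by_cases hij : i = j
  · subst hij
    rw [if_pos rfl, if_pos rfl]
    rcases Int.units_eq_one_or (s i) with h | h <;> rw [h] <;> simp
  · rw [if_neg hij, if_neg (fun h => hij (he h))]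
    simp

end

end Pool.Agent.HomRU
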