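import Pool.Agent.HomRU.Kaplansky

set_option autoImplicit false
set_option linter.unusedSectionVars false
set_option linter.style.haveILetI false

open scoped InnerProductSpace ComplexConjugate
open Filter Topology

namespace Pool.Agent.HomRU

section

variable {Γ : Type} [Group Γ]

section

variable {Q : Type*} [Ring Q] [StarRing Q] [Algebra ℂ Q] [StarModule ℂ Q] {t : TracialState Q}

theorem norm2_ext_delta {π : Γ →* Q} (hπ : IsUnitaryRep π) (ht : HasDeltaTrace t π)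
    (c : MonoidAlgebra ℂ Γ) : t.norm2 (ext π c) = (trivCocycle Γ).tr.norm2 (ext (lamHom Γ) c) := by
  classical
  have hortho : Orthonormal ℂ (fun g : Γ => t.toL2 (π g)) := by
    rw [orthonormal_iff_ite]
    intro g h
    rw [t.inner_toL2, hπ, ← map_mul]
    by_cases hgh : g = h
    · rw [if_pos hgh, hgh, inv_mul_cancel, map_one]
      exact ht.1
    · rw [if_neg hgh]
      apply ht.2
      rwa [Ne, inv_mul_eq_one]
  have h1 : t.norm2 (ext π c) ^ 2 = ∑ g ∈ c.coeff.support, ‖c.coeff g‖ ^ 2 := by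
    have h2 : t.toLin (star (ext π c) * ext π c) =
        ∑ g ∈ c.coeff.support, (conj (c.coeff g)) * c.coeff g := by
      rw [← t.inner_toL2, ext_eq_sum, map_sum]
      simp_rw [map_smul]
      exact hortho.inner_sum c.coeff c.coeff c.coeff.support
    rw [t.norm2_sq, h2, Complex.re_sum]
    refine Finset.sum_congr rfl fun g _ => ?_
    rw [mul_comm, Complex.mul_conj, Complex.ofReal_re, Complex.normSq_eq_norm_sq]
  rw [← norm2_ext_sq] at h1
  exact (pow_left_inj₀ (t.norm2_nonneg _) (TracialState.norm2_nonneg _ _) two_ne_zero).1 h1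

theorem toLin_ext_delta {π : Γ →* Q} (ht : HasDeltaTrace t π) (c : MonoidAlgebra ℂ Γ) :
    t.toLin (ext π c) = c.coeff 1 := by
  rw [ext_eq_sum, map_sum]
  simp_rw [map_smul, smul_eq_mul]
  rw [Finset.sum_eq_single 1]
  · rw [map_one π, ht.1, mul_one]
  · intro g _ hg
    rw [ht.2 g hg, mul_zero]
  · intro h
    rw [Finsupp.notMem_support_iff.1 h, zero_mul]

end

theorem toLin_ext_lam (c : MonoidAlgebra ℂ Γ) :
    (trivCocycle Γ).tr.toLin (ext (lamHom Γ) c) = c.coeff 1 := by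
  rw [SignCocycle.tr_apply, ev_ext]

section

variable {A : Type} [CStarAlgebra A] (τ : TracialState A) (𝒰 : Ultrafilter ℕ)
variable (ρ : ℕ → Γ →* A) (hρ : ∀ k, IsUnitaryRep (ρ k))

/-- values of a group algebra element along the sequence of representations -/
noncomputable def extSeq (s : ℕ → ℕ) (c : MonoidAlgebra ℂ Γ) : BddSeq A :=
  ⟨fun k => ext (ρ (s k)) c, _, fun _ => norm_ext_le (hρ _) c⟩

omit [Group Γ] in
theorem bddSeq_sum_val {ι : Type*} (F : Finset ι) (f : ι → BddSeq A) (k : ℕ) :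
    (∑ i ∈ F, f i).1 k = ∑ i ∈ F, (f i).1 k := by
  let E : BddSeq A →+ A :=
    { toFun := fun x => x.1 k
      map_zero' := rfl
      map_add' := fun x y => rfl }
  exact map_sum E f F

theorem ext_ultraRep (s : ℕ → ℕ) (c : MonoidAlgebra ℂ Γ) :
    ext (ultraRep τ 𝒰 ρ hρ s) c = Ultrapower.mk τ 𝒰 (extSeq ρ hρ s c) := by
  have e : extSeq ρ hρ s c = ∑ g ∈ c.coeff.support, c.coeff g • repSeq ρ hρ s g := by
    apply Subtype.ext
    funext k
    rw [bddSeq_sum_val]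
    show ext (ρ (s k)) c = _
    rw [ext_eq_sum]
    rfl
  rw [e, map_sum, ext_eq_sum]
  refine Finset.sum_congr rfl fun g _ => ?_
  rw [map_smul]
  rfl

/-- existence of the value of the extended homomorphism -/
theorem exists_value (htr : ∀ g, g ≠ 1 → Tendsto (fun k => τ.toLin (ρ k g)) atTop (𝓝 0))
    (s : ℕ → ℕ) (hs : Tendsto s 𝒰 atTop) (h𝒰 : (𝒰 : Filter ℕ) ≤ cofinite)
    (x : (trivCocycle Γ).Alg) : ∃ y : Ultrapower τ 𝒰, ∀ ε : ℝ, 0 < ε → ∃ c : MonoidAlgebra ℂ Γ,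
      (trivCocycle Γ).tr.norm2 (x - ext (lamHom Γ) c) < ε ∧
      (Ultrapower.trace τ 𝒰).norm2 (y - ext (ultraRep τ 𝒰 ρ hρ s) c) < ε := by
  classical
  obtain ⟨c, C, h1, h2⟩ := approx_all x
  have hid : Tendsto (fun k : ℕ => k) (𝒰 : Filter ℕ) atTop := by
    rw [← Nat.cofinite_eq_atTop]
    exact h𝒰
  set N : MonoidAlgebra ℂ Γ → ℝ := fun d => (trivCocycle Γ).tr.norm2 (ext (lamHom Γ) d) with hN
  set P : ℕ → ℕ → Prop := fun m k => ∀ i ∈ Finset.range (m + 1),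
    τ.norm2 (ext (ρ (s k)) (c m) - ext (ρ (s k)) (c i)) < N (c m - c i) + 1 / ((m : ℝ) + 1) with hP
  have hPmem : ∀ m, ∀ᶠ k in (𝒰 : Filter ℕ), P m k := by
    intro m
    rw [hP]
    simp only
    rw [Filter.eventually_all_finset]
    intro i _
    have h3 := Ultrapower.tendsto_norm2 τ 𝒰 (extSeq ρ hρ s (c m) - extSeq ρ hρ s (c i))
    rw [map_sub, ← ext_ultraRep, ← ext_ultraRep, ← map_sub,
      norm2_ext_delta (ultraRep_unitary τ 𝒰 ρ hρ s) (ultraRep_delta τ 𝒰 ρ hρ htr s hs)] at h3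
    have h4 : N (c m - c i) < N (c m - c i) + 1 / ((m : ℝ) + 1) := by
      have : 0 < 1 / ((m : ℝ) + 1) := by positivity
      linarith
    exact h3.eventually (gt_mem_nhds h4)
  set j : ℕ → ℕ := fun k => Nat.findGreatest (fun m => P m k) k with hj
  have hjt : Tendsto j 𝒰 atTop := by
    rw [tendsto_atTop]
    intro J
    filter_upwards [hPmem J, hid (eventually_ge_atTop J)] with k hk hkJ
    exact Nat.le_findGreatest hkJ hk
  let Y : BddSeq A := ⟨fun k => ext (ρ (s k)) (c (j k)), C, fun k => h2 _ _ _ _ (hρ _)⟩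
  refine ⟨Ultrapower.mk τ 𝒰 Y, ?_⟩
  have hmain : ∀ i, (Ultrapower.trace τ 𝒰).norm2 (Ultrapower.mk τ 𝒰 Y -
      ext (ultraRep τ 𝒰 ρ hρ s) (c i)) ≤ (trivCocycle Γ).tr.norm2 (x - ext (lamHom Γ) (c i)) := by
    intro i
    rw [ext_ultraRep, ← map_sub]
    have h3 := Ultrapower.tendsto_norm2 τ 𝒰 (Y - extSeq ρ hρ s (c i))
    have h4 : Tendsto (fun k => (trivCocycle Γ).tr.norm2 (x - ext (lamHom Γ) (c (j k))) +
        (trivCocycle Γ).tr.norm2 (x - ext (lamHom Γ) (c i)) + 1 / ((j k : ℝ) + 1)) 𝒰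
        (𝓝 (0 + (trivCocycle Γ).tr.norm2 (x - ext (lamHom Γ) (c i)) + 0)) :=
      ((h1.comp hjt).add tendsto_const_nhds).add
        (tendsto_one_div_add_atTop_nhds_zero_nat.comp hjt)
    rw [zero_add, add_zero] at h4
    refine le_of_tendsto_of_tendsto h3 h4 ?_
    filter_upwards [hjt (eventually_ge_atTop (max i 1))] with k hk
    have hk' : max i 1 ≤ j k := hk
    have h0 : j k ≠ 0 := by
      have := le_trans (le_max_right _ _) hk'
      omega
    have h5 : P (j k) k :=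
      Nat.findGreatest_of_ne_zero (P := fun m => P m k) (n := k) (m := j k) rfl h0
    have h6 := h5 i (Finset.mem_range.2 (by have := le_trans (le_max_left _ _) hk'; omega))
    refine h6.le.trans (add_le_add ?_ le_rfl)
    rw [hN]
    simp only
    rw [map_sub]
    have e : ext (lamHom Γ) (c (j k)) - ext (lamHom Γ) (c i) =
      (x - ext (lamHom Γ) (c i)) - (x - ext (lamHom Γ) (c (j k))) := by abel
    rw [e, add_comm]
    exact TracialState.norm2_sub_le _ _ _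
  intro ε hε
  obtain ⟨i, hi⟩ := (h1.eventually (gt_mem_nhds hε)).exists
  exact ⟨c i, hi, (hmain i).trans_lt hi⟩

/-- the graph of the extended homomorphism -/
def Gr (s : ℕ → ℕ) (x : (trivCocycle Γ).Alg) (y : Ultrapower τ 𝒰) : Prop :=
  ∀ ε : ℝ, 0 < ε → ∃ c : MonoidAlgebra ℂ Γ,
      (trivCocycle Γ).tr.norm2 (x - ext (lamHom Γ) c) < ε ∧
      (Ultrapower.trace τ 𝒰).norm2 (y - ext (ultraRep τ 𝒰 ρ hρ s) c) < ε

variable {τ 𝒰 ρ hρ} {s : ℕ → ℕ}

theorem Gr.unique (hd : HasDeltaTrace (Ultrapower.trace τ 𝒰) (ultraRep τ 𝒰 ρ hρ s))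
    {x : (trivCocycle Γ).Alg} {y y' : Ultrapower τ 𝒰}
    (h : Gr τ 𝒰 ρ hρ s x y) (h' : Gr τ 𝒰 ρ hρ s x y') : y = y' := by
  rw [← sub_eq_zero, ← Ultrapower.norm2_eq_zero_iff]
  apply le_antisymm _ (TracialState.norm2_nonneg _ _)
  refine le_of_forall_pos_le_add fun ε hε => ?_
  obtain ⟨c, h1, h2⟩ := h (ε / 4) (by positivity)
  obtain ⟨c', h3, h4⟩ := h' (ε / 4) (by positivity)
  have h5 : (Ultrapower.trace τ 𝒰).norm2 (ext (ultraRep τ 𝒰 ρ hρ s) c -
      ext (ultraRep τ 𝒰 ρ hρ s) c') ≤ ε / 4 + ε / 4 := by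
    rw [← map_sub, norm2_ext_delta (ultraRep_unitary τ 𝒰 ρ hρ s) hd, map_sub]
    have e : ext (lamHom Γ) c - ext (lamHom Γ) c' =
      (x - ext (lamHom Γ) c') - (x - ext (lamHom Γ) c) := by abel
    rw [e]
    exact (TracialState.norm2_sub_le _ _ _).trans (by linarith)
  have e : y - y' = ((y - ext (ultraRep τ 𝒰 ρ hρ s) c) + (ext (ultraRep τ 𝒰 ρ hρ s) c -
      ext (ultraRep τ 𝒰 ρ hρ s) c')) - (y' - ext (ultraRep τ 𝒰 ρ hρ s) c') := by abel
  rw [e, zero_add]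
  refine (TracialState.norm2_sub_le _ _ _).trans ?_
  have h6 := (Ultrapower.trace τ 𝒰).norm2_add_le (y - ext (ultraRep τ 𝒰 ρ hρ s) c)
    (ext (ultraRep τ 𝒰 ρ hρ s) c - ext (ultraRep τ 𝒰 ρ hρ s) c')
  linarith

theorem Gr.self (c : MonoidAlgebra ℂ Γ) :
    Gr τ 𝒰 ρ hρ s (ext (lamHom Γ) c) (ext (ultraRep τ 𝒰 ρ hρ s) c) := by
  intro ε hε
  refine ⟨c, ?_, ?_⟩ <;> rwa [sub_self, TracialState.norm2_zero]

theorem Gr.add {x x' : (trivCocycle Γ).Alg} {y y' : Ultrapower τ 𝒰}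
    (h : Gr τ 𝒰 ρ hρ s x y) (h' : Gr τ 𝒰 ρ hρ s x' y') : Gr τ 𝒰 ρ hρ s (x + x') (y + y') := by
  intro ε hε
  obtain ⟨c, h1, h2⟩ := h (ε / 2) (by positivity)
  obtain ⟨c', h3, h4⟩ := h' (ε / 2) (by positivity)
  refine ⟨c + c', ?_, ?_⟩
  · rw [map_add, add_sub_add_comm]
    exact (TracialState.norm2_add_le _ _ _).trans_lt (by linarith)
  · rw [map_add, add_sub_add_comm]
    exact (TracialState.norm2_add_le _ _ _).trans_lt (by linarith)

theorem Gr.smul {x : (trivCocycle Γ).Alg} {y : Ultrapower τ 𝒰} (r : ℂ)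
    (h : Gr τ 𝒰 ρ hρ s x y) : Gr τ 𝒰 ρ hρ s (r • x) (r • y) := by
  intro ε hε
  obtain ⟨c, h1, h2⟩ := h (ε / (‖r‖ + 1)) (by positivity)
  have h0 : 0 < ‖r‖ + 1 := by positivity
  have key : ∀ a : ℝ, 0 ≤ a → a < ε / (‖r‖ + 1) → ‖r‖ * a < ε := by
    intro a ha h3
    rw [lt_div_iff₀ h0] at h3
    nlinarith
  refine ⟨r • c, ?_, ?_⟩
  · rw [map_smul, ← smul_sub, TracialState.norm2_smul]
    exact key _ (TracialState.norm2_nonneg _ _) h1
  · rw [map_smul, ← smul_sub, TracialState.norm2_smul]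
    exact key _ (TracialState.norm2_nonneg _ _) h2

theorem Gr.star {x : (trivCocycle Γ).Alg} {y : Ultrapower τ 𝒰}
    (h : Gr τ 𝒰 ρ hρ s x y) : Gr τ 𝒰 ρ hρ s (star x) (star y) := by
  intro ε hε
  obtain ⟨c, h1, h2⟩ := h ε hε
  refine ⟨starC c, ?_, ?_⟩
  · rwa [ext_starC lamHom_unitary, ← star_sub, TracialState.norm2_star]
  · rwa [ext_starC (ultraRep_unitary τ 𝒰 ρ hρ s), ← star_sub, TracialState.norm2_star]

theorem Gr.mul {x x' : (trivCocycle Γ).Alg} {y y' : Ultrapower τ 𝒰}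
    (h : Gr τ 𝒰 ρ hρ s x y) (h' : Gr τ 𝒰 ρ hρ s x' y') : Gr τ 𝒰 ρ hρ s (x * x') (y * y') := by
  intro ε hε
  obtain ⟨Cy, hCy, hy⟩ := Ultrapower.exists_mul_bound τ 𝒰 y
  have hx0 : 0 < ‖x‖ + 1 := by positivity
  obtain ⟨c', h3, h4⟩ := h' (ε / (2 * ((‖x‖ + 1) + Cy))) (by positivity)
  obtain ⟨Cd, hCd, hd⟩ := Ultrapower.exists_mul_bound τ 𝒰 (ext (ultraRep τ 𝒰 ρ hρ s) c')
  set D := ‖ext (lamHom Γ) c'‖ + 1 with hD
  have hD0 : 0 < D := by positivity
  obtain ⟨c, h1, h2⟩ := h (ε / (2 * (D + Cd))) (by positivity)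
  rw [lt_div_iff₀ (by positivity)] at h1 h2 h3 h4
  refine ⟨c * c', ?_, ?_⟩
  · rw [map_mul]
    have e : x * x' - ext (lamHom Γ) c * ext (lamHom Γ) c' =
      x * (x' - ext (lamHom Γ) c') + (x - ext (lamHom Γ) c) * ext (lamHom Γ) c' := by noncomm_ring
    rw [e]
    refine (TracialState.norm2_add_le _ _ _).trans_lt ?_
    have b1 := (trivCocycle Γ).tr.norm2_mul_le_left x (x' - ext (lamHom Γ) c')
    have b2 := (trivCocycle Γ).tr.norm2_mul_le_right (x - ext (lamHom Γ) c) (ext (lamHom Γ) c')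
    have n1 := (trivCocycle Γ).tr.norm2_nonneg (x' - ext (lamHom Γ) c')
    have n2 := (trivCocycle Γ).tr.norm2_nonneg (x - ext (lamHom Γ) c)
    nlinarith
  · rw [map_mul]
    have e : y * y' - ext (ultraRep τ 𝒰 ρ hρ s) c * ext (ultraRep τ 𝒰 ρ hρ s) c' =
      y * (y' - ext (ultraRep τ 𝒰 ρ hρ s) c') +
        (y - ext (ultraRep τ 𝒰 ρ hρ s) c) * ext (ultraRep τ 𝒰 ρ hρ s) c' := by noncomm_ring
    rw [e]
    refine (TracialState.norm2_add_le _ _ _).trans_lt ?_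
    have b1 := (hy (y' - ext (ultraRep τ 𝒰 ρ hρ s) c')).1
    have b2 := (hd (y - ext (ultraRep τ 𝒰 ρ hρ s) c)).2
    have n1 := (Ultrapower.trace τ 𝒰).norm2_nonneg (y' - ext (ultraRep τ 𝒰 ρ hρ s) c')
    have n2 := (Ultrapower.trace τ 𝒰).norm2_nonneg (y - ext (ultraRep τ 𝒰 ρ hρ s) c)
    nlinarith

/-- Extension of the ultraproduct representation to the group von Neumann algebra. -/
theorem exists_hom (τ : TracialState A) (𝒰 : Ultrafilter ℕ) (ρ : ℕ → Γ →* A)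
    (hρ : ∀ k, IsUnitaryRep (ρ k))
    (htr : ∀ g, g ≠ 1 → Tendsto (fun k => τ.toLin (ρ k g)) atTop (𝓝 0))
    (s : ℕ → ℕ) (hs : Tendsto s 𝒰 atTop) (h𝒰 : (𝒰 : Filter ℕ) ≤ cofinite) :
    ∃ Φ : UHom τ 𝒰 (trivCocycle Γ).Alg, (∀ g, Φ (lamHom Γ g) = ultraRep τ 𝒰 ρ hρ s g) ∧
      ∀ x, (Ultrapower.trace τ 𝒰).toLin (Φ x) = (trivCocycle Γ).tr.toLin x := by
  have hd := ultraRep_delta τ 𝒰 ρ hρ htr s hs
  choose f hf using exists_value τ 𝒰 ρ hρ htr s hs h𝒰
  have hG : ∀ x, Gr τ 𝒰 ρ hρ s x (f x) := hf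
  have hval : ∀ c : MonoidAlgebra ℂ Γ, f (ext (lamHom Γ) c) = ext (ultraRep τ 𝒰 ρ hρ s) c :=
    fun c => (hG _).unique hd (Gr.self c)
  have hone : f 1 = 1 := by
    have := hval 1
    rwa [map_one, map_one] at this
  refine ⟨{ toFun := f
            map_one' := hone
            map_mul' := fun x y => (hG _).unique hd ((hG x).mul (hG y))
            map_zero' := by
              have := hval 0
              rwa [map_zero, map_zero] at this
            map_add' := fun x y => (hG _).unique hd ((hG x).add (hG y))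
            commutes' := fun r => by
              rw [Algebra.algebraMap_eq_smul_one, Algebra.algebraMap_eq_smul_one]
              have h1 := (hG (r • 1)).unique hd ((hG 1).smul r)
              rw [h1, hone]
            map_star' := fun x => (hG _).unique hd (hG x).star }, ?_, ?_⟩
  · intro g
    have := hval (MonoidAlgebra.single g 1)
    rw [ext_single, ext_single, one_smul, one_smul] at this
    exact this
  · intro x
    show (Ultrapower.trace τ 𝒰).toLin (f x) = _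
    rw [← sub_eq_zero, ← norm_eq_zero]
    apply le_antisymm _ (norm_nonneg _)
    refine le_of_forall_pos_le_add fun ε hε => ?_
    obtain ⟨c, h1, h2⟩ := hG x (ε / 2) (by positivity)
    have e : (Ultrapower.trace τ 𝒰).toLin (f x) - (trivCocycle Γ).tr.toLin x =
        (Ultrapower.trace τ 𝒰).toLin (f x - ext (ultraRep τ 𝒰 ρ hρ s) c) -
        (trivCocycle Γ).tr.toLin (x - ext (lamHom Γ) c) := by
      rw [map_sub, map_sub, toLin_ext_delta hd, toLin_ext_lam]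
      ring
    rw [e, zero_add]
    have b1 := (Ultrapower.trace τ 𝒰).norm_toLin_le (f x - ext (ultraRep τ 𝒰 ρ hρ s) c)
    have b2 := (trivCocycle Γ).tr.norm_toLin_le (x - ext (lamHom Γ) c)
    exact (norm_sub_le _ _).trans (by linarith)

end

end

end Pool.Agent.HomRU
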