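import Pool.Agent.HomRU.PermRep

set_option autoImplicit false
set_option linter.unusedSectionVars false
set_option linter.style.haveILetI false

open Filter Topology
open scoped MatrixGroups

namespace Pool.Agent.HomRU

/-- The action of `SL₂(R)` on column vectors. -/
def actHom (R : Type*) [CommRing R] : SL(2, R) →* Equiv.Perm (Fin 2 → R) where
  toFun g :=
    { toFun := fun v => Matrix.mulVec (g : Matrix (Fin 2) (Fin 2) R) v
      invFun := fun v => Matrix.mulVec ((g⁻¹ : SL(2, R)) : Matrix (Fin 2) (Fin 2) R) v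
      left_inv := fun v => by
        show Matrix.mulVec ((g⁻¹ : SL(2, R)) : Matrix (Fin 2) (Fin 2) R)
          (Matrix.mulVec (g : Matrix (Fin 2) (Fin 2) R) v) = v
        rw [Matrix.mulVec_mulVec, ← Matrix.SpecialLinearGroup.coe_mul, inv_mul_cancel,
          Matrix.SpecialLinearGroup.coe_one, Matrix.one_mulVec]
      right_inv := fun v => by
        show Matrix.mulVec (g : Matrix (Fin 2) (Fin 2) R)
          (Matrix.mulVec ((g⁻¹ : SL(2, R)) : Matrix (Fin 2) (Fin 2) R) v) = v
        rw [Matrix.mulVec_mulVec, ← Matrix.SpecialLinearGroup.coe_mul, mul_inv_cancel,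
          Matrix.SpecialLinearGroup.coe_one, Matrix.one_mulVec] }
  map_one' := by
    ext1 v
    show Matrix.mulVec ((1 : SL(2, R)) : Matrix (Fin 2) (Fin 2) R) v = v
    rw [Matrix.SpecialLinearGroup.coe_one, Matrix.one_mulVec]
  map_mul' g h := by
    ext1 v
    show Matrix.mulVec (g * h).1 v = Matrix.mulVec g.1 (Matrix.mulVec h.1 v)
    rw [Matrix.mulVec_mulVec, ← Matrix.SpecialLinearGroup.coe_mul]

theorem actHom_apply {R : Type*} [CommRing R] (g : SL(2, R)) (v : Fin 2 → R) :
    actHom R g v = Matrix.mulVec g.1 v := rfl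

/-- The diagonal action on tuples. -/
def diagHom (Y : Type*) (k : ℕ) : Equiv.Perm Y →* Equiv.Perm (Fin k → Y) where
  toFun σ := Equiv.arrowCongr (Equiv.refl _) σ
  map_one' := rfl
  map_mul' _ _ := rfl

theorem diagHom_apply {Y : Type*} (k : ℕ) (σ : Equiv.Perm Y) (f : Fin k → Y) (i : Fin k) :
    diagHom Y k σ f i = σ (f i) := rfl

theorem card_fix_le {R : Type*} [CommRing R] [Fintype R] [DecidableEq R] (g : SL(2, R))
    (hg : g ≠ 1) :
    2 * (Finset.univ.filter (fun v => actHom R g v = v)).card ≤ Fintype.card (Fin 2 → R) := by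
  classical
  let H : AddSubgroup (Fin 2 → R) :=
    { carrier := {v | actHom R g v = v}
      add_mem' := by
        intro v w hv hw
        show actHom R g (v + w) = v + w
        have hv' : actHom R g v = v := hv
        have hw' : actHom R g w = w := hw
        rw [actHom_apply] at *
        rw [Matrix.mulVec_add, hv', hw']
      zero_mem' := by
        show actHom R g 0 = 0
        rw [actHom_apply, Matrix.mulVec_zero]
      neg_mem' := by
        intro v hv
        show actHom R g (-v) = -v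
        have hv' : actHom R g v = v := hv
        rw [actHom_apply] at *
        rw [Matrix.mulVec_neg, hv'] }
  have hH : H ≠ ⊤ := by
    intro h
    apply hg
    apply Subtype.ext
    show g.1 = (1 : Matrix (Fin 2) (Fin 2) R)
    apply Matrix.ext_of_mulVec_single
    intro i
    have h1 : Pi.single i 1 ∈ H := by rw [h]; trivial
    have h2 : Matrix.mulVec g.1 (Pi.single i 1) = Pi.single i 1 := h1
    rw [h2, Matrix.one_mulVec]
  have hidx : H.index ≠ 1 := by
    intro h
    exact hH (AddSubgroup.index_eq_one.1 h)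
  have hidx0 : H.index ≠ 0 := AddSubgroup.index_ne_zero_of_finite
  have hcard := H.card_mul_index
  have h1 : Nat.card H = (Finset.univ.filter (fun v => actHom R g v = v)).card := by
    rw [Nat.card_eq_fintype_card, Fintype.card_subtype]
    congr 1
    ext v
    rw [Finset.mem_filter, Finset.mem_filter]
    rfl
  rw [← h1, ← Nat.card_eq_fintype_card, ← hcard, mul_comm]
  exact Nat.mul_le_mul_left _ (by omega)

theorem card_fix_diag {Y : Type*} [Fintype Y] [DecidableEq Y] (k : ℕ) (σ : Equiv.Perm Y) :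
    (Finset.univ.filter (fun f => diagHom Y k σ f = f)).card =
      (Finset.univ.filter (fun y => σ y = y)).card ^ k := by
  have h : (Finset.univ.filter (fun f => diagHom Y k σ f = f)) =
      Fintype.piFinset (fun _ : Fin k => Finset.univ.filter (fun y => σ y = y)) := by
    ext f
    rw [Fintype.mem_piFinset, Finset.mem_filter]
    simp only [Finset.mem_univ, true_and, Finset.mem_filter]
    rw [funext_iff]
    rfl
  rw [h, Fintype.card_piFinset, Finset.prod_const, Finset.card_univ, Fintype.card_fin]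

/-- the finite permutation representation at level `k` -/
def permHom (k : ℕ) : SL(2, ℤ) →* Equiv.Perm (Fin k → Fin 2 → ZMod (2 ^ k)) :=
  (diagHom _ k).comp ((actHom (ZMod (2 ^ k))).comp
    (Matrix.SpecialLinearGroup.map (Int.castRingHom (ZMod (2 ^ k)))))

theorem card_level (k : ℕ) : Fintype.card (Fin k → Fin 2 → ZMod (2 ^ k)) = 2 ^ (k * 2 * k) := by
  rw [Fintype.card_fun, Fintype.card_fun, ZMod.card, Fintype.card_fin, Fintype.card_fin,
    ← pow_mul, ← pow_mul, mul_assoc]

theorem eventually_ne_one (g : SL(2, ℤ)) (hg : g ≠ 1) :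
    ∀ᶠ k : ℕ in atTop, Matrix.SpecialLinearGroup.map (Int.castRingHom (ZMod (2 ^ k))) g ≠ 1 := by
  have h1 : ∃ i j, g.1 i j - (1 : Matrix (Fin 2) (Fin 2) ℤ) i j ≠ 0 := by
    by_contra h
    push Not at h
    apply hg
    apply Subtype.ext
    ext i j
    exact sub_eq_zero.1 (h i j)
  obtain ⟨i, j, hij⟩ := h1
  filter_upwards [eventually_ge_atTop (g.1 i j - (1 : Matrix (Fin 2) (Fin 2) ℤ) i j).natAbs] with k hk h
  have h2 := congrArg (fun m : SL(2, ZMod (2 ^ k)) => m.1 i j) h
  have h3 : ((g.1 i j : ℤ) : ZMod (2 ^ k)) = (1 : Matrix (Fin 2) (Fin 2) (ZMod (2 ^ k))) i j := h2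
  have h4 : (1 : Matrix (Fin 2) (Fin 2) (ZMod (2 ^ k))) i j =
      (((1 : Matrix (Fin 2) (Fin 2) ℤ) i j : ℤ) : ZMod (2 ^ k)) := by
    rw [Matrix.one_apply, Matrix.one_apply]
    split_ifs <;> simp
  rw [h4, ← sub_eq_zero, ← Int.cast_sub, ZMod.intCast_zmod_eq_zero_iff_dvd] at h3
  have h5 := Int.natAbs_dvd_natAbs.2 h3
  have h6 := Nat.le_of_dvd (Int.natAbs_pos.2 hij) h5
  have h7 : ((2 ^ k : ℕ) : ℤ).natAbs = 2 ^ k := Int.natAbs_natCast _
  rw [h7] at h6
  have h8 : k < 2 ^ k := Nat.lt_two_pow_self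
  omega

theorem ratio_le (k : ℕ) (g : SL(2, ℤ))
    (hg : Matrix.SpecialLinearGroup.map (Int.castRingHom (ZMod (2 ^ k))) g ≠ 1) :
    ((Finset.univ.filter (fun v => permHom k g v = v)).card : ℝ) /
      Fintype.card (Fin k → Fin 2 → ZMod (2 ^ k)) ≤ (1 / 2) ^ k := by
  have h1 := card_fix_diag k (actHom (ZMod (2 ^ k))
    (Matrix.SpecialLinearGroup.map (Int.castRingHom (ZMod (2 ^ k))) g))
  have h2 := card_fix_le _ hg
  have h3 : (Finset.univ.filter (fun v => permHom k g v = v)).card =
    (Finset.univ.filter (fun y => actHom (ZMod (2 ^ k))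
    (Matrix.SpecialLinearGroup.map (Int.castRingHom (ZMod (2 ^ k))) g) y = y)).card ^ k := h1
  rw [h3, Fintype.card_fun, Fintype.card_fin]
  push_cast
  rw [← div_pow]
  apply pow_le_pow_left₀ (by positivity)
  have h4 : (0 : ℝ) < Fintype.card (Fin 2 → ZMod (2 ^ k)) := by
    exact_mod_cast Fintype.card_pos
  rw [div_le_div_iff₀ h4 two_pos, one_mul, mul_comm]
  exact_mod_cast h2

section

variable {A : Type*} [CStarAlgebra A] {τ : TracialState A}

/-- permutation unitaries with vanishing trace in the limit -/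
theorem tendsto_tr_perm (U : ∀ k, MatUnits τ (Fin k → Fin 2 → ZMod (2 ^ k))) (g : SL(2, ℤ))
    (hg : g ≠ 1) : Tendsto (fun k => τ.toLin ((U k).perm (permHom k g))) atTop (𝓝 0) := by
  rw [tendsto_zero_iff_norm_tendsto_zero]
  have h1 : Tendsto (fun k : ℕ => (1 / 2 : ℝ) ^ k) atTop (𝓝 0) :=
    tendsto_pow_atTop_nhds_zero_of_lt_one (by norm_num) (by norm_num)
  refine squeeze_zero' (Eventually.of_forall fun k => norm_nonneg _) ?_ h1
  filter_upwards [eventually_ne_one g hg] with k hk
  rw [MatUnits.tr_perm, norm_div, Complex.norm_natCast, Complex.norm_natCast]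
  exact ratio_le k g hk

end

end Pool.Agent.HomRU
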