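import Pool.Agent.HomRU.Gap

set_option autoImplicit false
set_option linter.unusedSectionVars false
set_option linter.style.haveILetI false

open scoped InnerProductSpace MatrixGroups
open Filter Topology

namespace Pool.Agent.HomRU

/-- the principal congruence subgroup of level three -/
abbrev G3 : Subgroup SL(2, ℤ) := CongruenceSubgroup.Gamma 3

/-- powers of the upper generator -/
def upper (n : ℤ) : SL(2, ℤ) := ⟨!![1, 3 * n; 0, 1], by simp [Matrix.det_fin_two]⟩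

/-- powers of the lower generator -/
def lower (n : ℤ) : SL(2, ℤ) := ⟨!![1, 0; 3 * n, 1], by simp [Matrix.det_fin_two]⟩

theorem three_zmod : (3 : ZMod 3) = 0 := by decide

theorem upper_mem (n : ℤ) : upper n ∈ G3 := by
  rw [CongruenceSubgroup.Gamma_mem]
  refine ⟨?_, ?_, ?_, ?_⟩ <;> simp [upper, three_zmod]

theorem lower_mem (n : ℤ) : lower n ∈ G3 := by
  rw [CongruenceSubgroup.Gamma_mem]
  refine ⟨?_, ?_, ?_, ?_⟩ <;> simp [lower, three_zmod]

/-- the upper generator -/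
def T3 : G3 := ⟨upper 1, upper_mem 1⟩

/-- the lower generator -/
def S3 : G3 := ⟨lower 1, lower_mem 1⟩

theorem T3_mul (g : G3) : (T3 * g).1.1 0 0 = g.1.1 0 0 + 3 * g.1.1 1 0 ∧
    (T3 * g).1.1 1 0 = g.1.1 1 0 := by
  constructor
  · show ((upper 1 * g.1 : SL(2, ℤ)) : Matrix (Fin 2) (Fin 2) ℤ) 0 0 = _
    rw [Matrix.SpecialLinearGroup.coe_mul, Matrix.mul_apply, Fin.sum_univ_two]
    simp [upper]
  · show ((upper 1 * g.1 : SL(2, ℤ)) : Matrix (Fin 2) (Fin 2) ℤ) 1 0 = _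
    rw [Matrix.SpecialLinearGroup.coe_mul, Matrix.mul_apply, Fin.sum_univ_two]
    simp [upper]

theorem S3_mul (g : G3) : (S3 * g).1.1 0 0 = g.1.1 0 0 ∧
    (S3 * g).1.1 1 0 = 3 * g.1.1 0 0 + g.1.1 1 0 := by
  constructor
  · show ((lower 1 * g.1 : SL(2, ℤ)) : Matrix (Fin 2) (Fin 2) ℤ) 0 0 = _
    rw [Matrix.SpecialLinearGroup.coe_mul, Matrix.mul_apply, Fin.sum_univ_two]
    simp [lower]
  · show ((lower 1 * g.1 : SL(2, ℤ)) : Matrix (Fin 2) (Fin 2) ℤ) 1 0 = _
    rw [Matrix.SpecialLinearGroup.coe_mul, Matrix.mul_apply, Fin.sum_univ_two]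
    simp [lower]

theorem col_ne (g : G3) : g.1.1 0 0 ≠ 0 ∨ g.1.1 1 0 ≠ 0 := by
  by_contra h
  push Not at h
  have hdet := g.1.2
  rw [Matrix.det_fin_two, h.1, h.2] at hdet
  simp at hdet

/-- first ping-pong set -/
def setE : Set G3 := {g | |g.1.1 0 0| ≤ |g.1.1 1 0|}
/-- second ping-pong set -/
def setF : Set G3 := {g | |g.1.1 1 0| ≤ |g.1.1 0 0|}

theorem setEF (g : G3) : g ∈ setE ∨ g ∈ setF := le_total |g.1.1 0 0| |g.1.1 1 0|

theorem arith1 {x y : ℤ} (h : |x| ≤ |y|) (hne : x ≠ 0 ∨ y ≠ 0) : |y| < |x + 3 * y| ∧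
    |y| < |x + 3 * y + 3 * y| := by
  have hy : 0 < |y| := by
    rcases hne with h1 | h1
    · exact lt_of_lt_of_le (abs_pos.2 h1) h
    · exact abs_pos.2 h1
  have e1 : |3 * y| ≤ |x + 3 * y| + |x| := by
    have : 3 * y = (x + 3 * y) - x := by ring
    conv_lhs => rw [this]
    exact abs_sub _ _
  have e2 : |6 * y| ≤ |x + 3 * y + 3 * y| + |x| := by
    have : 6 * y = (x + 3 * y + 3 * y) - x := by ring
    conv_lhs => rw [this]
    exact abs_sub _ _
  rw [abs_mul] at e1 e2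
  norm_num at e1 e2
  constructor <;> linarith

theorem setE_one (g : G3) (hg : g ∈ setE) : T3 * g ∉ setE := by
  intro h
  have h1 : |g.1.1 0 0| ≤ |g.1.1 1 0| := hg
  have h2 : |(T3 * g).1.1 0 0| ≤ |(T3 * g).1.1 1 0| := h
  rw [(T3_mul g).1, (T3_mul g).2] at h2
  have := (arith1 h1 (col_ne g)).1
  linarith

theorem setE_two (g : G3) (hg : g ∈ setE) : T3 * (T3 * g) ∉ setE := by
  intro h
  have h1 : |g.1.1 0 0| ≤ |g.1.1 1 0| := hg
  have h2 : |(T3 * (T3 * g)).1.1 0 0| ≤ |(T3 * (T3 * g)).1.1 1 0| := h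
  rw [(T3_mul (T3 * g)).1, (T3_mul (T3 * g)).2, (T3_mul g).1, (T3_mul g).2] at h2
  have := (arith1 h1 (col_ne g)).2
  linarith

theorem setF_one (g : G3) (hg : g ∈ setF) : S3 * g ∉ setF := by
  intro h
  have h1 : |g.1.1 1 0| ≤ |g.1.1 0 0| := hg
  have h2 : |(S3 * g).1.1 1 0| ≤ |(S3 * g).1.1 0 0| := h
  rw [(S3_mul g).1, (S3_mul g).2, add_comm] at h2
  have := (arith1 h1 (col_ne g).symm).1
  linarith

theorem setF_two (g : G3) (hg : g ∈ setF) : S3 * (S3 * g) ∉ setF := by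
  intro h
  have h1 : |g.1.1 1 0| ≤ |g.1.1 0 0| := hg
  have h2 : |(S3 * (S3 * g)).1.1 1 0| ≤ |(S3 * (S3 * g)).1.1 0 0| := h
  rw [(S3_mul (S3 * g)).1, (S3_mul (S3 * g)).2, (S3_mul g).1, (S3_mul g).2] at h2
  have := (arith1 h1 (col_ne g).symm).2
  have e : 3 * g.1.1 0 0 + (3 * g.1.1 0 0 + g.1.1 1 0) =
    g.1.1 1 0 + 3 * g.1.1 0 0 + 3 * g.1.1 0 0 := by ring
  rw [e] at h2
  linarith

/-- the spectral gap of the left regular representation -/
theorem gap3 (ξ : ell2 G3) :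
    ‖ξ + (trivCocycle G3).lam T3 ξ + (trivCocycle G3).lam S3 ξ‖ ^ 2 ≤ (224 / 25) * ‖ξ‖ ^ 2 :=
  gap_op T3 S3 (ping_pong_gap T3 S3 setE setF setEF setE_one setE_two setF_one setF_two) ξ

/-! infinite conjugacy classes -/

theorem conj_upper (g : SL(2, ℤ)) (n : ℤ) :
    (upper n * g * (upper n)⁻¹ : SL(2, ℤ)).1 0 0 = g.1 0 0 + 3 * n * g.1 1 0 := by
  show ((upper n * g * (upper n)⁻¹ : SL(2, ℤ)) : Matrix (Fin 2) (Fin 2) ℤ) 0 0 = _
  rw [Matrix.SpecialLinearGroup.coe_mul, Matrix.SpecialLinearGroup.coe_mul,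
    Matrix.SpecialLinearGroup.coe_inv, Matrix.mul_apply, Fin.sum_univ_two, Matrix.mul_apply,
    Fin.sum_univ_two, Matrix.mul_apply, Fin.sum_univ_two, Matrix.adjugate_fin_two]
  simp [upper]

theorem conj_lower (g : SL(2, ℤ)) (n : ℤ) :
    (lower n * g * (lower n)⁻¹ : SL(2, ℤ)).1 0 0 = g.1 0 0 - 3 * n * g.1 0 1 := by
  show ((lower n * g * (lower n)⁻¹ : SL(2, ℤ)) : Matrix (Fin 2) (Fin 2) ℤ) 0 0 = _
  rw [Matrix.SpecialLinearGroup.coe_mul, Matrix.SpecialLinearGroup.coe_mul,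
    Matrix.SpecialLinearGroup.coe_inv, Matrix.mul_apply, Fin.sum_univ_two, Matrix.mul_apply,
    Fin.sum_univ_two, Matrix.mul_apply, Fin.sum_univ_two, Matrix.adjugate_fin_two]
  simp [lower]
  ring

theorem offdiag_ne (g : G3) (hg : g ≠ 1) : g.1.1 1 0 ≠ 0 ∨ g.1.1 0 1 ≠ 0 := by
  by_contra h
  push Not at h
  have hdet := g.1.2
  rw [Matrix.det_fin_two, h.1, h.2, mul_zero, sub_zero] at hdet
  have hmem := CongruenceSubgroup.Gamma_mem.1 g.2
  have h00 : g.1.1 0 0 = 1 := by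
    rcases Int.eq_one_or_neg_one_of_mul_eq_one hdet with h1 | h1
    · exact h1
    · exfalso
      have h2 : ((g.1.1 0 0 : ℤ) : ZMod 3) = 1 := hmem.1
      rw [h1] at h2
      exact absurd h2 (by decide)
  rw [h00, one_mul] at hdet
  apply hg
  apply Subtype.ext
  apply Subtype.ext
  ext i j
  show g.1.1 i j = (1 : Matrix (Fin 2) (Fin 2) ℤ) i j
  fin_cases i <;> fin_cases j
  · exact h00
  · exact h.2
  · exact h.1
  · exact hdet

theorem icc3 (g : G3) (hg : g ≠ 1) : Set.Infinite {k : G3 | ∃ h, k = h * g * h⁻¹} := by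
  rcases offdiag_ne g hg with h | h
  · refine Set.infinite_of_injective_forall_mem
      (f := fun n : ℤ => (⟨upper n, upper_mem n⟩ : G3) * g * (⟨upper n, upper_mem n⟩ : G3)⁻¹)
      ?_ (fun n => ⟨_, rfl⟩)
    intro m n hmn
    have h1 : (upper m * g.1 * (upper m)⁻¹ : SL(2, ℤ)) = upper n * g.1 * (upper n)⁻¹ :=
      congrArg Subtype.val hmn
    have h2 := congrArg (fun x : SL(2, ℤ) => x.1 0 0) h1
    have h3 : (upper m * g.1 * (upper m)⁻¹ : SL(2, ℤ)).1 0 0 =
      (upper n * g.1 * (upper n)⁻¹ : SL(2, ℤ)).1 0 0 := h2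
    rw [conj_upper, conj_upper, add_left_cancel_iff] at h3
    have h4 := mul_right_cancel₀ h h3
    linarith
  · refine Set.infinite_of_injective_forall_mem
      (f := fun n : ℤ => (⟨lower n, lower_mem n⟩ : G3) * g * (⟨lower n, lower_mem n⟩ : G3)⁻¹)
      ?_ (fun n => ⟨_, rfl⟩)
    intro m n hmn
    have h1 : (lower m * g.1 * (lower m)⁻¹ : SL(2, ℤ)) = lower n * g.1 * (lower n)⁻¹ :=
      congrArg Subtype.val hmn
    have h2 := congrArg (fun x : SL(2, ℤ) => x.1 0 0) h1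
    have h3 : (lower m * g.1 * (lower m)⁻¹ : SL(2, ℤ)).1 0 0 =
      (lower n * g.1 * (lower n)⁻¹ : SL(2, ℤ)).1 0 0 := h2
    rw [conj_lower, conj_lower, sub_right_inj] at h3
    have h4 := mul_right_cancel₀ h h3
    linarith

instance : Infinite G3 := by
  refine Infinite.of_injective (fun n : ℤ => (⟨upper n, upper_mem n⟩ : G3)) ?_
  intro m n h
  have h1 : upper m = upper n := congrArg Subtype.val h
  have h2 : (upper m).1 0 1 = (upper n).1 0 1 := by rw [h1]
  have h3 : 3 * m = 3 * n := h2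
  linarith

instance : Countable G3 := by
  have h : Countable (Matrix (Fin 2) (Fin 2) ℤ) := inferInstanceAs (Countable (Fin 2 → Fin 2 → ℤ))
  have h2 : Countable SL(2, ℤ) := inferInstanceAs
    (Countable {A : Matrix (Fin 2) (Fin 2) ℤ // A.det = 1})
  infer_instance

/-- the group von Neumann algebra is a factor of type II₁ -/
theorem isIIOneFactor_G3 : IsIIOneFactor (trivCocycle G3).vN :=
  (trivCocycle G3).isIIOneFactor fun g hg => Or.inr (icc3 g hg)

theorem separable_ell2 (ι : Type*) [Countable ι] : TopologicalSpace.SeparableSpace (ell2 ι) := by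
  have h1 : TopologicalSpace.IsSeparable (Submodule.span ℂ (Set.range (dl : ι → ell2 ι)) :
      Set (ell2 ι)) := (Set.countable_range _).isSeparable.span
  have h2 : closure (Submodule.span ℂ (Set.range (dl : ι → ell2 ι)) : Set (ell2 ι)) = Set.univ := by
    rw [Set.eq_univ_iff_forall]
    intro f
    have hs := hasSum_dl f
    refine mem_closure_of_tendsto hs (Eventually.of_forall fun F => ?_)
    refine Submodule.sum_mem _ fun i _ => ?_
    exact Submodule.smul_mem _ _ (Submodule.subset_span ⟨i, rfl⟩)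
  have h3 := h1.closure
  rw [h2] at h3
  exact TopologicalSpace.isSeparable_univ_iff.1 h3

instance : TopologicalSpace.SeparableSpace (ell2 G3) := separable_ell2 _

end Pool.Agent.HomRU
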