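import Pool.Agent.HomRU.Midpoint

set_option autoImplicit false
set_option linter.unusedSectionVars false
set_option linter.style.haveILetI false

open Filter Topology

namespace Pool.Agent.HomRU

section

variable {A : Type*} [CStarAlgebra A] {τ : TracialState A} (𝒰 : Ultrafilter ℕ)
variable {M : Type*} [CStarAlgebra M]

theorem summable_weights : Summable fun n : ℕ => (1 / 2 : ℝ) ^ (2 * (n + 1)) := by
  have h : ∀ n : ℕ, (1 / 2 : ℝ) ^ (2 * (n + 1)) = (1 / 4) * (1 / 4 : ℝ) ^ n := by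
    intro n
    rw [pow_mul, pow_succ]
    norm_num
    ring
  simp_rw [h]
  exact (summable_geometric_of_lt_one (by norm_num) (by norm_num)).mul_left _

theorem tsum_weights_le : ∑' n : ℕ, (1 / 2 : ℝ) ^ (2 * (n + 1)) ≤ 1 := by
  have h : ∀ n : ℕ, (1 / 2 : ℝ) ^ (2 * (n + 1)) = (1 / 4) * (1 / 4 : ℝ) ^ n := by
    intro n
    rw [pow_mul, pow_succ]
    norm_num
    ring
  simp_rw [h]
  rw [tsum_mul_left, tsum_geometric_of_lt_one (by norm_num) (by norm_num)]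
  norm_num

theorem summable_weighted {f : ℕ → ℝ} {C : ℝ} (h0 : ∀ n, 0 ≤ f n) (hC : ∀ n, f n ≤ C) :
    Summable fun n : ℕ => (1 / 2 : ℝ) ^ (2 * (n + 1)) * f n := by
  refine Summable.of_nonneg_of_le (fun n => mul_nonneg (by positivity) (h0 n)) (fun n => ?_)
    (summable_weights.mul_right C)
  exact mul_le_mul_of_nonneg_left (hC n) (by positivity)

/-- elementary Hilbert space inequality -/
theorem key_ineq (t : TracialState (Ultrapower τ 𝒰)) (P Q S : Ultrapower τ 𝒰) (η : ℝ)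
    (hη : 0 < η) (hS : t.norm2 S ^ 2 = (t.norm2 P ^ 2 + t.norm2 Q ^ 2) / 2) :
    (1 + η) * t.norm2 (P - Q) ^ 2 ≤ 4 * η * t.norm2 S ^ 2 +
      (1 + η⁻¹) * (2 * (t.norm2 (P - S) ^ 2 + t.norm2 (S - Q) ^ 2) - t.norm2 (P - Q) ^ 2) := by
  have h1 := t.parallelogram (P - S) (S - Q)
  have h2 := t.parallelogram P Q
  have e1 : P - S + (S - Q) = P - Q := by abel
  have e2 : P - S - (S - Q) = P + Q - (S + S) := by abel
  rw [e1, e2] at h1
  set T := t.norm2 (P + Q - (S + S)) with hT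
  have hT0 : 0 ≤ T := t.norm2_nonneg _
  have h3 : t.norm2 (S + S) = 2 * t.norm2 S := by
    rw [← two_smul ℂ S, t.norm2_smul]
    norm_num
  have h4 : 2 * t.norm2 S ≤ t.norm2 (P + Q) + T := by
    rw [← h3]
    have h5 : S + S = (P + Q) - (P + Q - (S + S)) := by abel
    calc t.norm2 (S + S) = t.norm2 ((P + Q) - (P + Q - (S + S))) := by rw [← h5]
      _ ≤ _ := t.norm2_sub_le _ _
  have hS0 := t.norm2_nonneg S
  have hPQ0 := t.norm2_nonneg (P + Q)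
  -- (a+b)^2 ≤ (1+η) a^2 + (1+1/η) b^2
  have h6 : (2 * t.norm2 S) ^ 2 ≤ (1 + η) * t.norm2 (P + Q) ^ 2 + (1 + η⁻¹) * T ^ 2 := by
    have h7 : (2 * t.norm2 S) ^ 2 ≤ (t.norm2 (P + Q) + T) ^ 2 := by
      apply pow_le_pow_left₀ (by positivity) h4
    have h8 : (t.norm2 (P + Q) + T) ^ 2 ≤ (1 + η) * t.norm2 (P + Q) ^ 2 + (1 + η⁻¹) * T ^ 2 := by
      have h9 : 0 ≤ η⁻¹ * (η * t.norm2 (P + Q) - T) ^ 2 := by positivity
      have h10 : η⁻¹ * (η * t.norm2 (P + Q) - T) ^ 2 = η * t.norm2 (P + Q) ^ 2 -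
          2 * t.norm2 (P + Q) * T + η⁻¹ * T ^ 2 := by
        field_simp
        ring
      nlinarith
    exact h7.trans h8
  have h11 : t.norm2 (P + Q) ^ 2 = 4 * t.norm2 S ^ 2 - t.norm2 (P - Q) ^ 2 := by linarith
  have h12 : T ^ 2 = 2 * (t.norm2 (P - S) ^ 2 + t.norm2 (S - Q) ^ 2) - t.norm2 (P - Q) ^ 2 := by
    linarith
  rw [← h12]
  rw [h11] at h6
  nlinarith

/-- the type of unitaries of the ultrapower is nonempty -/
instance : Nonempty {u : Ultrapower τ 𝒰 // star u * u = 1 ∧ u * star u = 1} :=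
  ⟨⟨1, by simp, by simp⟩⟩

theorem cost_nonneg (a : ℕ → M) (π ρ : UHom τ 𝒰 M) (u : Ultrapower τ 𝒰) :
    0 ≤ cost τ 𝒰 a π ρ u := Real.sqrt_nonneg _

theorem homDist_le (a : ℕ → M) (π ρ : UHom τ 𝒰 M) (u : Ultrapower τ 𝒰) (h1 : star u * u = 1)
    (h2 : u * star u = 1) : homDist τ 𝒰 a π ρ ≤ cost τ 𝒰 a π ρ u :=
  ciInf_le ⟨0, by rintro _ ⟨v, rfl⟩; exact cost_nonneg _ _ _ _ _⟩
    (⟨u, h1, h2⟩ : {u : Ultrapower τ 𝒰 // star u * u = 1 ∧ u * star u = 1})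

theorem homDist_nonneg (a : ℕ → M) (π ρ : UHom τ 𝒰 M) : 0 ≤ homDist τ 𝒰 a π ρ :=
  Real.iInf_nonneg fun _ => cost_nonneg _ _ _ _ _

theorem exists_unitary_cost_lt (a : ℕ → M) (π ρ : UHom τ 𝒰 M) {r : ℝ}
    (hr : homDist τ 𝒰 a π ρ < r) :
    ∃ u : Ultrapower τ 𝒰, star u * u = 1 ∧ u * star u = 1 ∧ cost τ 𝒰 a π ρ u < r := by
  obtain ⟨u, hu⟩ := exists_lt_of_ciInf_lt hr
  exact ⟨u, u.2.1, u.2.2, hu⟩

theorem cost_sq (a : ℕ → M) (π ρ : UHom τ 𝒰 M) (u : Ultrapower τ 𝒰) :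
    cost τ 𝒰 a π ρ u ^ 2 = ∑' n : ℕ, (1 / 2 : ℝ) ^ (2 * (n + 1)) *
      (Ultrapower.trace τ 𝒰).norm2 (π (a n) - u * ρ (a n) * star u) ^ 2 := by
  unfold cost
  rw [Real.sq_sqrt]
  exact tsum_nonneg fun n => by positivity

theorem final_arith (D η FPS FSQ FPQ FS : ℝ) (hD0 : 0 ≤ D) (hη : 0 < η) (hη1 : η ≤ 1)
    (c1 : FPS ≤ (D / 2 + η ^ 2) ^ 2) (c2 : FSQ ≤ (D / 2 + η ^ 2) ^ 2) (c3 : D ^ 2 ≤ FPQ)
    (c4 : FS ≤ 1)
    (c5 : (1 + η) * FPQ ≤ 4 * η * FS + (1 + η⁻¹) * (2 * (FPS + FSQ) - FPQ)) :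
    D ^ 2 ≤ (4 + 8 * (D + 1)) * η := by
  have hηi : 0 < η⁻¹ := by positivity
  have c6 : 2 * (FPS + FSQ) - FPQ ≤ 4 * D * η ^ 2 + 4 * η ^ 4 := by
    have e : (D / 2 + η ^ 2) ^ 2 = D ^ 2 / 4 + D * η ^ 2 + η ^ 4 := by ring
    rw [e] at c1 c2
    linarith
  have c7 : (1 + η⁻¹) * (2 * (FPS + FSQ) - FPQ) ≤ 8 * (D + 1) * η := by
    have e1 : (1 + η⁻¹) * (2 * (FPS + FSQ) - FPQ) ≤ (1 + η⁻¹) * (4 * D * η ^ 2 + 4 * η ^ 4) :=
      mul_le_mul_of_nonneg_left c6 (by positivity)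
    have e2 : (1 + η⁻¹) * (4 * D * η ^ 2 + 4 * η ^ 4) = (η + 1) * (4 * D * η + 4 * η ^ 3) := by
      field_simp
    have e3 : (η + 1) * (4 * D * η + 4 * η ^ 3) ≤ 8 * (D + 1) * η := by
      have e4 : η ^ 3 ≤ η := by
        calc η ^ 3 = η * η ^ 2 := by ring
          _ ≤ η * 1 := mul_le_mul_of_nonneg_left (pow_le_one₀ hη.le hη1) hη.le
          _ = η := mul_one _
      have e5 : 4 * D * η + 4 * η ^ 3 ≤ 4 * (D + 1) * η := by linarith
      have e6 : 0 ≤ 4 * (D + 1) * η := by positivity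
      calc (η + 1) * (4 * D * η + 4 * η ^ 3) ≤ (η + 1) * (4 * (D + 1) * η) :=
            mul_le_mul_of_nonneg_left e5 (by positivity)
        _ ≤ 2 * (4 * (D + 1) * η) := mul_le_mul_of_nonneg_right (by linarith) e6
        _ = 8 * (D + 1) * η := by ring
    linarith
  have c8 : D ^ 2 ≤ (1 + η) * FPQ := by
    have : 0 ≤ η * FPQ := mul_nonneg hη.le ((sq_nonneg D).trans c3)
    linarith
  have c9 : 4 * η * FS ≤ 4 * η := by
    have := mul_le_mul_of_nonneg_left c4 (show (0 : ℝ) ≤ 4 * η by positivity)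
    linarith
  linarith

/-- There is no metric midpoint of the form `½[π] + ½[ρ]` unless `d(π, ρ) = 0`. -/
theorem homDist_eq_zero (h : Halving τ) (a : ℕ → M) (ha : ∀ n, ‖a n‖ ≤ 1) (π ρ : UHom τ 𝒰 M)
    (h1 : homDist τ 𝒰 a π (midHom 𝒰 h π ρ) = homDist τ 𝒰 a π ρ / 2)
    (h2 : homDist τ 𝒰 a (midHom 𝒰 h π ρ) ρ = homDist τ 𝒰 a π ρ / 2) :
    homDist τ 𝒰 a π ρ = 0 := by
  set D := homDist τ 𝒰 a π ρ with hD
  have hD0 : 0 ≤ D := homDist_nonneg 𝒰 a π ρ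
  set t := Ultrapower.trace τ 𝒰 with ht
  set σ := midHom 𝒰 h π ρ with hσ
  -- main estimate
  have key : ∀ η : ℝ, 0 < η → η ≤ 1 → D ^ 2 ≤ (4 + 8 * (D + 1)) * η := by
    intro η hη hη1
    have hε : 0 < η ^ 2 := by positivity
    obtain ⟨u, hu1, hu2, hu⟩ := exists_unitary_cost_lt 𝒰 a π σ
      (show homDist τ 𝒰 a π σ < D / 2 + η ^ 2 by rw [h1]; linarith)
    obtain ⟨v, hv1, hv2, hv⟩ := exists_unitary_cost_lt 𝒰 a σ ρ
      (show homDist τ 𝒰 a σ ρ < D / 2 + η ^ 2 by rw [h2]; linarith)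
    -- the three families
    let P : ℕ → Ultrapower τ 𝒰 := fun n => star u * π (a n) * u
    let S : ℕ → Ultrapower τ 𝒰 := fun n => σ (a n)
    let Q : ℕ → Ultrapower τ 𝒰 := fun n => v * ρ (a n) * star v
    have hu1' : star (star u) * star u = 1 := by rw [star_star, hu2]
    have hu2' : star u * star (star u) = 1 := by rw [star_star, hu1]
    have hv1' : star (star v) * star v = 1 := by rw [star_star, hv2]
    have hv2' : star v * star (star v) = 1 := by rw [star_star, hv1]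
    have hNP : ∀ n, t.norm2 (P n) = t.norm2 (π (a n)) := by
      intro n
      show t.norm2 (star u * π (a n) * u) = _
      rw [t.norm2_mul_unitary hu2, t.norm2_unitary_mul hu1']
    have hNQ : ∀ n, t.norm2 (Q n) = t.norm2 (ρ (a n)) := by
      intro n
      show t.norm2 (v * ρ (a n) * star v) = _
      rw [t.norm2_mul_unitary hv2', t.norm2_unitary_mul hv1]
    have hNS : ∀ n, t.norm2 (S n) ^ 2 = (t.norm2 (P n) ^ 2 + t.norm2 (Q n) ^ 2) / 2 := by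
      intro n
      rw [hNP, hNQ]
      exact norm2_midHom 𝒰 h π ρ (a n)
    have hP1 : ∀ n, t.norm2 (P n) ≤ 1 := fun n => by
      rw [hNP]; exact (norm2_hom_le τ 𝒰 π _).trans (ha n)
    have hQ1 : ∀ n, t.norm2 (Q n) ≤ 1 := fun n => by
      rw [hNQ]; exact (norm2_hom_le τ 𝒰 ρ _).trans (ha n)
    have hS1 : ∀ n, t.norm2 (S n) ≤ 1 := fun n => (norm2_hom_le τ 𝒰 σ _).trans (ha n)
    -- transport of costs
    have ePS : ∀ n, t.norm2 (P n - S n) = t.norm2 (π (a n) - u * σ (a n) * star u) := by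
      intro n
      have e : π (a n) - u * σ (a n) * star u = u * (P n - S n) * star u := by
        show _ = u * (star u * π (a n) * u - σ (a n)) * star u
        calc π (a n) - u * σ (a n) * star u
            = (u * star u) * π (a n) * (u * star u) - u * σ (a n) * star u := by
              rw [hu2]; simp
          _ = _ := by noncomm_ring
      rw [e, t.norm2_mul_unitary hu2', t.norm2_unitary_mul hu1]
    have eSQ : ∀ n, t.norm2 (S n - Q n) = t.norm2 (σ (a n) - v * ρ (a n) * star v) := fun n => rfl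
    have ePQ : ∀ n, t.norm2 (P n - Q n) =
        t.norm2 (π (a n) - (u * v) * ρ (a n) * star (u * v)) := by
      intro n
      have e : π (a n) - (u * v) * ρ (a n) * star (u * v) = u * (P n - Q n) * star u := by
        show _ = u * (star u * π (a n) * u - v * ρ (a n) * star v) * star u
        rw [star_mul]
        calc π (a n) - u * v * ρ (a n) * (star v * star u)
            = (u * star u) * π (a n) * (u * star u) - u * v * ρ (a n) * (star v * star u) := by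
              rw [hu2]; simp
          _ = _ := by noncomm_ring
      rw [e, t.norm2_mul_unitary hu2', t.norm2_unitary_mul hu1]
    have bd : ∀ x y : Ultrapower τ 𝒰, t.norm2 x ≤ 1 → t.norm2 y ≤ 1 → t.norm2 (x - y) ^ 2 ≤ 4 := by
      intro x y hx hy
      have h3 := t.norm2_sub_le x y
      have h4 := t.norm2_nonneg (x - y)
      nlinarith
    have sPS := summable_weighted (f := fun n => t.norm2 (P n - S n) ^ 2) (fun n => sq_nonneg _)
      (fun n => bd _ _ (hP1 n) (hS1 n))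
    have sSQ := summable_weighted (f := fun n => t.norm2 (S n - Q n) ^ 2) (fun n => sq_nonneg _)
      (fun n => bd _ _ (hS1 n) (hQ1 n))
    have sPQ := summable_weighted (f := fun n => t.norm2 (P n - Q n) ^ 2) (fun n => sq_nonneg _)
      (fun n => bd _ _ (hP1 n) (hQ1 n))
    have sS := summable_weighted (f := fun n => t.norm2 (S n) ^ 2) (fun n => sq_nonneg _)
      (fun n => (pow_le_one₀ (t.norm2_nonneg _) (hS1 n) : t.norm2 (S n) ^ 2 ≤ 1))
    set FPS := ∑' n : ℕ, (1 / 2 : ℝ) ^ (2 * (n + 1)) * t.norm2 (P n - S n) ^ 2 with hFPS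
    set FSQ := ∑' n : ℕ, (1 / 2 : ℝ) ^ (2 * (n + 1)) * t.norm2 (S n - Q n) ^ 2 with hFSQ
    set FPQ := ∑' n : ℕ, (1 / 2 : ℝ) ^ (2 * (n + 1)) * t.norm2 (P n - Q n) ^ 2 with hFPQ
    set FS := ∑' n : ℕ, (1 / 2 : ℝ) ^ (2 * (n + 1)) * t.norm2 (S n) ^ 2 with hFS
    have c1 : FPS ≤ (D / 2 + η ^ 2) ^ 2 := by
      have : FPS = cost τ 𝒰 a π σ u ^ 2 := by
        rw [cost_sq, hFPS]
        simp_rw [ePS]
        rfl
      rw [this]
      exact pow_le_pow_left₀ (cost_nonneg _ _ _ _ _) hu.le 2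
    have c2 : FSQ ≤ (D / 2 + η ^ 2) ^ 2 := by
      have : FSQ = cost τ 𝒰 a σ ρ v ^ 2 := by
        rw [cost_sq, hFSQ]
      rw [this]
      exact pow_le_pow_left₀ (cost_nonneg _ _ _ _ _) hv.le 2
    have c3 : D ^ 2 ≤ FPQ := by
      have : FPQ = cost τ 𝒰 a π ρ (u * v) ^ 2 := by
        rw [cost_sq, hFPQ]
        simp_rw [ePQ]
        rfl
      rw [this]
      refine pow_le_pow_left₀ hD0 (homDist_le 𝒰 a π ρ (u * v) ?_ ?_) 2
      · rw [star_mul]
        calc star v * star u * (u * v) = star v * (star u * u) * v := by noncomm_ring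
          _ = 1 := by rw [hu1, mul_one, hv1]
      · rw [star_mul]
        calc u * v * (star v * star u) = u * (v * star v) * star u := by noncomm_ring
          _ = 1 := by rw [hv2, mul_one, hu2]
    have c4 : FS ≤ 1 := by
      refine le_trans ?_ tsum_weights_le
      refine sS.tsum_le_tsum (fun n => ?_) summable_weights
      exact mul_le_of_le_one_right (by positivity) (pow_le_one₀ (t.norm2_nonneg _) (hS1 n))
    have c5 : (1 + η) * FPQ ≤ 4 * η * FS + (1 + η⁻¹) * (2 * (FPS + FSQ) - FPQ) := by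
      have hterm : ∀ n : ℕ, (1 + η) * ((1 / 2 : ℝ) ^ (2 * (n + 1)) * t.norm2 (P n - Q n) ^ 2) ≤
          4 * η * ((1 / 2 : ℝ) ^ (2 * (n + 1)) * t.norm2 (S n) ^ 2) +
          (1 + η⁻¹) * (2 * (((1 / 2 : ℝ) ^ (2 * (n + 1)) * t.norm2 (P n - S n) ^ 2) +
            ((1 / 2 : ℝ) ^ (2 * (n + 1)) * t.norm2 (S n - Q n) ^ 2)) -
            ((1 / 2 : ℝ) ^ (2 * (n + 1)) * t.norm2 (P n - Q n) ^ 2)) := by
        intro n
        have h3 := key_ineq 𝒰 t (P n) (Q n) (S n) η hη (hNS n)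
        have h4 : (0 : ℝ) ≤ (1 / 2 : ℝ) ^ (2 * (n + 1)) := by positivity
        have h5 := mul_le_mul_of_nonneg_left h3 h4
        nlinarith [h5]
      have s1 := sPQ.mul_left (1 + η)
      have s2 := (sS.mul_left (4 * η)).add
        ((((sPS.add sSQ).mul_left 2).sub sPQ).mul_left (1 + η⁻¹))
      have h6 := s1.tsum_le_tsum hterm s2
      rw [tsum_mul_left, (sS.mul_left (4 * η)).tsum_add
        ((((sPS.add sSQ).mul_left 2).sub sPQ).mul_left (1 + η⁻¹)), tsum_mul_left, tsum_mul_left,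
        ((sPS.add sSQ).mul_left 2).tsum_sub sPQ, tsum_mul_left, sPS.tsum_add sSQ] at h6
      exact h6
    exact final_arith D η FPS FSQ FPQ FS hD0 hη hη1 c1 c2 c3 c4 c5
  by_contra hne
  have hDpos : 0 < D := lt_of_le_of_ne hD0 (Ne.symm hne)
  have hK : 0 < 4 + 8 * (D + 1) := by positivity
  have h3 := key (min 1 (D ^ 2 / (2 * (4 + 8 * (D + 1))))) (by positivity) (min_le_left _ _)
  have h4 : (4 + 8 * (D + 1)) * min 1 (D ^ 2 / (2 * (4 + 8 * (D + 1)))) ≤ D ^ 2 / 2 := by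
    calc (4 + 8 * (D + 1)) * min 1 (D ^ 2 / (2 * (4 + 8 * (D + 1))))
        ≤ (4 + 8 * (D + 1)) * (D ^ 2 / (2 * (4 + 8 * (D + 1)))) :=
          mul_le_mul_of_nonneg_left (min_le_right _ _) hK.le
      _ = D ^ 2 / 2 := by field_simp
  have h5 : 0 < D ^ 2 := by positivity
  linarith

/-- If an affine isometric map into a real normed space exists, then `d = 0`. -/
theorem homDist_eq_zero_of_embedding (h : Halving τ) (a : ℕ → M) (ha : ∀ n, ‖a n‖ ≤ 1)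
    {B : Type*} [NormedAddCommGroup B] [NormedSpace ℝ B] (Φ : HomSpace τ 𝒰 M → B)
    (hΦ : IsAffine τ 𝒰 Φ) (hΦ' : IsIsometric τ 𝒰 a Φ) (π ρ : UHom τ 𝒰 M) :
    homDist τ 𝒰 a π ρ = 0 := by
  have h0 := hΦ 2 ![(1 / 2 : ℝ), 1 / 2] ![π, ρ] (midHom 𝒰 h π ρ)
    (by intro i; fin_cases i <;> norm_num) (by rw [Fin.sum_univ_two]; norm_num)
    (isConvexCombination_midHom 𝒰 h π ρ)
  rw [Fin.sum_univ_two] at h0
  have h0' : Φ (cls τ 𝒰 (midHom 𝒰 h π ρ)) =
      (1 / 2 : ℝ) • Φ (cls τ 𝒰 π) + (1 / 2 : ℝ) • Φ (cls τ 𝒰 ρ) := h0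
  refine homDist_eq_zero 𝒰 h a ha π ρ ?_ ?_
  · rw [← hΦ', ← hΦ', h0']
    have : Φ (cls τ 𝒰 π) - ((1 / 2 : ℝ) • Φ (cls τ 𝒰 π) + (1 / 2 : ℝ) • Φ (cls τ 𝒰 ρ)) =
        (1 / 2 : ℝ) • (Φ (cls τ 𝒰 π) - Φ (cls τ 𝒰 ρ)) := by
      module
    rw [this, norm_smul]
    norm_num
    ring
  · rw [← hΦ', ← hΦ', h0']
    have : (1 / 2 : ℝ) • Φ (cls τ 𝒰 π) + (1 / 2 : ℝ) • Φ (cls τ 𝒰 ρ) - Φ (cls τ 𝒰 ρ) =
        (1 / 2 : ℝ) • (Φ (cls τ 𝒰 π) - Φ (cls τ 𝒰 ρ)) := by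
      module
    rw [this, norm_smul]
    norm_num
    ring

end

end Pool.Agent.HomRU
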