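import Pool.Agent.HomRU.Extend
import Pool.Agent.HomRU.NoMid
import Pool.Agent.HomRU.Gamma3
import Pool.Agent.HomRU.Finite
import Pool.Agent.HomRU.Concrete

set_option autoImplicit false
set_option linter.unusedSectionVars false
set_option linter.style.haveILetI false

open scoped InnerProductSpace ComplexConjugate
open Filter Topology

namespace Pool.Agent.HomRU

section

variable {Γ : Type} [Group Γ]

/-- the commutant of a sequence, as a von Neumann algebra -/
noncomputable def commVN {H : Type*} [NormedAddCommGroup H] [InnerProductSpace ℂ H] [CompleteSpace H]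
    (S : Set (H →L[ℂ] H)) : VonNeumannAlgebra H where
  toStarSubalgebra := StarSubalgebra.centralizer ℂ S
  centralizer_centralizer' := by
    show Set.centralizer (Set.centralizer
      (StarSubalgebra.centralizer ℂ S : Set (H →L[ℂ] H))) =
      (StarSubalgebra.centralizer ℂ S : Set (H →L[ℂ] H))
    rw [StarSubalgebra.coe_centralizer, Set.centralizer_centralizer_centralizer]

theorem mem_commVN {H : Type*} [NormedAddCommGroup H] [InnerProductSpace ℂ H] [CompleteSpace H]
    {S : Set (H →L[ℂ] H)} {x : H →L[ℂ] H} :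
    x ∈ commVN S ↔ ∀ y ∈ S, y * x = x * y ∧ star y * x = x * star y := by
  show x ∈ StarSubalgebra.centralizer ℂ S ↔ _
  rw [StarSubalgebra.mem_centralizer_iff]

/-- A `*`-subalgebra of `L(Γ)` which contains a generating sequence is dense in `2`-norm. -/
theorem dense_of_generates (a : ℕ → (trivCocycle Γ).Alg)
    (ha : Generates (trivCocycle Γ).vN a) (𝓑 : StarSubalgebra ℂ (trivCocycle Γ).Alg)
    (h𝓑 : ∀ n, a n ∈ 𝓑) (x : (trivCocycle Γ).Alg) (ε : ℝ) (hε : 0 < ε) :
    ∃ b ∈ 𝓑, (trivCocycle Γ).tr.norm2 (x - b) < ε := by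
  set V : Submodule ℂ (ell2 Γ) :=
    Submodule.map (trivCocycle Γ).evL (Subalgebra.toSubmodule 𝓑.toSubalgebra) with hV
  set K := V.topologicalClosure with hK
  haveI : CompleteSpace K := V.isClosed_topologicalClosure.completeSpace_coe
  have hinv : ∀ b ∈ 𝓑, ∀ v ∈ K, (b : ell2 Γ →L[ℂ] ell2 Γ) v ∈ K := by
    intro b hb v hv
    have h1 : Set.MapsTo (fun v => (b : ell2 Γ →L[ℂ] ell2 Γ) v) (V : Set (ell2 Γ)) V := by
      rintro _ ⟨c, hc, rfl⟩
      exact ⟨b * c, 𝓑.mul_mem hb hc, rfl⟩
    exact h1.closure (b : ell2 Γ →L[ℂ] ell2 Γ).continuous hv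
  have hcomm : ∀ b ∈ 𝓑, (b : ell2 Γ →L[ℂ] ell2 Γ) * K.starProjection =
      K.starProjection * (b : ell2 Γ →L[ℂ] ell2 Γ) := by
    intro b hb
    ext1 v
    show (b : ell2 Γ →L[ℂ] ell2 Γ) (K.starProjection v) =
      K.starProjection ((b : ell2 Γ →L[ℂ] ell2 Γ) v)
    symm
    apply Submodule.eq_starProjection_of_mem_of_inner_eq_zero
    · exact hinv b hb _ (Submodule.starProjection_apply_mem _ _)
    · intro w hw
      rw [← map_sub, ← ContinuousLinearMap.adjoint_inner_right]
      apply Submodule.starProjection_inner_eq_zero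
      exact hinv (star b) (star_mem hb) w hw
  have hPmem : K.starProjection ∈ commVN (Set.range fun n => (a n : ell2 Γ →L[ℂ] ell2 Γ)) := by
    rw [mem_commVN]
    rintro _ ⟨n, rfl⟩
    exact ⟨hcomm _ (h𝓑 n), hcomm _ (star_mem (h𝓑 n))⟩
  have hM := ha (commVN (Set.range fun n => (a n : ell2 Γ →L[ℂ] ell2 Γ))).commutant (by
    intro n
    rw [VonNeumannAlgebra.mem_commutant_iff]
    intro g hg
    rw [mem_commVN] at hg
    exact (hg _ ⟨n, rfl⟩).1.symm)
  have hx := hM x.2
  rw [VonNeumannAlgebra.mem_commutant_iff] at hx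
  have hxP := hx _ hPmem
  have h1K : dl (1 : Γ) ∈ K := V.le_topologicalClosure ⟨1, 𝓑.one_mem, (trivCocycle Γ).ev_one⟩
  have hxK : (trivCocycle Γ).ev x ∈ K := by
    have h2 := DFunLike.congr_fun hxP (dl 1)
    have h3 : K.starProjection ((trivCocycle Γ).ev x) =
      (x : ell2 Γ →L[ℂ] ell2 Γ) (K.starProjection (dl 1)) := h2
    rw [Submodule.starProjection_eq_self_iff.2 h1K] at h3
    exact Submodule.starProjection_eq_self_iff.1 h3
  obtain ⟨_, ⟨b, hb, rfl⟩, hd⟩ := Metric.mem_closure_iff.1 hxK ε hε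
  refine ⟨b, hb, ?_⟩
  rw [SignCocycle.norm2_eq, SignCocycle.ev_sub, ← dist_eq_norm]
  exact hd

end

section

variable {A : Type} [CStarAlgebra A] (τ : TracialState A) (𝒰 : Ultrafilter ℕ)
variable {Γ : Type} [Group Γ]

/-- the unitaries of the ultrapower -/
abbrev Uni : Type _ := {u : Ultrapower τ 𝒰 // star u * u = 1 ∧ u * star u = 1}

variable {τ 𝒰}

/-- trace preserving homomorphisms preserve the `2`-norm -/
theorem norm2_hom_eq {π : UHom τ 𝒰 (trivCocycle Γ).Alg}
    (h : ∀ x, (Ultrapower.trace τ 𝒰).toLin (π x) = (trivCocycle Γ).tr.toLin x)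
    (x : (trivCocycle Γ).Alg) :
    (Ultrapower.trace τ 𝒰).norm2 (π x) = (trivCocycle Γ).tr.norm2 x := by
  unfold TracialState.norm2
  rw [← map_star, ← map_mul, h]

theorem norm2_conj (u : Uni τ 𝒰) (x : Ultrapower τ 𝒰) :
    (Ultrapower.trace τ 𝒰).norm2 (u.1 * x * star u.1) = (Ultrapower.trace τ 𝒰).norm2 x := by
  rw [TracialState.norm2_mul_unitary, TracialState.norm2_unitary_mul _ u.2.1]
  rw [star_star]
  exact u.2.1

/-- If the distance is zero then the homomorphisms are approximately unitarily equivalent. -/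
theorem approx_equiv {π σ : UHom τ 𝒰 (trivCocycle Γ).Alg}
    (hπ : ∀ x, (Ultrapower.trace τ 𝒰).toLin (π x) = (trivCocycle Γ).tr.toLin x)
    (hσ : ∀ x, (Ultrapower.trace τ 𝒰).toLin (σ x) = (trivCocycle Γ).tr.toLin x)
    (a : ℕ → (trivCocycle Γ).Alg) (ha1 : ∀ n, ‖a n‖ ≤ 1) (ha : Generates (trivCocycle Γ).vN a)
    (hd : homDist τ 𝒰 a π σ = 0) :
    ∃ F : Filter (Uni τ 𝒰), F.NeBot ∧ ∀ b : (trivCocycle Γ).Alg,
      Tendsto (fun u : Uni τ 𝒰 => (Ultrapower.trace τ 𝒰).norm2 (π b - u.1 * σ b * star u.1)) F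
        (𝓝 0) := by
  set t := Ultrapower.trace τ 𝒰 with ht
  set F : Filter (Uni τ 𝒰) := comap (fun u : Uni τ 𝒰 => cost τ 𝒰 a π σ u.1) (𝓝 0) with hF
  have hFne : F.NeBot := by
    rw [hF, comap_neBot_iff]
    intro s hs
    obtain ⟨ε, hε, hs'⟩ := Metric.mem_nhds_iff.1 hs
    obtain ⟨u, h1, h2, h3⟩ := exists_unitary_cost_lt 𝒰 a π σ (r := ε) (by rw [hd]; exact hε)
    refine ⟨⟨u, h1, h2⟩, hs' ?_⟩
    rw [mem_ball_zero_iff, Real.norm_of_nonneg (cost_nonneg _ _ _ _ _)]
    exact h3
  have hFt : Tendsto (fun u : Uni τ 𝒰 => cost τ 𝒰 a π σ u.1) F (𝓝 0) := tendsto_comap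
  -- the good set is a star subalgebra
  let 𝓑 : StarSubalgebra ℂ (trivCocycle Γ).Alg :=
    { carrier := {b | Tendsto (fun u : Uni τ 𝒰 => t.norm2 (π b - u.1 * σ b * star u.1)) F (𝓝 0)}
      mul_mem' := by
        intro b b' hb hb'
        obtain ⟨C, hC0, hC⟩ := Ultrapower.exists_mul_bound τ 𝒰 (π b')
        obtain ⟨D, hD0, hD⟩ := Ultrapower.exists_mul_bound τ 𝒰 (σ b)
        have h := (Tendsto.const_mul C hb).add (Tendsto.const_mul D hb')
        rw [mul_zero, mul_zero, add_zero] at h
        refine squeeze_zero (fun u => t.norm2_nonneg _) (fun u => ?_) h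
        have e : π (b * b') - u.1 * σ (b * b') * star u.1 =
            (π b - u.1 * σ b * star u.1) * π b' +
              u.1 * (σ b * (star u.1 * (π b' - u.1 * σ b' * star u.1))) := by
          rw [map_mul, map_mul]
          have h1 : u.1 * (σ b * (star u.1 * (π b' - u.1 * σ b' * star u.1))) =
              u.1 * σ b * star u.1 * π b' - u.1 * σ b * (star u.1 * u.1) * σ b' * star u.1 := by
            noncomm_ring
          rw [h1, u.2.1]
          noncomm_ring
        rw [e]
        refine (t.norm2_add_le _ _).trans (add_le_add (hC _).2 ?_)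
        rw [t.norm2_unitary_mul u.2.1]
        refine (hD _).1.trans (le_of_eq ?_)
        rw [t.norm2_unitary_mul (by rw [star_star]; exact u.2.2)]
      add_mem' := by
        intro b b' hb hb'
        have h := Tendsto.add hb hb'
        rw [add_zero] at h
        refine squeeze_zero (fun u => t.norm2_nonneg _) (fun u => ?_) h
        have e : π (b + b') - u.1 * σ (b + b') * star u.1 =
            (π b - u.1 * σ b * star u.1) + (π b' - u.1 * σ b' * star u.1) := by
          rw [map_add, map_add]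
          noncomm_ring
        rw [e]
        exact t.norm2_add_le _ _
      algebraMap_mem' := by
        intro r
        have e : ∀ u : Uni τ 𝒰, t.norm2 (π (algebraMap ℂ _ r) -
            u.1 * σ (algebraMap ℂ _ r) * star u.1) = 0 := by
          intro u
          rw [AlgHomClass.commutes, AlgHomClass.commutes, ← Algebra.commutes r u.1, mul_assoc,
            u.2.2, mul_one, sub_self, t.norm2_zero]
        show Tendsto _ _ _
        simp_rw [e]
        exact tendsto_const_nhds
      star_mem' := by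
        intro b hb
        refine Tendsto.congr (fun u => ?_) hb
        rw [← t.norm2_star, star_sub, star_mul, star_mul, star_star, map_star, map_star]
        simp only [mul_assoc] }
  have hgen : ∀ n, a n ∈ 𝓑 := by
    intro n
    show Tendsto (fun u : Uni τ 𝒰 => t.norm2 (π (a n) - u.1 * σ (a n) * star u.1)) F (𝓝 0)
    have h := hFt.const_mul ((2 : ℝ) ^ (n + 1))
    rw [mul_zero] at h
    refine squeeze_zero (fun u => t.norm2_nonneg _) (fun u => ?_) h
    apply le_of_sq_le_sq _ (mul_nonneg (by positivity) (cost_nonneg _ _ _ _ _))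
    have hsum : Summable fun n : ℕ => (1 / 2 : ℝ) ^ (2 * (n + 1)) *
        t.norm2 (π (a n) - u.1 * σ (a n) * star u.1) ^ 2 := by
      refine summable_weighted (C := 4) (fun n => by positivity) (fun n => ?_)
      have h1 : t.norm2 (π (a n) - u.1 * σ (a n) * star u.1) ≤ 2 := by
        refine (t.norm2_sub_le _ _).trans ?_
        rw [norm2_conj]
        have h2 := (norm2_hom_le τ 𝒰 π (a n)).trans (ha1 n)
        have h3 := (norm2_hom_le τ 𝒰 σ (a n)).trans (ha1 n)
        linarith
      nlinarith [t.norm2_nonneg (π (a n) - u.1 * σ (a n) * star u.1)]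
    have h1 := hsum.le_tsum n (fun i _ => by positivity)
    rw [← cost_sq] at h1
    rw [mul_pow, ← pow_mul, mul_comm (n + 1) 2]
    have h2 : (2 : ℝ) ^ (2 * (n + 1)) * ((1 / 2 : ℝ) ^ (2 * (n + 1))) = 1 := by
      rw [← mul_pow]
      norm_num
    calc t.norm2 (π (a n) - u.1 * σ (a n) * star u.1) ^ 2
        = (2 : ℝ) ^ (2 * (n + 1)) * ((1 / 2 : ℝ) ^ (2 * (n + 1)) *
            t.norm2 (π (a n) - u.1 * σ (a n) * star u.1) ^ 2) := by
          rw [← mul_assoc, h2, one_mul]
      _ ≤ _ := mul_le_mul_of_nonneg_left h1 (by positivity)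
  refine ⟨F, hFne, fun b => ?_⟩
  rw [Metric.tendsto_nhds]
  intro ε hε
  obtain ⟨b', hb', hbb⟩ := dense_of_generates a ha 𝓑 hgen b (ε / 4) (by positivity)
  have hb'' : Tendsto (fun u : Uni τ 𝒰 => t.norm2 (π b' - u.1 * σ b' * star u.1)) F (𝓝 0) := hb'
  filter_upwards [hb''.eventually (gt_mem_nhds (by positivity : (0:ℝ) < ε / 4))] with u hu
  rw [Real.dist_eq, sub_zero, abs_of_nonneg (t.norm2_nonneg _)]
  have e : π b - u.1 * σ b * star u.1 = π (b - b') + (π b' - u.1 * σ b' * star u.1) -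
      u.1 * σ (b - b') * star u.1 := by
    rw [map_sub, map_sub]
    noncomm_ring
  rw [e]
  refine (t.norm2_sub_le _ _).trans_lt ?_
  rw [norm2_conj, norm2_hom_eq hσ]
  have h1 := t.norm2_add_le (π (b - b')) (π b' - u.1 * σ b' * star u.1)
  rw [norm2_hom_eq hπ] at h1
  linarith

end

end Pool.Agent.HomRU
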