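import Pool.Agent.HomRU.Twisted2

set_option autoImplicit false
set_option linter.unusedSectionVars false
set_option linter.style.haveILetI false

open scoped InnerProductSpace
open Filter Topology

namespace Pool.Agent.HomRU

section

variable {ι : Type*}

theorem norm_sq_ell2 (ξ : ell2 ι) : ‖ξ‖ ^ 2 = ∑' i, ‖ξ i‖ ^ 2 := by
  have h := lp.norm_rpow_eq_tsum (p := 2) (by norm_num) ξ
  simpa using h

theorem summable_sq (ξ : ell2 ι) : Summable fun i => ‖ξ i‖ ^ 2 := by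
  have h := (lp.memℓp ξ).summable (by norm_num)
  simpa using h

/-- restriction of an `ℓ²` function to a set -/
noncomputable def cutE (E : Set ι) (ξ : ell2 ι) : ell2 ι :=
  ⟨E.indicator ξ, by
    apply memℓp_gen
    have h := (lp.memℓp ξ).summable (by norm_num)
    refine Summable.of_nonneg_of_le (fun i => by positivity) (fun i => ?_) h
    apply Real.rpow_le_rpow (norm_nonneg _) _ (by norm_num)
    exact norm_indicator_le_norm_self _ _⟩

theorem cutE_apply (E : Set ι) (ξ : ell2 ι) (i : ι) : cutE E ξ i = E.indicator ξ i := rfl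

theorem cutE_sub (E : Set ι) (ξ η : ell2 ι) : cutE E (ξ - η) = cutE E ξ - cutE E η := by
  apply lp.ext
  funext i
  show E.indicator (ξ - η : ell2 ι) i = E.indicator ξ i - E.indicator η i
  by_cases h : i ∈ E
  · rw [Set.indicator_of_mem h, Set.indicator_of_mem h, Set.indicator_of_mem h]
    rfl
  · rw [Set.indicator_of_notMem h, Set.indicator_of_notMem h, Set.indicator_of_notMem h, sub_zero]

theorem norm_cutE_sq (E : Set ι) (ξ : ell2 ι) :
    ‖cutE E ξ‖ ^ 2 = ∑' i, E.indicator (fun i => ‖ξ i‖ ^ 2) i := by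
  rw [norm_sq_ell2]
  congr 1
  funext i
  rw [cutE_apply]
  by_cases h : i ∈ E
  · rw [Set.indicator_of_mem h, Set.indicator_of_mem h]
  · rw [Set.indicator_of_notMem h, Set.indicator_of_notMem h, norm_zero]
    norm_num

theorem summable_indicator (E : Set ι) (ξ : ell2 ι) :
    Summable (E.indicator (fun i => ‖ξ i‖ ^ 2)) := (summable_sq ξ).indicator E

theorem norm_cutE_le (E : Set ι) (ξ : ell2 ι) : ‖cutE E ξ‖ ≤ ‖ξ‖ := by
  have h : ‖cutE E ξ‖ ^ 2 ≤ ‖ξ‖ ^ 2 := by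
    rw [norm_cutE_sq, norm_sq_ell2]
    refine (summable_indicator E ξ).tsum_le_tsum (fun i => ?_) (summable_sq ξ)
    exact Set.indicator_le_self' (fun _ _ => by positivity) i
  exact le_of_sq_le_sq h (norm_nonneg _)

theorem cutE_triangle (E : Set ι) (ξ η : ell2 ι) : ‖cutE E ξ‖ ≤ ‖cutE E η‖ + ‖η - ξ‖ := by
  have h1 : cutE E ξ = cutE E η - cutE E (η - ξ) := by rw [cutE_sub]; abel
  rw [h1]
  exact (norm_sub_le _ _).trans (add_le_add le_rfl (norm_cutE_le _ _))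

end

/-- The trivial cocycle. -/
def trivCocycle (G : Type*) [Group G] : SignCocycle G where
  c _ _ := 1
  one_left _ := rfl
  one_right _ := rfl
  cocycle _ _ _ := rfl

section

variable {G : Type*} [Group G]

theorem lam_apply (g h : G) (ξ : ell2 G) : (trivCocycle G).lam g ξ h = ξ (g⁻¹ * h) := by
  have h1 : (trivCocycle G).lam g (dl (g⁻¹ * h)) = dl h := by
    rw [SignCocycle.lam_dl, mul_inv_cancel_left]
    show sg 1 • _ = _
    rw [sg_one, one_smul]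
  rw [← inner_dl_left, ← h1, ← inner_dl_left]
  exact inner_opOf _ _ _

theorem norm_lam (g : G) (ξ : ell2 G) : ‖(trivCocycle G).lam g ξ‖ = ‖ξ‖ := norm_opOf _ _

theorem lam_inv_lam (g : G) (ξ : ell2 G) :
    (trivCocycle G).lam g⁻¹ ((trivCocycle G).lam g ξ) = ξ := by
  apply lp.ext
  funext h
  show (trivCocycle G).lam g⁻¹ ((trivCocycle G).lam g ξ) h = ξ h
  rw [lam_apply, lam_apply]
  group

theorem pp_one (T : G) (E : Set G) (h1 : ∀ g ∈ E, T * g ∉ E) (h2 : ∀ g ∈ E, T * (T * g) ∉ E)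
    (ξ : ell2 G) : ‖cutE E ξ‖ ^ 2 + ‖cutE E ((trivCocycle G).lam T ξ)‖ ^ 2 +
      ‖cutE E ((trivCocycle G).lam T⁻¹ ξ)‖ ^ 2 ≤ ‖ξ‖ ^ 2 := by
  classical
  have key : ∀ a : G, ‖cutE E ((trivCocycle G).lam a ξ)‖ ^ 2 =
      ∑' i, (if a * i ∈ E then ‖ξ i‖ ^ 2 else 0) := by
    intro a
    rw [norm_cutE_sq, ← (Equiv.mulLeft a).tsum_eq]
    congr 1
    funext i
    show E.indicator (fun i => ‖(trivCocycle G).lam a ξ i‖ ^ 2) (a * i) = _
    rw [Set.indicator_apply, lam_apply, inv_mul_cancel_left]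
  have keys : ∀ a : G, Summable fun i => (if a * i ∈ E then ‖ξ i‖ ^ 2 else 0) := by
    intro a
    refine Summable.of_nonneg_of_le (fun i => ?_) (fun i => ?_) (summable_sq ξ)
    · split_ifs <;> positivity
    · split_ifs
      · exact le_rfl
      · positivity
  have e0 : ‖cutE E ξ‖ ^ 2 = ∑' i, (if 1 * i ∈ E then ‖ξ i‖ ^ 2 else 0) := by
    rw [← key 1, SignCocycle.lam_one]
    rfl
  rw [e0, key, key, norm_sq_ell2, ← (keys 1).tsum_add (keys T),
    ← ((keys 1).add (keys T)).tsum_add (keys T⁻¹)]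
  refine (((keys 1).add (keys T)).add (keys T⁻¹)).tsum_le_tsum (fun i => ?_) (summable_sq ξ)
  have hpos : 0 ≤ ‖ξ i‖ ^ 2 := by positivity
  rw [one_mul]
  by_cases ha : i ∈ E
  · have hb : T * i ∉ E := h1 i ha
    have hc : T⁻¹ * i ∉ E := by
      intro hc
      have := h1 _ hc
      rw [mul_inv_cancel_left] at this
      exact this ha
    rw [if_pos ha, if_neg hb, if_neg hc]
    linarith
  · by_cases hb : T * i ∈ E
    · have hc : T⁻¹ * i ∉ E := by
        intro hc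
        have := h2 _ hc
        rw [mul_inv_cancel_left] at this
        exact this hb
      rw [if_neg ha, if_pos hb, if_neg hc]
      linarith
    · rw [if_neg ha, if_neg hb]
      split_ifs <;> linarith

theorem pp_two (T : G) (E : Set G) (h1 : ∀ g ∈ E, T * g ∉ E) (h2 : ∀ g ∈ E, T * (T * g) ∉ E)
    (ξ : ell2 G) (h : ‖ξ‖ ^ 2 ≤ 2 * ‖cutE E ξ‖ ^ 2) :
    ‖ξ‖ ^ 2 ≤ 25 * ‖(trivCocycle G).lam T ξ - ξ‖ ^ 2 := by
  have h3 := pp_one T E h1 h2 ξ
  have h4 := cutE_triangle E ξ ((trivCocycle G).lam T ξ)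
  have h5 := cutE_triangle E ξ ((trivCocycle G).lam T⁻¹ ξ)
  have h6 : ‖(trivCocycle G).lam T⁻¹ ξ - ξ‖ = ‖(trivCocycle G).lam T ξ - ξ‖ := by
    rw [← norm_lam T⁻¹ ((trivCocycle G).lam T ξ - ξ), map_sub, lam_inv_lam, norm_sub_rev]
  rw [h6] at h5
  set a := ‖cutE E ξ‖
  set b := ‖cutE E ((trivCocycle G).lam T ξ)‖
  set c := ‖cutE E ((trivCocycle G).lam T⁻¹ ξ)‖
  set ε := ‖(trivCocycle G).lam T ξ - ξ‖
  set n := ‖ξ‖
  have ha : 0 ≤ a := norm_nonneg _
  have hb : 0 ≤ b := norm_nonneg _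
  have hc : 0 ≤ c := norm_nonneg _
  have hε : 0 ≤ ε := norm_nonneg _
  have hn : 0 ≤ n := norm_nonneg _
  by_contra hcon
  push Not at hcon
  have hεn : 5 * ε < n := by
    by_contra h7
    push Not at h7
    nlinarith
  have han : 7 / 10 * n ≤ a := by
    by_contra h7
    push Not at h7
    nlinarith
  have hbn : n / 2 < b := by linarith
  have hcn : n / 2 < c := by linarith
  nlinarith

theorem ping_pong_gap (T S : G) (E F : Set G) (hEF : ∀ g, g ∈ E ∨ g ∈ F)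
    (h1 : ∀ g ∈ E, T * g ∉ E) (h2 : ∀ g ∈ E, T * (T * g) ∉ E)
    (h3 : ∀ g ∈ F, S * g ∉ F) (h4 : ∀ g ∈ F, S * (S * g) ∉ F) (ξ : ell2 G) :
    ‖ξ‖ ^ 2 ≤ 25 * (‖(trivCocycle G).lam T ξ - ξ‖ ^ 2 + ‖(trivCocycle G).lam S ξ - ξ‖ ^ 2) := by
  have h5 : ‖ξ‖ ^ 2 ≤ ‖cutE E ξ‖ ^ 2 + ‖cutE F ξ‖ ^ 2 := by
    rw [norm_sq_ell2, norm_cutE_sq, norm_cutE_sq,
      ← (summable_indicator E ξ).tsum_add (summable_indicator F ξ)]
    refine (summable_sq ξ).tsum_le_tsum (fun i => ?_)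
      ((summable_indicator E ξ).add (summable_indicator F ξ))
    have hpos : 0 ≤ ‖ξ i‖ ^ 2 := by positivity
    have hE : 0 ≤ E.indicator (fun i => ‖ξ i‖ ^ 2) i := Set.indicator_nonneg (fun _ _ => by positivity) i
    have hF : 0 ≤ F.indicator (fun i => ‖ξ i‖ ^ 2) i := Set.indicator_nonneg (fun _ _ => by positivity) i
    rcases hEF i with h | h
    · rw [Set.indicator_of_mem h]; linarith
    · rw [Set.indicator_of_mem (s := F) h]; linarith
  have hT : 0 ≤ ‖(trivCocycle G).lam T ξ - ξ‖ ^ 2 := by positivity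
  have hS : 0 ≤ ‖(trivCocycle G).lam S ξ - ξ‖ ^ 2 := by positivity
  rcases le_total (‖cutE F ξ‖ ^ 2) (‖cutE E ξ‖ ^ 2) with h6 | h6
  · have := pp_two T E h1 h2 ξ (by linarith)
    linarith
  · have := pp_two S F h3 h4 ξ (by linarith)
    linarith

theorem norm_three {V : Type*} [SeminormedAddCommGroup V] [InnerProductSpace ℂ V] (a b c : V) :
    ‖a + b + c‖ ^ 2 + ‖b - a‖ ^ 2 + ‖c - a‖ ^ 2 + ‖b - c‖ ^ 2 =
      3 * (‖a‖ ^ 2 + ‖b‖ ^ 2 + ‖c‖ ^ 2) := by
  rw [@norm_add_sq ℂ, @norm_add_sq ℂ, @norm_sub_sq ℂ, @norm_sub_sq ℂ, @norm_sub_sq ℂ,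
    inner_add_left, map_add, inner_re_symm b a, inner_re_symm c a]
  ring

/-- the operator `1 + λ(T) + λ(S)` -/
theorem gap_op (T S : G) (hgap : ∀ ξ : ell2 G, ‖ξ‖ ^ 2 ≤
    25 * (‖(trivCocycle G).lam T ξ - ξ‖ ^ 2 + ‖(trivCocycle G).lam S ξ - ξ‖ ^ 2)) (ξ : ell2 G) :
    ‖ξ + (trivCocycle G).lam T ξ + (trivCocycle G).lam S ξ‖ ^ 2 ≤ (224 / 25) * ‖ξ‖ ^ 2 := by
  have h := norm_three ξ ((trivCocycle G).lam T ξ) ((trivCocycle G).lam S ξ)
  rw [norm_lam, norm_lam] at h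
  have h1 := hgap ξ
  have h2 : 0 ≤ ‖(trivCocycle G).lam T ξ - (trivCocycle G).lam S ξ‖ ^ 2 := by positivity
  linarith

end

end Pool.Agent.HomRU
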