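import Pool.Agent.HomRU.Reindex

set_option autoImplicit false
set_option linter.unusedSectionVars false
set_option linter.style.haveILetI false

open scoped InnerProductSpace ComplexConjugate
open Filter Topology

namespace Pool.Agent.HomRU

section CFC

/-- `t ↦ 1/(1+t²)` -/
noncomputable def rF (t : ℝ) : ℝ := (1 + t * t)⁻¹

/-- `t ↦ 2t/(1+t²)` -/
noncomputable def fF (t : ℝ) : ℝ := 2 * (t * rF t)

/-- the inverse of `fF` on `[-1,1]` -/
noncomputable def gF (s : ℝ) : ℝ := s / (1 + Real.sqrt (1 - s * s))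

theorem pos1 (t : ℝ) : 0 < 1 + t * t := by nlinarith [mul_self_nonneg t]

theorem rF_continuous : Continuous rF := by
  unfold rF
  exact (by fun_prop : Continuous fun t : ℝ => 1 + t * t).inv₀ (fun t => (pos1 t).ne')

theorem fF_continuous : Continuous fF := by
  unfold fF
  exact continuous_const.mul (continuous_id.mul rF_continuous)

theorem gF_continuous : Continuous gF := by
  unfold gF
  refine continuous_id.div (by fun_prop) (fun t => ?_)
  have := Real.sqrt_nonneg (1 - t * t)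
  positivity

theorem fF_gF {s : ℝ} (h : |s| ≤ 1) : fF (gF s) = s := by
  have h1 : 0 ≤ 1 - s * s := by
    have := abs_le.1 h
    nlinarith
  have h2 := Real.sqrt_nonneg (1 - s * s)
  have h3 := Real.mul_self_sqrt h1
  unfold fF rF gF
  set c := Real.sqrt (1 - s * s) with hc
  have h4 : 0 < 1 + c := by positivity
  have h5 : 0 < 1 + s / (1 + c) * (s / (1 + c)) := pos1 _
  have h6 : 1 + s / (1 + c) * (s / (1 + c)) = 2 / (1 + c) := by
    rw [div_mul_div_comm, eq_div_iff h4.ne', add_mul, one_mul, div_mul_eq_mul_div,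
      mul_div_mul_right _ _ h4.ne']
    rw [← eq_sub_iff_add_eq', div_eq_iff h4.ne']
    nlinarith
  rw [h6]
  field_simp

theorem rF_nonneg (t : ℝ) : 0 ≤ rF t := inv_nonneg.2 (pos1 t).le

theorem rF_le (t : ℝ) : ‖rF t‖ ≤ 1 := by
  rw [Real.norm_of_nonneg (rF_nonneg t)]
  unfold rF
  apply inv_le_one_of_one_le₀
  nlinarith [mul_self_nonneg t]

theorem trF_le (t : ℝ) : ‖t * rF t‖ ≤ 1 := by
  unfold rF
  rw [norm_mul, norm_inv, Real.norm_of_nonneg (pos1 t).le,
    Real.norm_eq_abs, ← div_eq_mul_inv, div_le_one (pos1 t)]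
  nlinarith [abs_nonneg t, abs_mul_abs_self t, sq_nonneg (|t| - 1)]

theorem fF_le (t : ℝ) : ‖fF t‖ ≤ 1 := by
  unfold fF rF
  rw [norm_mul, norm_mul, norm_inv, Real.norm_of_nonneg (pos1 t).le,
    Real.norm_eq_abs t, ← div_eq_mul_inv, Real.norm_of_nonneg (by norm_num : (0:ℝ) ≤ 2),
    mul_div_assoc', div_le_one (pos1 t)]
  nlinarith [abs_nonneg t, abs_mul_abs_self t, sq_nonneg (|t| - 1)]

variable {A : Type*} [CStarAlgebra A]

theorem norm_one_le : ‖(1 : A)‖ ≤ 1 := norm_le_one_of_star_mul (by rw [star_one, one_mul])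

theorem resolvent_left (a : A) (ha : IsSelfAdjoint a) : (1 + a * a) * cfc rF a = 1 := by
  have hr := rF_continuous
  have e1 : cfc (fun t : ℝ => 1 + t * t) a = 1 + a * a := by
    rw [cfc_add (a := a) (fun _ : ℝ => (1 : ℝ)) (fun t : ℝ => t * t), cfc_const_one ℝ a,
      cfc_mul (fun t : ℝ => t) (fun t : ℝ => t) a, cfc_id' ℝ a]
  rw [← e1, ← cfc_mul (fun t : ℝ => 1 + t * t) rF a (by fun_prop) hr.continuousOn,
    ← cfc_const_one ℝ a]
  apply cfc_congr
  intro t _
  show (1 + t * t) * (1 + t * t)⁻¹ = 1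
  exact mul_inv_cancel₀ (pos1 t).ne'

theorem mul_rF (a : A) (ha : IsSelfAdjoint a) : a * cfc rF a = cfc (fun t => t * rF t) a := by
  have hr := rF_continuous
  rw [cfc_mul (fun t : ℝ => t) rF a (by fun_prop) hr.continuousOn, cfc_id' ℝ a]

theorem rF_mul (a : A) (ha : IsSelfAdjoint a) : cfc rF a * a = a * cfc rF a := by
  have hr := rF_continuous
  rw [mul_rF a ha]
  have h := cfc_mul rF (fun t : ℝ => t) a hr.continuousOn (by fun_prop)
  rw [cfc_id' ℝ a] at h
  rw [← h]
  congr 1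
  funext t
  exact mul_comm _ _

theorem norm_cfc_rF (a : A) : ‖cfc rF a‖ ≤ 1 := norm_cfc_le zero_le_one fun t _ => rF_le t

theorem norm_mul_rF (a : A) (ha : IsSelfAdjoint a) : ‖a * cfc rF a‖ ≤ 1 := by
  rw [mul_rF a ha]
  exact norm_cfc_le zero_le_one fun t _ => trF_le t

theorem cfc_fF (a : A) (ha : IsSelfAdjoint a) : cfc fF a = (2 : ℂ) • (a * cfc rF a) := by
  have hr := rF_continuous
  rw [mul_rF a ha]
  have h : cfc fF a = cfc (fun t => t * rF t + t * rF t) a := by
    apply cfc_congr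
    intro t _
    show 2 * (t * rF t) = _
    ring
  rw [h, cfc_add (a := a) (fun t : ℝ => t * rF t) (fun t : ℝ => t * rF t)
    (continuous_id.mul hr).continuousOn (continuous_id.mul hr).continuousOn, two_smul]

theorem cfc_lipschitz (τ : TracialState A) (a b : A) (ha : IsSelfAdjoint a) (hb : IsSelfAdjoint b) :
    τ.norm2 (cfc fF a - cfc fF b) ≤ 4 * τ.norm2 (a - b) := by
  set R := cfc rF a with hR
  set R' := cfc rF b with hR'
  have h1 : R * (1 + a * a) = 1 := by
    have h := resolvent_left a ha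
    have hc := rF_mul a ha
    rw [← hR] at h hc
    rw [mul_add, mul_one, ← mul_assoc, hc, mul_assoc, hc, ← mul_assoc]
    rw [add_mul, one_mul] at h
    exact h
  have h2 : (1 + b * b) * R' = 1 := resolvent_left b hb
  have e : a * R - b * R' = R * ((a - b) * R') - (R * a) * ((a - b) * (b * R')) := by
    calc a * R - b * R' = R * a * ((1 + b * b) * R') - (R * (1 + a * a)) * b * R' := by
          rw [h1, h2, mul_one, one_mul, hR, rF_mul a ha]
      _ = _ := by noncomm_ring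
  have e2 : cfc fF a - cfc fF b = (2 : ℂ) • (a * R - b * R') := by
    rw [cfc_fF a ha, cfc_fF b hb, smul_sub]
  have hn := τ.norm2_nonneg (a - b)
  have b1 : τ.norm2 (R * ((a - b) * R')) ≤ τ.norm2 (a - b) := by
    refine (τ.norm2_mul_le_left _ _).trans ?_
    refine le_trans (mul_le_mul (norm_cfc_rF a) (τ.norm2_mul_le_right _ _) (τ.norm2_nonneg _)
      zero_le_one) ?_
    rw [one_mul]
    exact mul_le_of_le_one_right hn (norm_cfc_rF b)
  have b2 : τ.norm2 ((R * a) * ((a - b) * (b * R'))) ≤ τ.norm2 (a - b) := by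
    refine (τ.norm2_mul_le_left _ _).trans ?_
    have h3 : ‖R * a‖ ≤ 1 := by rw [hR, rF_mul a ha]; exact norm_mul_rF a ha
    refine le_trans (mul_le_mul h3 (τ.norm2_mul_le_right _ _) (τ.norm2_nonneg _) zero_le_one) ?_
    rw [one_mul]
    exact mul_le_of_le_one_right hn (norm_mul_rF b hb)
  rw [e2, τ.norm2_smul, e]
  have b3 := τ.norm2_sub_le (R * ((a - b) * R')) ((R * a) * ((a - b) * (b * R')))
  have : ‖(2 : ℂ)‖ = 2 := by norm_num
  rw [this]
  linarith

theorem cfc_inverse (x : A) (hx : IsSelfAdjoint x) (h1 : ‖x‖ ≤ 1) : cfc fF (cfc gF x) = x := by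
  rw [← cfc_comp' fF gF x fF_continuous.continuousOn gF_continuous.continuousOn]
  conv_rhs => rw [← cfc_id' ℝ x]
  apply cfc_congr
  intro t ht
  apply fF_gF
  have h2 := spectrum.norm_le_norm_mul_of_mem ht
  rw [Real.norm_eq_abs] at h2
  refine h2.trans ?_
  nlinarith [norm_nonneg x, norm_nonneg (1 : A), norm_one_le (A := A)]

end CFC

section Approx

variable {Γ : Type} [Group Γ]

/-- the adjoint in the group algebra -/
noncomputable def starC (c : MonoidAlgebra ℂ Γ) : MonoidAlgebra ℂ Γ :=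
  ∑ g ∈ c.coeff.support, MonoidAlgebra.single g⁻¹ (conj (c.coeff g))

theorem ext_starC {A : Type*} [Ring A] [StarRing A] [Algebra ℂ A] [StarModule ℂ A] {ρ : Γ →* A}
    (hρ : IsUnitaryRep ρ) (c : MonoidAlgebra ℂ Γ) : ext ρ (starC c) = star (ext ρ c) := by
  unfold starC
  rw [map_sum, ext_eq_sum ρ c, star_sum]
  refine Finset.sum_congr rfl fun g _ => ?_
  rw [ext_single, star_smul, hρ]
  rfl

theorem norm_ext_le {A : Type*} [CStarAlgebra A] {ρ : Γ →* A} (hρ : IsUnitaryRep ρ)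
    (c : MonoidAlgebra ℂ Γ) : ‖ext ρ c‖ ≤ ∑ g ∈ c.coeff.support, ‖c.coeff g‖ := by
  rw [ext_eq_sum]
  refine (norm_sum_le _ _).trans (Finset.sum_le_sum fun g _ => ?_)
  rw [norm_smul]
  exact mul_le_of_le_one_right (norm_nonneg _) (norm_le_one_of_star_mul (hρ.star_mul_self g))

/-- `x` can be approximated in `2`-norm by group algebra elements which are uniformly bounded in
all unitary representations. -/
def Approx (x : (trivCocycle Γ).Alg) : Prop :=
  ∃ (c : ℕ → MonoidAlgebra ℂ Γ) (C : ℝ),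
    Tendsto (fun m => (trivCocycle Γ).tr.norm2 (x - ext (lamHom Γ) (c m))) atTop (𝓝 0) ∧
    ∀ m (A : Type) (_ : CStarAlgebra A) (ρ : Γ →* A), IsUnitaryRep ρ → ‖ext ρ (c m)‖ ≤ C

theorem Approx.add {x y : (trivCocycle Γ).Alg} (hx : Approx x) (hy : Approx y) :
    Approx (x + y) := by
  obtain ⟨c, C, h1, h2⟩ := hx
  obtain ⟨d, D, h3, h4⟩ := hy
  refine ⟨fun m => c m + d m, C + D, ?_, ?_⟩
  · have h := h1.add h3
    rw [add_zero] at h
    refine squeeze_zero (fun m => TracialState.norm2_nonneg _ _) (fun m => ?_) h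
    rw [map_add, add_sub_add_comm]
    exact TracialState.norm2_add_le _ _ _
  · intro m A _ ρ hρ
    rw [map_add]
    exact (norm_add_le _ _).trans (add_le_add (h2 m A _ ρ hρ) (h4 m A _ ρ hρ))

theorem Approx.smul {x : (trivCocycle Γ).Alg} (hx : Approx x) (r : ℂ) : Approx (r • x) := by
  obtain ⟨c, C, h1, h2⟩ := hx
  refine ⟨fun m => r • c m, ‖r‖ * C, ?_, ?_⟩
  · have h := h1.const_mul ‖r‖
    rw [mul_zero] at h
    refine h.congr fun m => ?_
    rw [map_smul, ← smul_sub, TracialState.norm2_smul]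
  · intro m A _ ρ hρ
    rw [map_smul, norm_smul]
    exact mul_le_mul_of_nonneg_left (h2 m A _ ρ hρ) (norm_nonneg _)

/-- symmetric truncations -/
theorem exists_symm_trunc (z : (trivCocycle Γ).Alg) (hz : IsSelfAdjoint z) (ε : ℝ) (hε : 0 < ε) :
    ∃ c : MonoidAlgebra ℂ Γ,
      (∀ (A : Type) (_ : CStarAlgebra A) (ρ : Γ →* A), IsUnitaryRep ρ → IsSelfAdjoint (ext ρ c)) ∧
      IsSelfAdjoint (ext (lamHom Γ) c) ∧
      (trivCocycle Γ).tr.norm2 (z - ext (lamHom Γ) c) < ε := by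
  have h1 := ((trivCocycle Γ).tendsto_trunc z).eventually (gt_mem_nhds hε)
  obtain ⟨F, hF⟩ := h1.exists
  set d : MonoidAlgebra ℂ Γ := ∑ g ∈ F, MonoidAlgebra.single g ((trivCocycle Γ).ev z g) with hd
  have hd1 : ext (lamHom Γ) d = (trivCocycle Γ).trunc z F := by
    rw [hd, map_sum]
    simp_rw [ext_single]
    rfl
  rw [← hd1] at hF
  have hsa : ∀ (A : Type) (_ : CStarAlgebra A) (ρ : Γ →* A), IsUnitaryRep ρ →
      ext ρ ((1 / 2 : ℂ) • (d + starC d)) = (1 / 2 : ℂ) • (ext ρ d + star (ext ρ d)) := by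
    intro A _ ρ hρ
    rw [map_smul, map_add, ext_starC hρ]
  have hsa' : ∀ (A : Type) (_ : CStarAlgebra A) (ρ : Γ →* A), IsUnitaryRep ρ →
      IsSelfAdjoint (ext ρ ((1 / 2 : ℂ) • (d + starC d))) := by
    intro A _ ρ hρ
    rw [hsa A _ ρ hρ]
    show star _ = _
    rw [star_smul, star_add, star_star, add_comm]
    congr 1
    simp
  refine ⟨(1 / 2 : ℂ) • (d + starC d), hsa', hsa' _ _ _ lamHom_unitary, ?_⟩
  rw [hsa _ _ _ lamHom_unitary]
  have e : z - (1 / 2 : ℂ) • (ext (lamHom Γ) d + star (ext (lamHom Γ) d)) =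
      (1 / 2 : ℂ) • ((z - ext (lamHom Γ) d) + star (z - ext (lamHom Γ) d)) := by
    rw [star_sub, hz.star_eq, sub_add_sub_comm, smul_sub, ← two_smul ℂ z, smul_smul]
    norm_num
  rw [e, TracialState.norm2_smul]
  have h2 := (trivCocycle Γ).tr.norm2_add_le (z - ext (lamHom Γ) d) (star (z - ext (lamHom Γ) d))
  rw [TracialState.norm2_star] at h2
  have h3 : ‖(1 / 2 : ℂ)‖ = 1 / 2 := by norm_num
  rw [h3]
  linarith

/-- one step of the approximation -/
theorem approx_step (x : (trivCocycle Γ).Alg) (hx : IsSelfAdjoint x) (h1 : ‖x‖ ≤ 1) (ε : ℝ)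
    (hε : 0 < ε) (hε1 : ε ≤ 1) : ∃ c : MonoidAlgebra ℂ Γ,
      (trivCocycle Γ).tr.norm2 (x - ext (lamHom Γ) c) ≤ 5 * ε ∧
      ∀ (A : Type) (_ : CStarAlgebra A) (ρ : Γ →* A), IsUnitaryRep ρ → ‖ext ρ c‖ ≤ 2 := by
  set z := cfc gF x with hz
  have hzsa : IsSelfAdjoint z := cfc_predicate gF x
  have hzx : cfc fF z = x := cfc_inverse x hx h1
  obtain ⟨d, hd1, hd2, hd3⟩ := exists_symm_trunc z hzsa ε hε
  set L := ∑ g ∈ d.coeff.support, ‖d.coeff g‖ with hL
  obtain ⟨p, hp⟩ := exists_polynomial_near_of_continuousOn (-L) L fF fF_continuous.continuousOn ε hε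
  set c := Polynomial.aeval d (p.map (algebraMap ℝ ℂ)) with hc
  have key : ∀ (A : Type) (_ : CStarAlgebra A) (ρ : Γ →* A), IsUnitaryRep ρ →
      IsSelfAdjoint (ext ρ d) → ‖ext ρ c - cfc fF (ext ρ d)‖ ≤ ε := by
    intro A _ ρ hρ hsa
    have e : ext ρ c = cfc (fun t : ℝ => p.eval t) (ext ρ d) := by
      rw [cfc_polynomial p (ext ρ d) hsa, hc, ← Polynomial.aeval_algHom_apply,
        Polynomial.aeval_map_algebraMap]
    rw [e, ← cfc_sub (fun t : ℝ => p.eval t) fF (ext ρ d) p.continuous.continuousOn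
      fF_continuous.continuousOn]
    refine norm_cfc_le hε.le fun t ht => ?_
    rw [Real.norm_eq_abs]
    apply le_of_lt
    apply hp
    have h2 := spectrum.norm_le_norm_mul_of_mem ht
    have h3 := norm_ext_le hρ d
    rw [Real.norm_eq_abs] at h2
    have h4 : |t| ≤ L := by
      refine h2.trans (le_trans ?_ h3)
      exact mul_le_of_le_one_right (norm_nonneg _) norm_one_le
    exact abs_le.1 h4
  refine ⟨c, ?_, ?_⟩
  · have h2 := key _ _ _ lamHom_unitary hd2
    have h3 := cfc_lipschitz (trivCocycle Γ).tr z (ext (lamHom Γ) d) hzsa hd2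
    rw [hzx] at h3
    have h4 := (trivCocycle Γ).tr.norm2_le_norm (ext (lamHom Γ) c - cfc fF (ext (lamHom Γ) d))
    have e : x - ext (lamHom Γ) c = (x - cfc fF (ext (lamHom Γ) d)) -
      (ext (lamHom Γ) c - cfc fF (ext (lamHom Γ) d)) := by abel
    have h5 := (trivCocycle Γ).tr.norm2_sub_le (x - cfc fF (ext (lamHom Γ) d))
      (ext (lamHom Γ) c - cfc fF (ext (lamHom Γ) d))
    rw [← e] at h5
    linarith
  · intro A _ ρ hρ
    have h2 := key A _ ρ hρ (hd1 A _ ρ hρ)
    have h3 : ‖cfc fF (ext ρ d)‖ ≤ 1 := norm_cfc_le zero_le_one fun t _ => fF_le t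
    have e : ext ρ c = (ext ρ c - cfc fF (ext ρ d)) + cfc fF (ext ρ d) := by abel
    rw [e]
    exact (norm_add_le _ _).trans (by linarith)

theorem approx_selfAdjoint_one (x : (trivCocycle Γ).Alg) (hx : IsSelfAdjoint x) (h1 : ‖x‖ ≤ 1) :
    Approx x := by
  have h2 : ∀ m : ℕ, ∃ c : MonoidAlgebra ℂ Γ,
      (trivCocycle Γ).tr.norm2 (x - ext (lamHom Γ) c) ≤ 5 * (1 / ((m : ℝ) + 1)) ∧
      ∀ (A : Type) (_ : CStarAlgebra A) (ρ : Γ →* A), IsUnitaryRep ρ → ‖ext ρ c‖ ≤ 2 := by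
    intro m
    refine approx_step x hx h1 _ (by positivity) ?_
    rw [div_le_one (by positivity)]
    have : (0 : ℝ) ≤ m := Nat.cast_nonneg m
    linarith
  choose c hc1 hc2 using h2
  refine ⟨c, 2, ?_, hc2⟩
  have h3 : Tendsto (fun m : ℕ => 5 * (1 / ((m : ℝ) + 1))) atTop (𝓝 0) := by
    have := tendsto_one_div_add_atTop_nhds_zero_nat.const_mul (5 : ℝ)
    rwa [mul_zero] at this
  exact squeeze_zero (fun m => TracialState.norm2_nonneg _ _) hc1 h3

theorem approx_selfAdjoint (x : (trivCocycle Γ).Alg) (hx : IsSelfAdjoint x) : Approx x := by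
  have h0 : (0 : ℝ) < ‖x‖ + 1 := by positivity
  have h1 : IsSelfAdjoint ((((‖x‖ + 1)⁻¹ : ℝ) : ℂ) • x) := by
    show star _ = _
    rw [star_smul, hx.star_eq]
    congr 1
    exact Complex.conj_ofReal _
  have h2 : ‖(((‖x‖ + 1)⁻¹ : ℝ) : ℂ) • x‖ ≤ 1 := by
    rw [norm_smul, Complex.norm_real, Real.norm_of_nonneg (by positivity), inv_mul_le_one₀ h0]
    linarith
  have h3 := (approx_selfAdjoint_one _ h1 h2).smul (((‖x‖ + 1 : ℝ)) : ℂ)
  rw [smul_smul, ← Complex.ofReal_mul, mul_inv_cancel₀ h0.ne', Complex.ofReal_one, one_smul] at h3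
  exact h3

/-- The tracial Kaplansky density theorem for group von Neumann algebras. -/
theorem approx_all (x : (trivCocycle Γ).Alg) : Approx x := by
  have h := realPart_add_I_smul_imaginaryPart x
  rw [← h]
  exact (approx_selfAdjoint _ (realPart x).2).add
    ((approx_selfAdjoint _ (imaginaryPart x).2).smul Complex.I)

end Approx

end Pool.Agent.HomRU
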