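import Pool.Agent.HomRU.Statement

set_option autoImplicit false
set_option linter.unusedSectionVars false
set_option linter.style.haveILetI false

open Filter Topology

namespace Pool.Agent.HomRU

section

variable {A : Type*} [CStarAlgebra A] (τ : TracialState A) (𝒰 : Ultrafilter ℕ)
variable {M : Type*} [CStarAlgebra M]

/-- Unital `*`-homomorphisms into the ultrapower are contractive for `‖·‖ → ‖·‖₂`. -/
theorem norm2_hom_le (π : UHom τ 𝒰 M) (a : M) : (Ultrapower.trace τ 𝒰).norm2 (π a) ≤ ‖a‖ := by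
  obtain ⟨c, hc⟩ := TracialState.exists_star_mul_self_add a
  have h1 := congrArg π hc
  rw [map_add, map_mul, map_mul, map_star, map_star, AlgHomClass.commutes] at h1
  have h2 := congrArg (fun z => ((Ultrapower.trace τ 𝒰).toLin z).re) h1
  simp only [map_add, Complex.add_re] at h2
  rw [Algebra.algebraMap_eq_smul_one, map_smul, (Ultrapower.trace τ 𝒰).map_one, smul_eq_mul,
    mul_one, Complex.ofReal_re, ← TracialState.norm2_sq] at h2
  have h3 := (Ultrapower.trace τ 𝒰).re_nonneg (π c)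
  exact le_of_sq_le_sq (by linarith) (norm_nonneg _)

/-- Apply a `*`-homomorphism termwise to a bounded sequence. -/
noncomputable def liftSeq (ψ : A →⋆ₙₐ[ℂ] A) : BddSeq A →⋆ₙₐ[ℂ] BddSeq A where
  toFun x := ⟨fun n => ψ (x.1 n), by
    obtain ⟨C, hC⟩ := x.2
    exact ⟨C, fun n => (NonUnitalStarAlgHom.norm_apply_le ψ _).trans (hC n)⟩⟩
  map_smul' c x := Subtype.ext (funext fun n => map_smul ψ c (x.1 n))
  map_zero' := Subtype.ext (funext fun n => map_zero ψ)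
  map_add' x y := Subtype.ext (funext fun n => map_add ψ (x.1 n) (y.1 n))
  map_mul' x y := Subtype.ext (funext fun n => map_mul ψ (x.1 n) (y.1 n))
  map_star' x := Subtype.ext (funext fun n => map_star ψ (x.1 n))

/-- The map induced on the ultrapower by a `*`-homomorphism which does not increase `‖·‖₂`. -/
noncomputable def ultraFun (ψ : A →⋆ₙₐ[ℂ] A) (hψ : ∀ x, τ.norm2 (ψ x) ≤ τ.norm2 x) :
    Ultrapower τ 𝒰 → Ultrapower τ 𝒰 :=
  Quotient.lift (fun x : BddSeq A => Ultrapower.mk τ 𝒰 (liftSeq ψ x)) (by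
    intro x y h
    have h1 : Ultrapower.mk τ 𝒰 x = Ultrapower.mk τ 𝒰 y := Quotient.sound h
    rw [Ultrapower.mk_eq_iff] at h1 ⊢
    refine squeeze_zero (fun n => τ.norm2_nonneg _) (fun n => ?_) h1
    refine le_trans (le_of_eq ?_) (hψ (x.1 n - y.1 n))
    rw [map_sub]
    rfl)

theorem ultraFun_mk (ψ : A →⋆ₙₐ[ℂ] A) (hψ : ∀ x, τ.norm2 (ψ x) ≤ τ.norm2 x) (x : BddSeq A) :
    ultraFun τ 𝒰 ψ hψ (Ultrapower.mk τ 𝒰 x) = Ultrapower.mk τ 𝒰 (liftSeq ψ x) := rfl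

/-- The induced map as a `*`-homomorphism. -/
noncomputable def ultraMap (ψ : A →⋆ₙₐ[ℂ] A) (hψ : ∀ x, τ.norm2 (ψ x) ≤ τ.norm2 x) :
    Ultrapower τ 𝒰 →⋆ₙₐ[ℂ] Ultrapower τ 𝒰 where
  toFun := ultraFun τ 𝒰 ψ hψ
  map_smul' c x := by
    obtain ⟨x, rfl⟩ := Ultrapower.mk_surjective τ 𝒰 x
    show ultraFun τ 𝒰 ψ hψ (c • Ultrapower.mk τ 𝒰 x) = c • ultraFun τ 𝒰 ψ hψ _
    rw [← map_smul, ultraFun_mk, ultraFun_mk, map_smul, map_smul]
  map_zero' := by
    rw [← map_zero (Ultrapower.mk τ 𝒰), ultraFun_mk, map_zero]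
  map_add' x y := by
    obtain ⟨x, rfl⟩ := Ultrapower.mk_surjective τ 𝒰 x
    obtain ⟨y, rfl⟩ := Ultrapower.mk_surjective τ 𝒰 y
    rw [← map_add, ultraFun_mk, ultraFun_mk, ultraFun_mk, map_add, map_add]
  map_mul' x y := by
    obtain ⟨x, rfl⟩ := Ultrapower.mk_surjective τ 𝒰 x
    obtain ⟨y, rfl⟩ := Ultrapower.mk_surjective τ 𝒰 y
    rw [← map_mul, ultraFun_mk, ultraFun_mk, ultraFun_mk, map_mul, map_mul]
  map_star' x := by
    obtain ⟨x, rfl⟩ := Ultrapower.mk_surjective τ 𝒰 x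
    rw [← map_star, ultraFun_mk, ultraFun_mk, map_star, map_star]

theorem ultraMap_mk (ψ : A →⋆ₙₐ[ℂ] A) (hψ : ∀ x, τ.norm2 (ψ x) ≤ τ.norm2 x) (x : BddSeq A) :
    ultraMap τ 𝒰 ψ hψ (Ultrapower.mk τ 𝒰 x) = Ultrapower.mk τ 𝒰 (liftSeq ψ x) := rfl

/-- `ψ` is an injective `*`-homomorphism with range `pAp`. -/
def IsCornerHom (p : A) (ψ : A →⋆ₙₐ[ℂ] A) : Prop :=
  Function.Injective ψ ∧ Set.range ψ = {x | p * x * p = x}

theorem IsCornerHom.isCornerIsoSymm {p : A} {ψ : A →⋆ₙₐ[ℂ] A} (h : IsCornerHom p ψ) :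
    IsCornerIsoSymm p ψ :=
  ⟨map_add ψ, map_smul ψ, map_mul ψ, map_star ψ, h.1, h.2⟩

/-- Two complementary halves of `A`, each `*`-isomorphic to `A`, with scaling of the trace. -/
structure Halving (τ : TracialState A) where
  /-- the projection -/
  p : A
  /-- the first embedding -/
  ψ₀ : A →⋆ₙₐ[ℂ] A
  /-- the second embedding -/
  ψ₁ : A →⋆ₙₐ[ℂ] A
  proj : IsStarProjection p
  iso₀ : IsCornerHom p ψ₀
  iso₁ : IsCornerHom (1 - p) ψ₁
  tr₀ : ∀ x, τ.toLin (ψ₀ x) = (1 / 2 : ℂ) * τ.toLin x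
  tr₁ : ∀ x, τ.toLin (ψ₁ x) = (1 / 2 : ℂ) * τ.toLin x

theorem corner_map_one {p : A} (hp : IsStarProjection p) {ψ : A →⋆ₙₐ[ℂ] A}
    (h : IsCornerHom p ψ) : ψ 1 = p := by
  have h1 : p ∈ Set.range ψ := by
    rw [h.2]
    show p * p * p = p
    rw [hp.isIdempotentElem.eq, hp.isIdempotentElem.eq]
  obtain ⟨z, hz⟩ := h1
  have h2 : ψ 1 ∈ Set.range ψ := ⟨1, rfl⟩
  rw [h.2] at h2
  have h2' : p * ψ 1 * p = ψ 1 := h2
  have h3 : p * ψ 1 = ψ 1 := by
    rw [← h2', ← mul_assoc, ← mul_assoc, hp.isIdempotentElem.eq]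
  have h4 : p * ψ 1 = p := by
    conv_lhs => rw [← hz]
    rw [← map_mul, mul_one, hz]
  rw [← h3, h4]

theorem corner_mul {p : A} (hp : IsStarProjection p) {ψ : A →⋆ₙₐ[ℂ] A}
    (h : IsCornerHom p ψ) (x : A) : p * ψ x = ψ x ∧ ψ x * p = ψ x := by
  have h2 : ψ x ∈ Set.range ψ := ⟨x, rfl⟩
  rw [h.2] at h2
  have h2' : p * ψ x * p = ψ x := h2
  constructor
  · conv_lhs => rw [← h2']
    rw [← mul_assoc, ← mul_assoc, hp.isIdempotentElem.eq, h2']
  · conv_lhs => rw [← h2']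
    rw [mul_assoc, hp.isIdempotentElem.eq, h2']

theorem norm2_le_of_tr {ψ : A →⋆ₙₐ[ℂ] A} (h : ∀ x, τ.toLin (ψ x) = (1 / 2 : ℂ) * τ.toLin x)
    (x : A) : τ.norm2 (ψ x) ≤ τ.norm2 x := by
  unfold TracialState.norm2
  apply Real.sqrt_le_sqrt
  rw [← map_star, ← map_mul, h]
  have h1 := τ.re_nonneg x
  have h2 : ((1 / 2 : ℂ) * τ.toLin (star x * x)).re = (1 / 2) * (τ.toLin (star x * x)).re := by
    rw [Complex.mul_re]
    norm_num
  rw [h2]
  linarith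

/-- the constant sequence -/
def constSeq (a : A) : BddSeq A := ⟨fun _ => a, ‖a‖, fun _ => le_rfl⟩

theorem trace_const (a : A) :
    (Ultrapower.trace τ 𝒰).toLin (Ultrapower.mk τ 𝒰 (constSeq a)) = τ.toLin a :=
  Ultrapower.trace_mk_eq τ 𝒰 tendsto_const_nhds

theorem trace_ultraMap {ψ : A →⋆ₙₐ[ℂ] A} (h : ∀ x, τ.toLin (ψ x) = (1 / 2 : ℂ) * τ.toLin x)
    (x : Ultrapower τ 𝒰) :
    (Ultrapower.trace τ 𝒰).toLin (ultraMap τ 𝒰 ψ (norm2_le_of_tr τ h) x) =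
      (1 / 2 : ℂ) * (Ultrapower.trace τ 𝒰).toLin x := by
  obtain ⟨x, rfl⟩ := Ultrapower.mk_surjective τ 𝒰 x
  rw [ultraMap_mk]
  apply Ultrapower.trace_mk_eq
  refine ((Ultrapower.trace_mk τ 𝒰 x).const_mul (1 / 2 : ℂ)).congr fun n => ?_
  exact (h _).symm

theorem isStandardIsoSymm_ultraMap {p : A} (hp : IsStarProjection p) {ψ : A →⋆ₙₐ[ℂ] A}
    (h : IsCornerHom p ψ) (htr : ∀ x, τ.toLin (ψ x) = (1 / 2 : ℂ) * τ.toLin x) :
    IsStandardIsoSymm τ 𝒰 (Ultrapower.mk τ 𝒰 (constSeq p))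
      (ultraMap τ 𝒰 ψ (norm2_le_of_tr τ htr)) := by
  refine ⟨constSeq p, fun _ => ψ, rfl, fun _ => hp, fun _ => ?_, fun _ => h.isCornerIsoSymm,
    fun x y hxy => ?_⟩
  · rw [trace_const]
    rfl
  · rw [ultraMap_mk]
    congr 1
    exact Subtype.ext (funext fun n => (hxy n).symm)

variable {τ}

/-- The midpoint homomorphism `x ↦ θ₀⁻¹(π x) + θ₁⁻¹(ρ x)`. -/
noncomputable def midHom (h : Halving τ) (π ρ : UHom τ 𝒰 M) : UHom τ 𝒰 M where
  toFun x := ultraMap τ 𝒰 h.ψ₀ (norm2_le_of_tr τ h.tr₀) (π x) +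
    ultraMap τ 𝒰 h.ψ₁ (norm2_le_of_tr τ h.tr₁) (ρ x)
  map_one' := by
    rw [map_one π, map_one ρ, ← map_one (Ultrapower.mk τ 𝒰), ultraMap_mk, ultraMap_mk, ← map_add]
    congr 1
    apply Subtype.ext
    funext n
    show h.ψ₀ 1 + h.ψ₁ 1 = 1
    rw [corner_map_one h.proj h.iso₀, corner_map_one h.proj.one_sub h.iso₁]
    abel
  map_mul' x y := by
    have hcross0 : ∀ a b : Ultrapower τ 𝒰, ultraMap τ 𝒰 h.ψ₀ (norm2_le_of_tr τ h.tr₀) a *
        ultraMap τ 𝒰 h.ψ₁ (norm2_le_of_tr τ h.tr₁) b = 0 := by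
      intro a b
      obtain ⟨a, rfl⟩ := Ultrapower.mk_surjective τ 𝒰 a
      obtain ⟨b, rfl⟩ := Ultrapower.mk_surjective τ 𝒰 b
      rw [ultraMap_mk, ultraMap_mk, ← map_mul, ← map_zero (Ultrapower.mk τ 𝒰)]
      congr 1
      apply Subtype.ext
      funext n
      show h.ψ₀ (a.1 n) * h.ψ₁ (b.1 n) = 0
      rw [← (corner_mul h.proj h.iso₀ (a.1 n)).2, ← (corner_mul h.proj.one_sub h.iso₁ (b.1 n)).1,
        mul_assoc, ← mul_assoc h.p, mul_sub, mul_one, h.proj.isIdempotentElem.eq, sub_self,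
        zero_mul, mul_zero]
    have hcross1 : ∀ a b : Ultrapower τ 𝒰, ultraMap τ 𝒰 h.ψ₁ (norm2_le_of_tr τ h.tr₁) a *
        ultraMap τ 𝒰 h.ψ₀ (norm2_le_of_tr τ h.tr₀) b = 0 := by
      intro a b
      obtain ⟨a, rfl⟩ := Ultrapower.mk_surjective τ 𝒰 a
      obtain ⟨b, rfl⟩ := Ultrapower.mk_surjective τ 𝒰 b
      rw [ultraMap_mk, ultraMap_mk, ← map_mul, ← map_zero (Ultrapower.mk τ 𝒰)]
      congr 1
      apply Subtype.ext
      funext n
      show h.ψ₁ (a.1 n) * h.ψ₀ (b.1 n) = 0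
      rw [← (corner_mul h.proj.one_sub h.iso₁ (a.1 n)).2, ← (corner_mul h.proj h.iso₀ (b.1 n)).1,
        mul_assoc, ← mul_assoc (1 - h.p), sub_mul, one_mul, h.proj.isIdempotentElem.eq, sub_self,
        zero_mul, mul_zero]
    rw [map_mul, map_mul, map_mul, map_mul, mul_add, add_mul, add_mul, hcross0, hcross1]
    abel
  map_zero' := by
    rw [map_zero, map_zero, map_zero, map_zero, add_zero]
  map_add' x y := by
    rw [map_add, map_add, map_add, map_add]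
    abel
  commutes' r := by
    rw [AlgHomClass.commutes π, AlgHomClass.commutes ρ, Algebra.algebraMap_eq_smul_one, map_smul,
      map_smul, ← smul_add]
    congr 1
    rw [← map_one (Ultrapower.mk τ 𝒰), ultraMap_mk, ultraMap_mk, ← map_add]
    congr 1
    apply Subtype.ext
    funext n
    show h.ψ₀ 1 + h.ψ₁ 1 = 1
    rw [corner_map_one h.proj h.iso₀, corner_map_one h.proj.one_sub h.iso₁]
    abel
  map_star' x := by
    rw [map_star, map_star, map_star, map_star, star_add]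

theorem midHom_apply (h : Halving τ) (π ρ : UHom τ 𝒰 M) (x : M) :
    midHom 𝒰 h π ρ x = ultraMap τ 𝒰 h.ψ₀ (norm2_le_of_tr τ h.tr₀) (π x) +
    ultraMap τ 𝒰 h.ψ₁ (norm2_le_of_tr τ h.tr₁) (ρ x) := rfl

theorem norm2_sq_hom (π : UHom τ 𝒰 M) (x : M) : (Ultrapower.trace τ 𝒰).norm2 (π x) ^ 2 =
    ((Ultrapower.trace τ 𝒰).toLin (π (star x * x))).re := by
  rw [TracialState.norm2_sq, map_mul π, map_star π]

theorem norm2_midHom (h : Halving τ) (π ρ : UHom τ 𝒰 M) (x : M) :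
    (Ultrapower.trace τ 𝒰).norm2 (midHom 𝒰 h π ρ x) ^ 2 =
      ((Ultrapower.trace τ 𝒰).norm2 (π x) ^ 2 + (Ultrapower.trace τ 𝒰).norm2 (ρ x) ^ 2) / 2 := by
  rw [norm2_sq_hom, norm2_sq_hom, norm2_sq_hom, midHom_apply, map_add,
    trace_ultraMap τ 𝒰 h.tr₀, trace_ultraMap τ 𝒰 h.tr₁, Complex.add_re, Complex.mul_re, Complex.mul_re]
  norm_num
  ring

theorem isConvexCombination_midHom (h : Halving τ) (π ρ : UHom τ 𝒰 M) :
    IsConvexCombination τ 𝒰 ![(1 / 2 : ℝ), 1 / 2] ![π, ρ] (midHom 𝒰 h π ρ) := by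
  have hp1 : τ.toLin (h.p) = 1 / 2 := by
    rw [← corner_map_one h.proj h.iso₀, h.tr₀, τ.map_one, mul_one]
  have hp2 : τ.toLin (1 - h.p) = 1 / 2 := by
    rw [← corner_map_one h.proj.one_sub h.iso₁, h.tr₁, τ.map_one, mul_one]
  have hmk : ∀ {q : A}, IsStarProjection q →
      IsStarProjection (Ultrapower.mk τ 𝒰 (constSeq q)) := by
    intro q hq
    refine ⟨?_, ?_⟩
    · show Ultrapower.mk τ 𝒰 (constSeq q) * Ultrapower.mk τ 𝒰 (constSeq q) = _
      rw [← map_mul]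
      congr 1
      exact Subtype.ext (funext fun _ => hq.isIdempotentElem.eq)
    · show star (Ultrapower.mk τ 𝒰 (constSeq q)) = _
      rw [← map_star]
      congr 1
      exact Subtype.ext (funext fun _ => hq.isSelfAdjoint.star_eq)
  refine ⟨![Ultrapower.mk τ 𝒰 (constSeq h.p), Ultrapower.mk τ 𝒰 (constSeq (1 - h.p))],
    ![ultraMap τ 𝒰 h.ψ₀ (norm2_le_of_tr τ h.tr₀), ultraMap τ 𝒰 h.ψ₁ (norm2_le_of_tr τ h.tr₁)],
    ?_, ?_, ?_, ?_, ?_⟩
  · intro i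
    fin_cases i
    · exact hmk h.proj
    · exact hmk h.proj.one_sub
  · intro i j hij
    fin_cases i <;> fin_cases j
    · exact absurd rfl hij
    · show Ultrapower.mk τ 𝒰 (constSeq h.p) * Ultrapower.mk τ 𝒰 (constSeq (1 - h.p)) = 0
      rw [← map_mul, ← map_zero (Ultrapower.mk τ 𝒰)]
      congr 1
      refine Subtype.ext (funext fun _ => ?_)
      show h.p * (1 - h.p) = 0
      rw [mul_sub, mul_one, h.proj.isIdempotentElem.eq, sub_self]
    · show Ultrapower.mk τ 𝒰 (constSeq (1 - h.p)) * Ultrapower.mk τ 𝒰 (constSeq h.p) = 0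
      rw [← map_mul, ← map_zero (Ultrapower.mk τ 𝒰)]
      congr 1
      refine Subtype.ext (funext fun _ => ?_)
      show (1 - h.p) * h.p = 0
      rw [sub_mul, one_mul, h.proj.isIdempotentElem.eq, sub_self]
    · exact absurd rfl hij
  · intro i
    fin_cases i
    · show (Ultrapower.trace τ 𝒰).toLin (Ultrapower.mk τ 𝒰 (constSeq h.p)) = ((1 / 2 : ℝ) : ℂ)
      rw [trace_const, hp1]
      norm_num
    · show (Ultrapower.trace τ 𝒰).toLin (Ultrapower.mk τ 𝒰 (constSeq (1 - h.p))) = ((1 / 2 : ℝ) : ℂ)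
      rw [trace_const, hp2]
      norm_num
  · intro i _
    fin_cases i
    · exact isStandardIsoSymm_ultraMap τ 𝒰 h.proj h.iso₀ h.tr₀
    · exact isStandardIsoSymm_ultraMap τ 𝒰 h.proj.one_sub h.iso₁ h.tr₁
  · intro x
    rw [Fin.sum_univ_two]
    have h1 : ¬ (![(1 / 2 : ℝ), 1 / 2] 0 = 0) := by
      show ¬ ((1 / 2 : ℝ) = 0)
      norm_num
    have h2 : ¬ (![(1 / 2 : ℝ), 1 / 2] 1 = 0) := by
      show ¬ ((1 / 2 : ℝ) = 0)
      norm_num
    rw [if_neg h1, if_neg h2]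
    rfl

end

end Pool.Agent.HomRU
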