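import Pool.Agent.HomRU.Flip

set_option autoImplicit false
set_option linter.unusedSectionVars false
set_option linter.style.haveILetI false

open Filter Topology

namespace Pool.Agent.HomRU

/-- A unitary representation: a homomorphism to a `*`-ring with `ρ(g)* = ρ(g⁻¹)`. -/
def IsUnitaryRep {Γ A : Type*} [Group Γ] [Ring A] [StarRing A] (ρ : Γ →* A) : Prop :=
  ∀ g, star (ρ g) = ρ g⁻¹

section

variable {Γ A : Type*} [Group Γ] [Ring A] [StarRing A] {ρ : Γ →* A}

theorem IsUnitaryRep.star_mul_self (h : IsUnitaryRep ρ) (g : Γ) : star (ρ g) * ρ g = 1 := by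
  rw [h, ← map_mul, inv_mul_cancel, map_one]

theorem IsUnitaryRep.mul_star_self (h : IsUnitaryRep ρ) (g : Γ) : ρ g * star (ρ g) = 1 := by
  rw [h, ← map_mul, mul_inv_cancel, map_one]

end

theorem norm_le_one_of_star_mul {A : Type*} [CStarAlgebra A] {a : A} (h : star a * a = 1) :
    ‖a‖ ≤ 1 := by
  have h1 : ‖a‖ * ‖a‖ = ‖(1 : A)‖ := by rw [← CStarRing.norm_star_mul_self, h]
  have h2 : ‖(1 : A)‖ ≤ 1 := by
    rcases subsingleton_or_nontrivial A with h3 | h3
    · rw [Subsingleton.elim (1 : A) 0, norm_zero]; exact zero_le_one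
    · rw [CStarRing.norm_one]
  nlinarith [norm_nonneg a]

namespace MatUnits

variable {A : Type*} [CStarAlgebra A] {τ : TracialState A} {X : Type} [Fintype X] [DecidableEq X]
  (U : MatUnits τ X)

/-- permutation matrices -/
noncomputable def perm : Equiv.Perm X →* A where
  toFun σ := ∑ v, U.E (σ v) v
  map_one' := U.sum
  map_mul' σ σ' := by
    rw [Finset.sum_mul]
    simp_rw [Finset.mul_sum, U.mul]
    rw [Finset.sum_comm]
    refine Finset.sum_congr rfl fun w _ => ?_
    rw [Finset.sum_ite_eq' Finset.univ (σ' w) (fun v => U.E (σ v) w), if_pos (Finset.mem_univ _)]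
    rfl

theorem perm_apply (σ : Equiv.Perm X) : U.perm σ = ∑ v, U.E (σ v) v := rfl

theorem star_perm (σ : Equiv.Perm X) : star (U.perm σ) = U.perm σ⁻¹ := by
  rw [perm_apply, perm_apply, star_sum]
  simp_rw [U.star_E]
  rw [← Equiv.sum_comp σ (fun w => U.E (σ⁻¹ w) w)]
  refine Finset.sum_congr rfl fun w _ => ?_
  rw [show σ⁻¹ (σ w) = w from σ.symm_apply_apply w]

theorem tr_perm (σ : Equiv.Perm X) :
    τ.toLin (U.perm σ) = ((Finset.univ.filter (fun v => σ v = v)).card : ℂ) / Fintype.card X := by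
  rw [perm_apply, map_sum]
  simp_rw [U.tr]
  rw [← Finset.sum_filter, Finset.sum_const, nsmul_eq_mul, mul_one_div]

end MatUnits

end Pool.Agent.HomRU
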