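import Pool.Agent.HomRU.Gap
import Pool.Agent.HomRU.PermRep

set_option autoImplicit false
set_option linter.unusedSectionVars false
set_option linter.style.haveILetI false

open scoped InnerProductSpace
open Filter Topology

namespace Pool.Agent.HomRU

section

variable {Γ : Type*} [Group Γ]

/-- the extension of a representation to the group algebra -/
noncomputable def ext {A : Type*} [Ring A] [Algebra ℂ A] (ρ : Γ →* A) : MonoidAlgebra ℂ Γ →ₐ[ℂ] A :=
  MonoidAlgebra.lift ℂ A Γ ρ

theorem ext_eq_sum {A : Type*} [Ring A] [Algebra ℂ A] (ρ : Γ →* A) (c : MonoidAlgebra ℂ Γ) :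
    ext ρ c = ∑ g ∈ c.coeff.support, c.coeff g • ρ g :=
  MonoidAlgebra.lift_apply ρ c

theorem ext_single {A : Type*} [Ring A] [Algebra ℂ A] (ρ : Γ →* A) (g : Γ) (z : ℂ) :
    ext ρ (MonoidAlgebra.single g z) = z • ρ g := MonoidAlgebra.lift_single ρ g z

/-- the left regular representation as a homomorphism to the von Neumann algebra -/
noncomputable def lamHom (Γ : Type*) [Group Γ] : Γ →* (trivCocycle Γ).Alg where
  toFun := (trivCocycle Γ).u
  map_one' := (trivCocycle Γ).u_one
  map_mul' g h := by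
    rw [SignCocycle.u_mul_u]
    show _ = sg 1 • _
    rw [sg_one, one_smul]

theorem lamHom_apply (g : Γ) : lamHom Γ g = (trivCocycle Γ).u g := rfl

theorem lamHom_unitary : IsUnitaryRep (lamHom Γ) := by
  intro g
  rw [lamHom_apply, lamHom_apply, SignCocycle.star_u]
  show sg 1 • _ = _
  rw [sg_one, one_smul]

theorem ev_ext (c : MonoidAlgebra ℂ Γ) (g : Γ) :
    (trivCocycle Γ).ev (ext (lamHom Γ) c) g = c.coeff g := by
  classical
  rw [ext_eq_sum, SignCocycle.ev_sum]
  have h1 : (∑ h ∈ c.coeff.support, (trivCocycle Γ).ev (c.coeff h • lamHom Γ h) : ell2 Γ) =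
      ∑ h ∈ c.coeff.support, c.coeff h • dl h := by
    refine Finset.sum_congr rfl fun h _ => ?_
    rw [SignCocycle.ev_smul, lamHom_apply, SignCocycle.ev_u]
  rw [h1, ← inner_dl_left, inner_sum]
  simp_rw [inner_smul_right, inner_dl_dl]
  simp only [mul_ite, mul_one, mul_zero]
  rw [Finset.sum_ite_eq]
  split_ifs with h
  · rfl
  · exact (Finsupp.notMem_support_iff.1 h).symm

theorem norm2_ext_sq (c : MonoidAlgebra ℂ Γ) :
    (trivCocycle Γ).tr.norm2 (ext (lamHom Γ) c) ^ 2 = ∑ g ∈ c.coeff.support, ‖c.coeff g‖ ^ 2 := by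
  rw [SignCocycle.norm2_eq, norm_sq_ell2, tsum_eq_sum (s := c.coeff.support)]
  · refine Finset.sum_congr rfl fun g _ => ?_
    rw [ev_ext]
  · intro g hg
    rw [ev_ext, Finsupp.notMem_support_iff.1 hg, norm_zero]
    norm_num

end

section

variable {Γ : Type*} [Group Γ]
variable {Q : Type*} [Ring Q] [StarRing Q] [Algebra ℂ Q] [StarModule ℂ Q] (t : TracialState Q)

/-- the trace of the representation is the delta function -/
def HasDeltaTrace (π : Γ →* Q) : Prop :=
  t.toLin 1 = 1 ∧ ∀ g, g ≠ 1 → t.toLin (π g) = 0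

/-- the two-sided action `x ↦ π(g) x σ(g)*` -/
noncomputable def twoSided (π σ : Γ →* Q) : Γ →* Module.End ℂ Q where
  toFun g :=
    { toFun := fun x => π g * x * σ g⁻¹
      map_add' := fun x y => by rw [mul_add, add_mul]
      map_smul' := fun c x => by rw [mul_smul_comm, smul_mul_assoc]; rfl }
  map_one' := by
    ext x
    show π 1 * x * σ 1⁻¹ = x
    rw [inv_one, map_one, map_one, one_mul, mul_one]
  map_mul' g h := by
    ext x
    show π (g * h) * x * σ (g * h)⁻¹ = π g * (π h * x * σ h⁻¹) * σ g⁻¹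
    rw [mul_inv_rev, map_mul, map_mul]
    simp only [mul_assoc]

theorem twoSided_apply (π σ : Γ →* Q) (g : Γ) (x : Q) :
    twoSided π σ g x = π g * x * σ g⁻¹ := rfl

variable {t}

theorem twoSided_adjoint {π σ : Γ →* Q} (hπ : IsUnitaryRep π) (hσ : IsUnitaryRep σ) (g : Γ)
    (x y : Q) : t.toLin (star x * twoSided π σ g y) = t.toLin (star (twoSided π σ g⁻¹ x) * y) := by
  rw [twoSided_apply, twoSided_apply, star_mul, star_mul, hσ, hπ, inv_inv, inv_inv]
  calc t.toLin (star x * (π g * y * σ g⁻¹)) = t.toLin ((star x * π g * y) * σ g⁻¹) := by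
        simp only [mul_assoc]
    _ = t.toLin (σ g⁻¹ * (star x * π g * y)) := t.tracial _ _
    _ = _ := by simp only [mul_assoc]

theorem norm2_twoSided {π σ : Γ →* Q} (hπ : IsUnitaryRep π) (hσ : IsUnitaryRep σ) (g : Γ) (x : Q) :
    t.norm2 (twoSided π σ g x) = t.norm2 x := by
  rw [twoSided_apply, t.norm2_mul_unitary (hσ.mul_star_self _),
    t.norm2_unitary_mul (hπ.star_mul_self _)]

/-- Bessel's inequality for the coefficients of the two-sided action. -/
theorem bessel {π σ : Γ →* Q} (hπ : IsUnitaryRep π) (ht : HasDeltaTrace t π)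
    (W : Finset Q) (hW : ∀ g, σ g ∈ W) (x : Q) (F : Finset Γ) :
    ∑ g ∈ F, ‖t.toLin (star x * twoSided π σ g x)‖ ^ 2 ≤
      ∑ w ∈ W, t.norm2 (x * w * star x) ^ 2 := by
  classical
  have hortho : Orthonormal ℂ (fun g : Γ => t.toL2 (π g⁻¹)) := by
    rw [orthonormal_iff_ite]
    intro g h
    rw [t.inner_toL2, hπ, inv_inv, ← map_mul]
    by_cases hgh : g = h
    · rw [if_pos hgh, hgh, mul_inv_cancel, map_one]
      exact ht.1
    · rw [if_neg hgh]
      apply ht.2
      rwa [Ne, mul_inv_eq_one]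
  rw [← Finset.sum_fiberwise_of_maps_to (s := F) (t := W) (g := fun g => σ g⁻¹) (fun g _ => hW _)]
  refine Finset.sum_le_sum fun w _ => ?_
  have h1 := hortho.sum_inner_products_le (t.toL2 (x * w * star x))
    (s := F.filter (fun g => σ g⁻¹ = w))
  rw [t.norm_toL2] at h1
  refine le_trans (Finset.sum_le_sum fun g hg => ?_) h1
  have hgw : σ g⁻¹ = w := (Finset.mem_filter.1 hg).2
  rw [t.inner_toL2, twoSided_apply, hgw, hπ, inv_inv]
  have e : t.toLin (star x * (π g * x * w)) = t.toLin (π g * (x * w * star x)) := by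
    rw [t.tracial]
    simp only [mul_assoc]
  rw [e]

/-- The power trick. -/
theorem power_trick (a : ℕ → ℝ) (n κ D : ℝ) (hn : 0 ≤ n) (hκ : 0 < κ)
    (h1 : ∀ m, a m ^ 2 ≤ a (2 * m) * n) (h2 : ∀ m, a m ≤ D * κ ^ m) : a 1 ≤ κ * n := by
  by_contra hcon
  push Not at hcon
  rcases hn.eq_or_lt with hn0 | hn0
  · subst hn0
    have := h1 1
    rw [mul_zero] at this hcon
    nlinarith
  · have h3 : ∀ N : ℕ, (a 1 / n) ^ (2 ^ N) ≤ a (2 ^ N) / n := by
      intro N
      induction N with
      | zero => simp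
      | succ N ih =>
        have h0 : 0 ≤ a 1 / n := div_nonneg (by nlinarith) hn
        have h4 : (a 1 / n) ^ (2 ^ (N + 1)) ≤ (a (2 ^ N) / n) ^ 2 := by
          rw [pow_succ 2 N, pow_mul]
          exact pow_le_pow_left₀ (by positivity) ih 2
        refine h4.trans ?_
        rw [div_pow, div_le_div_iff₀ (by positivity) hn0]
        have h5 := h1 (2 ^ N)
        rw [pow_succ' 2 N]
        nlinarith
    have hr : 1 < a 1 / n / κ := by
      rw [lt_div_iff₀ hκ, lt_div_iff₀ hn0, one_mul]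
      exact hcon
    have h4 : ∀ N : ℕ, (a 1 / n / κ) ^ (2 ^ N) ≤ D / n := by
      intro N
      rw [div_pow _ κ, div_le_iff₀ (by positivity)]
      refine (h3 N).trans ?_
      rw [div_mul_eq_mul_div]
      exact div_le_div_of_nonneg_right (h2 _) hn
    obtain ⟨N, hN⟩ := pow_unbounded_of_one_lt (D / n) hr
    have h5 : (a 1 / n / κ) ^ N ≤ (a 1 / n / κ) ^ (2 ^ N) :=
      pow_le_pow_right₀ hr.le Nat.lt_two_pow_self.le
    linarith [h4 N]

/-- The gap of the two-sided action. -/
theorem power_gap {π σ : Γ →* Q} (hπ : IsUnitaryRep π) (hσ : IsUnitaryRep σ)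
    (ht : HasDeltaTrace t π) (W : Finset Q) (hW : ∀ g, σ g ∈ W) (T S : Γ) (κ : ℝ) (hκ : 0 < κ)
    (hgap : ∀ ξ : ell2 Γ, ‖ξ + (trivCocycle Γ).lam T ξ + (trivCocycle Γ).lam S ξ‖ ^ 2 ≤
      κ * ‖ξ‖ ^ 2) (x : Q) :
    t.norm2 (x + twoSided π σ T x + twoSided π σ S x) ^ 2 ≤ κ * t.norm2 x ^ 2 := by
  classical
  set b : MonoidAlgebra ℂ Γ := MonoidAlgebra.single 1 1 + MonoidAlgebra.single T 1 +
    MonoidAlgebra.single S 1 with hb
  set b' : MonoidAlgebra ℂ Γ := MonoidAlgebra.single 1 1 + MonoidAlgebra.single T⁻¹ 1 +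
    MonoidAlgebra.single S⁻¹ 1 with hb'
  -- the left regular side
  have hlb : ext (lamHom Γ) b = 1 + (trivCocycle Γ).u T + (trivCocycle Γ).u S := by
    rw [hb, map_add, map_add, ext_single, ext_single, ext_single, one_smul, one_smul, one_smul,
      map_one]
    rfl
  have hlb' : ext (lamHom Γ) b' = star (ext (lamHom Γ) b) := by
    rw [hb, hb', map_add, map_add, map_add, map_add, ext_single, ext_single, ext_single,
      ext_single, ext_single, one_smul, one_smul, one_smul, one_smul, one_smul, star_add, star_add,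
      lamHom_unitary, lamHom_unitary, lamHom_unitary, inv_one]
  have hnb : ‖ext (lamHom Γ) b‖ ≤ Real.sqrt κ := by
    show ‖((ext (lamHom Γ) b : (trivCocycle Γ).Alg) : ell2 Γ →L[ℂ] ell2 Γ)‖ ≤ _
    refine ContinuousLinearMap.opNorm_le_bound _ (Real.sqrt_nonneg _) fun ξ => ?_
    have h1 := hgap ξ
    have h2 : ((ext (lamHom Γ) b : (trivCocycle Γ).Alg) : ell2 Γ →L[ℂ] ell2 Γ) ξ =
        ξ + (trivCocycle Γ).lam T ξ + (trivCocycle Γ).lam S ξ := by
      rw [hlb]
      rfl
    rw [h2]
    apply le_of_sq_le_sq _ (by positivity)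
    rwa [mul_pow, Real.sq_sqrt hκ.le]
  have hnmu : ‖ext (lamHom Γ) (b' * b)‖ ≤ κ := by
    rw [map_mul, hlb', CStarRing.norm_star_mul_self]
    calc ‖ext (lamHom Γ) b‖ * ‖ext (lamHom Γ) b‖ ≤ Real.sqrt κ * Real.sqrt κ :=
          mul_le_mul hnb hnb (norm_nonneg _) (Real.sqrt_nonneg _)
      _ = κ := Real.mul_self_sqrt hκ.le
  have hnpow : ∀ m : ℕ, (trivCocycle Γ).tr.norm2 (ext (lamHom Γ) ((b' * b) ^ m)) ≤ κ ^ m := by
    intro m
    refine ((trivCocycle Γ).tr.norm2_le_norm _).trans ?_
    rw [map_pow]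
    rcases Nat.eq_zero_or_pos m with h | h
    · rw [h, pow_zero, pow_zero]
      exact norm_le_one_of_star_mul (by rw [star_one, one_mul])
    · exact (norm_pow_le' _ h).trans (pow_le_pow_left₀ (norm_nonneg _) hnmu m)
  -- the operator side
  set L := ext (twoSided π σ) with hL
  have hLb : L b x = x + twoSided π σ T x + twoSided π σ S x := by
    rw [hL, hb, map_add, map_add, ext_single, ext_single, ext_single, one_smul, one_smul, one_smul,
      map_one]
    rfl
  have hadj : ∀ y z : Q, t.toLin (star y * L b z) = t.toLin (star (L b' y) * z) := by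
    intro y z
    rw [hL, hb, hb', map_add, map_add, map_add, map_add, ext_single, ext_single, ext_single,
      ext_single, ext_single, one_smul, one_smul, one_smul, one_smul, one_smul, map_one]
    show t.toLin (star y * (z + twoSided π σ T z + twoSided π σ S z)) =
      t.toLin (star (y + twoSided π σ T⁻¹ y + twoSided π σ S⁻¹ y) * z)
    rw [mul_add, mul_add, map_add, map_add, star_add, star_add, add_mul, add_mul, map_add, map_add,
      twoSided_adjoint hπ hσ, twoSided_adjoint hπ hσ]
  have hadj' : ∀ y z : Q, t.toLin (star y * L b' z) = t.toLin (star (L b y) * z) := by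
    intro y z
    rw [hL, hb, hb', map_add, map_add, map_add, map_add, ext_single, ext_single, ext_single,
      ext_single, ext_single, one_smul, one_smul, one_smul, one_smul, one_smul, map_one]
    show t.toLin (star y * (z + twoSided π σ T⁻¹ z + twoSided π σ S⁻¹ z)) =
      t.toLin (star (y + twoSided π σ T y + twoSided π σ S y) * z)
    rw [mul_add, mul_add, map_add, map_add, star_add, star_add, add_mul, add_mul, map_add, map_add,
      twoSided_adjoint hπ hσ, twoSided_adjoint hπ hσ, inv_inv, inv_inv]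
  have hsymm : ∀ y z : Q, t.toLin (star y * L (b' * b) z) = t.toLin (star (L (b' * b) y) * z) := by
    intro y z
    rw [map_mul L]
    show t.toLin (star y * L b' (L b z)) = t.toLin (star (L b' (L b y)) * z)
    rw [hadj', hadj]
  have hsymmpow : ∀ m : ℕ, ∀ y z : Q, t.toLin (star y * L ((b' * b) ^ m) z) =
      t.toLin (star (L ((b' * b) ^ m) y) * z) := by
    intro m
    induction m with
    | zero =>
      intro y z
      rw [pow_zero, map_one]
      rfl
    | succ m ih =>
      intro y z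
      have e1 : L ((b' * b) ^ (m + 1)) z = L ((b' * b) ^ m) (L (b' * b) z) := by
        rw [pow_succ, map_mul]
        rfl
      have e2 : L ((b' * b) ^ (m + 1)) y = L (b' * b) (L ((b' * b) ^ m) y) := by
        rw [pow_succ', map_mul]
        rfl
      rw [e1, e2, ih, hsymm]
  set a : ℕ → ℝ := fun m => (t.toLin (star x * L ((b' * b) ^ m) x)).re with ha
  have h1 : ∀ m, a m ^ 2 ≤ a (2 * m) * t.norm2 x ^ 2 := by
    intro m
    have e1 : a (2 * m) = t.norm2 (L ((b' * b) ^ m) x) ^ 2 := by
      rw [ha, t.norm2_sq]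
      show (t.toLin (star x * L ((b' * b) ^ (2 * m)) x)).re = _
      rw [two_mul, pow_add, map_mul L]
      show (t.toLin (star x * L ((b' * b) ^ m) (L ((b' * b) ^ m) x))).re = _
      rw [hsymmpow]
    rw [e1, ← mul_pow, ← sq_abs]
    apply pow_le_pow_left₀ (abs_nonneg _)
    refine (Complex.abs_re_le_norm _).trans ((t.norm_toLin_star_mul_le _ _).trans ?_)
    rw [mul_comm]
  have h2 : ∀ m, a m ≤ Real.sqrt (∑ w ∈ W, t.norm2 (x * w * star x) ^ 2) * κ ^ m := by
    intro m
    set c := (b' * b) ^ m with hc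
    have e1 : t.toLin (star x * L c x) =
        ∑ g ∈ c.coeff.support, c.coeff g * t.toLin (star x * twoSided π σ g x) := by
      rw [hL, ext_eq_sum, LinearMap.sum_apply, Finset.mul_sum, map_sum]
      refine Finset.sum_congr rfl fun g _ => ?_
      rw [LinearMap.smul_apply, mul_smul_comm, map_smul, smul_eq_mul]
    have h3 : a m ≤ ∑ g ∈ c.coeff.support, ‖c.coeff g‖ * ‖t.toLin (star x * twoSided π σ g x)‖ := by
      show (t.toLin (star x * L c x)).re ≤ _
      refine (le_abs_self _).trans ((Complex.abs_re_le_norm _).trans ?_)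
      rw [e1]
      refine (norm_sum_le _ _).trans (le_of_eq ?_)
      refine Finset.sum_congr rfl fun g _ => norm_mul _ _
    have h4 := Finset.sum_mul_sq_le_sq_mul_sq c.coeff.support (fun g => ‖c.coeff g‖)
      (fun g => ‖t.toLin (star x * twoSided π σ g x)‖)
    rw [← norm2_ext_sq] at h4
    have h5 := bessel hπ ht W hW x c.coeff.support
    refine h3.trans (le_of_sq_le_sq (h4.trans ?_) (by positivity))
    rw [mul_pow, Real.sq_sqrt (Finset.sum_nonneg fun _ _ => by positivity), mul_comm]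
    refine mul_le_mul h5 ?_ (by positivity) (Finset.sum_nonneg fun _ _ => by positivity)
    exact pow_le_pow_left₀ (TracialState.norm2_nonneg _ _) (hnpow m) 2
  have h3 := power_trick a _ κ _ (by positivity) hκ h1 h2
  have e1 : a 1 = t.norm2 (L b x) ^ 2 := by
    rw [ha, t.norm2_sq]
    show (t.toLin (star x * L ((b' * b) ^ 1) x)).re = _
    rw [pow_one, map_mul L]
    show (t.toLin (star x * L b' (L b x))).re = _
    rw [hadj']
  rw [e1, hLb] at h3
  exact h3

/-- The commutation gap. -/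
theorem comm_gap {π σ : Γ →* Q} (hπ : IsUnitaryRep π) (hσ : IsUnitaryRep σ)
    (ht : HasDeltaTrace t π) (W : Finset Q) (hW : ∀ g, σ g ∈ W) (T S : Γ)
    (hgap : ∀ ξ : ell2 Γ, ‖ξ + (trivCocycle Γ).lam T ξ + (trivCocycle Γ).lam S ξ‖ ^ 2 ≤
      (224 / 25) * ‖ξ‖ ^ 2) (x : Q) :
    t.norm2 x ^ 2 ≤ 75 * (t.norm2 (π T * x - x * σ T) ^ 2 + t.norm2 (π S * x - x * σ S) ^ 2) := by
  have h1 := power_gap hπ hσ ht W hW T S (224 / 25) (by norm_num) hgap x
  have h2 := norm_three (t.toL2 x) (t.toL2 (twoSided π σ T x)) (t.toL2 (twoSided π σ S x))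
  rw [← map_add, ← map_add, ← map_sub, ← map_sub, ← map_sub, t.norm_toL2, t.norm_toL2,
    t.norm_toL2, t.norm_toL2, t.norm_toL2, t.norm_toL2, t.norm_toL2, norm2_twoSided hπ hσ,
    norm2_twoSided hπ hσ] at h2
  have h3 : ∀ g, t.norm2 (twoSided π σ g x - x) = t.norm2 (π g * x - x * σ g) := by
    intro g
    have e : π g * x - x * σ g = (twoSided π σ g x - x) * σ g := by
      rw [twoSided_apply, sub_mul, mul_assoc, ← map_mul, inv_mul_cancel, map_one, mul_one]
    rw [e, t.norm2_mul_unitary (hσ.mul_star_self _)]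
  have h4 := t.parallelogram (twoSided π σ T x - x) (twoSided π σ S x - x)
  rw [sub_sub_sub_cancel_right] at h4
  rw [h3, h3] at h4 h2
  have h5 : 0 ≤ t.norm2 (twoSided π σ T x - x + (twoSided π σ S x - x)) ^ 2 := by positivity
  nlinarith

end

end Pool.Agent.HomRU
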