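import Pool.Agent.HomRU.Power

set_option autoImplicit false
set_option linter.unusedSectionVars false
set_option linter.style.haveILetI false

open scoped InnerProductSpace
open Filter Topology

namespace Pool.Agent.HomRU

section

variable {A : Type*} [CStarAlgebra A] (τ : TracialState A) (𝒰 : Ultrafilter ℕ)
variable {Γ : Type*} [Group Γ] (ρ : ℕ → Γ →* A) (hρ : ∀ k, IsUnitaryRep (ρ k))

/-- the sequence of values of a reindexed sequence of representations -/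
noncomputable def repSeq (s : ℕ → ℕ) (g : Γ) : BddSeq A :=
  ⟨fun k => ρ (s k) g, 1, fun _ => norm_le_one_of_star_mul ((hρ _).star_mul_self g)⟩

/-- The ultraproduct representation. -/
noncomputable def ultraRep (s : ℕ → ℕ) : Γ →* Ultrapower τ 𝒰 where
  toFun g := Ultrapower.mk τ 𝒰 (repSeq ρ hρ s g)
  map_one' := by
    have e : repSeq ρ hρ s 1 = 1 := Subtype.ext (funext fun k => map_one (ρ (s k)))
    rw [e, map_one]
  map_mul' g h := by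
    have e : repSeq ρ hρ s (g * h) = repSeq ρ hρ s g * repSeq ρ hρ s h :=
      Subtype.ext (funext fun k => map_mul (ρ (s k)) g h)
    rw [e, map_mul]

theorem ultraRep_apply (s : ℕ → ℕ) (g : Γ) :
    ultraRep τ 𝒰 ρ hρ s g = Ultrapower.mk τ 𝒰 (repSeq ρ hρ s g) := rfl

theorem ultraRep_unitary (s : ℕ → ℕ) : IsUnitaryRep (ultraRep τ 𝒰 ρ hρ s) := by
  intro g
  rw [ultraRep_apply, ultraRep_apply, ← map_star]
  have e : star (repSeq ρ hρ s g) = repSeq ρ hρ s g⁻¹ := Subtype.ext (funext fun k => hρ (s k) g)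
  rw [e]

theorem ultraRep_delta (htr : ∀ g, g ≠ 1 → Tendsto (fun k => τ.toLin (ρ k g)) atTop (𝓝 0))
    (s : ℕ → ℕ) (hs : Tendsto s 𝒰 atTop) :
    HasDeltaTrace (Ultrapower.trace τ 𝒰) (ultraRep τ 𝒰 ρ hρ s) := by
  refine ⟨(Ultrapower.trace τ 𝒰).map_one, fun g hg => ?_⟩
  rw [ultraRep_apply]
  apply Ultrapower.trace_mk_eq
  exact (htr g hg).comp hs

/-- the level sets in the reindexing argument -/
def levelSet (T S : Γ) (j : ℕ) : Set ℕ :=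
  {k | ∀ x : A, ‖x‖ ≤ j → τ.norm2 x ^ 2 ≤
    75 * (τ.norm2 (ρ k T * x - x * ρ j T) ^ 2 + τ.norm2 (ρ k S * x - x * ρ j S) ^ 2) +
      1 / ((j : ℝ) + 1)}

theorem tendsto_comm (s s' : ℕ → ℕ) (g : Γ) (x : BddSeq A) :
    Tendsto (fun k => τ.norm2 (ρ (s k) g * x.1 k - x.1 k * ρ (s' k) g)) 𝒰
      (𝓝 ((Ultrapower.trace τ 𝒰).norm2 (ultraRep τ 𝒰 ρ hρ s g * Ultrapower.mk τ 𝒰 x -
        Ultrapower.mk τ 𝒰 x * ultraRep τ 𝒰 ρ hρ s' g))) := by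
  rw [ultraRep_apply, ultraRep_apply, ← map_mul, ← map_mul, ← map_sub]
  exact Ultrapower.tendsto_norm2 τ 𝒰 _

include hρ in
theorem levelSet_mem (h𝒰 : (𝒰 : Filter ℕ) ≤ cofinite)
    (htr : ∀ g, g ≠ 1 → Tendsto (fun k => τ.toLin (ρ k g)) atTop (𝓝 0))
    (hfin : ∀ k, ∃ W : Finset A, ∀ g, ρ k g ∈ W) (T S : Γ)
    (hgap : ∀ ξ : ell2 Γ, ‖ξ + (trivCocycle Γ).lam T ξ + (trivCocycle Γ).lam S ξ‖ ^ 2 ≤
      (224 / 25) * ‖ξ‖ ^ 2) (j : ℕ) : levelSet τ ρ T S j ∈ 𝒰 := by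
  classical
  by_contra hcon
  have hc : (levelSet τ ρ T S j)ᶜ ∈ 𝒰 := Ultrafilter.compl_mem_iff_notMem.2 hcon
  have hch : ∀ k, ∃ x : A, ‖x‖ ≤ j ∧ (k ∈ (levelSet τ ρ T S j)ᶜ →
      75 * (τ.norm2 (ρ k T * x - x * ρ j T) ^ 2 + τ.norm2 (ρ k S * x - x * ρ j S) ^ 2) +
      1 / ((j : ℝ) + 1) ≤ τ.norm2 x ^ 2) := by
    intro k
    by_cases hk : k ∈ (levelSet τ ρ T S j)ᶜ
    · have h1 : ¬ ∀ x : A, ‖x‖ ≤ j → τ.norm2 x ^ 2 ≤
        75 * (τ.norm2 (ρ k T * x - x * ρ j T) ^ 2 + τ.norm2 (ρ k S * x - x * ρ j S) ^ 2) +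
          1 / ((j : ℝ) + 1) := hk
      push Not at h1
      obtain ⟨x, hx, hx'⟩ := h1
      exact ⟨x, hx, fun _ => hx'.le⟩
    · exact ⟨0, by rw [norm_zero]; positivity, fun h => absurd h hk⟩
  choose x hx hx' using hch
  let X : BddSeq A := ⟨x, j, hx⟩
  obtain ⟨W, hW⟩ := hfin j
  have hid : Tendsto (fun k : ℕ => k) (𝒰 : Filter ℕ) atTop := by
    rw [← Nat.cofinite_eq_atTop]
    exact h𝒰
  have hconst : ∀ w : A, ∃ C : ℝ, ∀ n : ℕ, ‖(fun _ : ℕ => w) n‖ ≤ C := fun w => ⟨‖w‖, fun _ => le_rfl⟩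
  have hgapx := comm_gap (t := Ultrapower.trace τ 𝒰)
    (π := ultraRep τ 𝒰 ρ hρ (fun k => k)) (σ := ultraRep τ 𝒰 ρ hρ (fun _ => j))
    (ultraRep_unitary τ 𝒰 ρ hρ _) (ultraRep_unitary τ 𝒰 ρ hρ _)
    (ultraRep_delta τ 𝒰 ρ hρ htr _ hid)
    (W.image fun w => Ultrapower.mk τ 𝒰 ⟨fun _ => w, hconst w⟩)
    (fun g => Finset.mem_image.2 ⟨ρ j g, hW g, rfl⟩) T S hgap (Ultrapower.mk τ 𝒰 X)
  have hT := tendsto_comm τ 𝒰 ρ hρ (fun k => k) (fun _ => j) T X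
  have hS := tendsto_comm τ 𝒰 ρ hρ (fun k => k) (fun _ => j) S X
  have hlim := (((hT.pow 2).add (hS.pow 2)).const_mul 75).add_const (1 / ((j : ℝ) + 1))
  have hlimx := (Ultrapower.tendsto_norm2 τ 𝒰 X).pow 2
  have hle := le_of_tendsto_of_tendsto hlim hlimx (by
    filter_upwards [hc] with k hk
    exact hx' k hk)
  have hpos : 0 < 1 / ((j : ℝ) + 1) := by positivity
  linarith

/-- Slow reindexing. -/
theorem exists_reindex (h𝒰 : (𝒰 : Filter ℕ) ≤ cofinite)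
    (htr : ∀ g, g ≠ 1 → Tendsto (fun k => τ.toLin (ρ k g)) atTop (𝓝 0))
    (hfin : ∀ k, ∃ W : Finset A, ∀ g, ρ k g ∈ W) (T S : Γ)
    (hgap : ∀ ξ : ell2 Γ, ‖ξ + (trivCocycle Γ).lam T ξ + (trivCocycle Γ).lam S ξ‖ ^ 2 ≤
      (224 / 25) * ‖ξ‖ ^ 2) :
    ∃ s : ℕ → ℕ, Tendsto s 𝒰 atTop ∧ ∀ x : Ultrapower τ 𝒰,
      (Ultrapower.trace τ 𝒰).norm2 x ^ 2 ≤
      75 * ((Ultrapower.trace τ 𝒰).norm2 (ultraRep τ 𝒰 ρ hρ (fun k => k) T * x -
          x * ultraRep τ 𝒰 ρ hρ s T) ^ 2 +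
        (Ultrapower.trace τ 𝒰).norm2 (ultraRep τ 𝒰 ρ hρ (fun k => k) S * x -
          x * ultraRep τ 𝒰 ρ hρ s S) ^ 2) := by
  classical
  have hid : Tendsto (fun k : ℕ => k) (𝒰 : Filter ℕ) atTop := by
    rw [← Nat.cofinite_eq_atTop]
    exact h𝒰
  set s : ℕ → ℕ := fun k => Nat.findGreatest (fun j => k ∈ levelSet τ ρ T S j) k with hs
  have hst : Tendsto s 𝒰 atTop := by
    rw [tendsto_atTop]
    intro J
    filter_upwards [levelSet_mem τ 𝒰 ρ hρ h𝒰 htr hfin T S hgap J, hid (eventually_ge_atTop J)]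
      with k hk hkJ
    exact Nat.le_findGreatest hkJ hk
  refine ⟨s, hst, fun x => ?_⟩
  obtain ⟨X, rfl⟩ := Ultrapower.mk_surjective τ 𝒰 x
  obtain ⟨C, hC0, hC⟩ := bddSeq_bound X
  have hT := tendsto_comm τ 𝒰 ρ hρ (fun k => k) s T X
  have hS := tendsto_comm τ 𝒰 ρ hρ (fun k => k) s S X
  have hone : Tendsto (fun k => 1 / ((s k : ℝ) + 1)) 𝒰 (𝓝 0) :=
    tendsto_one_div_add_atTop_nhds_zero_nat.comp hst
  have hlim := (((hT.pow 2).add (hS.pow 2)).const_mul 75).add hone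
  rw [add_zero] at hlim
  have hlimx := (Ultrapower.tendsto_norm2 τ 𝒰 X).pow 2
  refine le_of_tendsto_of_tendsto hlimx hlim ?_
  obtain ⟨J, hJ⟩ := exists_nat_ge C
  filter_upwards [hst (eventually_ge_atTop (max J 1))] with k hk
  have hk' : max J 1 ≤ s k := hk
  have h0 : s k ≠ 0 := by
    have := le_trans (le_max_right _ _) hk'
    omega
  have h1 : k ∈ levelSet τ ρ T S (s k) :=
    Nat.findGreatest_of_ne_zero (P := fun j => k ∈ levelSet τ ρ T S j) (n := k) (m := s k) rfl h0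
  apply h1
  refine (hC k).trans (hJ.trans ?_)
  exact_mod_cast le_trans (le_max_left _ _) hk'

end

end Pool.Agent.HomRU
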