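import Pool.Agent.HomRU.Twisted2

set_option autoImplicit false
set_option linter.unusedSectionVars false
set_option linter.style.haveILetI false

open scoped InnerProductSpace
open Filter Topology

namespace Pool.Agent.HomRU

/-- A self-similarity `G₀ × G ≃ G` compatible with cocycles. -/
structure SelfSim (G₀ G : Type*) [Group G₀] [Group G] where
  /-- cocycle on the finite group -/
  ω₀ : SignCocycle G₀
  /-- cocycle on the big group -/
  ω : SignCocycle G
  /-- the self-similarity -/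
  e : G₀ × G ≃* G
  compat : ∀ p q, ω.c (e p) (e q) = ω₀.c p.1 q.1 * ω.c p.2 q.2

namespace SelfSim

variable {G₀ G : Type*} [Group G₀] [Group G] [Fintype G₀] (S : SelfSim G₀ G)

/-- `δ_h ↦ δ_{e(a,h)}` -/
noncomputable def W (a : G₀) : ell2 G →L[ℂ] ell2 G :=
  opOf (orthonormal_dl.comp (fun h => S.e (a, h)) (fun h k hk => by
    have := S.e.injective hk
    exact (Prod.mk.inj this).2))

theorem W_dl (a : G₀) (h : G) : S.W a (dl h) = dl (S.e (a, h)) := opOf_dl _ _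

theorem star_W_mul_self (a : G₀) : star (S.W a) * S.W a = 1 := adjoint_opOf_mul _

theorem star_W_dl_self (a : G₀) (h : G) : (star (S.W a)) (dl (S.e (a, h))) = dl h := by
  rw [← W_dl]
  exact DFunLike.congr_fun (S.star_W_mul_self a) (dl h)

theorem star_W_dl_ne {a b : G₀} (hab : a ≠ b) (h : G) : (star (S.W a)) (dl (S.e (b, h))) = 0 := by
  apply ell2_ext
  intro k
  rw [ContinuousLinearMap.star_eq_adjoint, ContinuousLinearMap.adjoint_inner_right, W_dl,
    inner_dl_left, inner_zero_right, dl_apply_ne]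
  intro h1
  have h2 := S.e.injective h1
  exact hab (Prod.mk.inj h2).1

theorem star_W_mul_ne {a b : G₀} (hab : a ≠ b) : star (S.W a) * S.W b = 0 := by
  apply clm_ext
  intro h
  show (star (S.W a)) (S.W b (dl h)) = 0
  rw [W_dl, star_W_dl_ne S hab]

theorem sum_W_star : ∑ a, S.W a * star (S.W a) = 1 := by
  classical
  apply clm_ext
  intro g
  obtain ⟨⟨b, h⟩, rfl⟩ := S.e.surjective g
  rw [sum_apply]
  show ∑ a, S.W a ((star (S.W a)) (dl (S.e (b, h)))) = dl (S.e (b, h))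
  rw [Finset.sum_eq_single b]
  · rw [star_W_dl_self, W_dl]
  · intro a _ hab
    rw [star_W_dl_ne S hab, map_zero]
  · intro h1
    exact absurd (Finset.mem_univ b) h1

theorem rt_W (a b : G₀) (k : G) :
    S.ω.rt (S.e (b, k)) * S.W a = sg (S.ω₀.c a b) • (S.W (a * b) * S.ω.rt k) := by
  apply clm_ext
  intro h
  show S.ω.rt (S.e (b, k)) (S.W a (dl h)) = sg (S.ω₀.c a b) • S.W (a * b) (S.ω.rt k (dl h))
  rw [W_dl, SignCocycle.rt_dl, SignCocycle.rt_dl, map_smul, W_dl, S.compat, ← map_mul, sg_mul,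
    smul_smul]
  rfl

theorem lam_W (a b : G₀) :
    S.ω.lam (S.e (a, 1)) * S.W b = sg (S.ω₀.c a b) • S.W (a * b) := by
  apply clm_ext
  intro h
  show S.ω.lam (S.e (a, 1)) (S.W b (dl h)) = sg (S.ω₀.c a b) • S.W (a * b) (dl h)
  rw [W_dl, SignCocycle.lam_dl, W_dl, S.compat, ← map_mul, sg_mul, S.ω.one_left, sg_one, mul_one,
    Prod.mk_mul_mk, one_mul]

/-- operators are determined by their restrictions to the ranges of the `W a` -/
theorem ext_W {x y : ell2 G →L[ℂ] ell2 G} (h : ∀ a, x * S.W a = y * S.W a) : x = y := by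
  apply clm_ext
  intro g
  obtain ⟨⟨b, k⟩, rfl⟩ := S.e.surjective g
  have := DFunLike.congr_fun (h b) (dl k)
  have h1 : x (S.W b (dl k)) = y (S.W b (dl k)) := this
  rwa [W_dl] at h1

/-- the shift of an operator -/
noncomputable def shOp (x : ell2 G →L[ℂ] ell2 G) : ell2 G →L[ℂ] ell2 G :=
  ∑ a, S.W a * x * star (S.W a)

theorem shOp_mul_W (x : ell2 G →L[ℂ] ell2 G) (b : G₀) : S.shOp x * S.W b = S.W b * x := by
  classical
  unfold shOp
  rw [Finset.sum_mul, Finset.sum_eq_single b]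
  · rw [mul_assoc, star_W_mul_self, mul_one]
  · intro a _ hab
    rw [mul_assoc, star_W_mul_ne S hab, mul_zero]
  · intro h1
    exact absurd (Finset.mem_univ b) h1

theorem shOp_mul (x y : ell2 G →L[ℂ] ell2 G) : S.shOp (x * y) = S.shOp x * S.shOp y := by
  apply S.ext_W
  intro a
  rw [shOp_mul_W, mul_assoc (S.shOp x), shOp_mul_W, ← mul_assoc, ← mul_assoc, shOp_mul_W]

theorem shOp_one : S.shOp 1 = 1 := by
  apply S.ext_W
  intro a
  rw [shOp_mul_W, mul_one, one_mul]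

theorem shOp_add (x y : ell2 G →L[ℂ] ell2 G) : S.shOp (x + y) = S.shOp x + S.shOp y := by
  apply S.ext_W
  intro a
  rw [shOp_mul_W, add_mul, shOp_mul_W, shOp_mul_W, mul_add]

theorem shOp_smul (c : ℂ) (x : ell2 G →L[ℂ] ell2 G) : S.shOp (c • x) = c • S.shOp x := by
  apply S.ext_W
  intro a
  rw [shOp_mul_W, smul_mul_assoc, shOp_mul_W, mul_smul_comm]

theorem shOp_star (x : ell2 G →L[ℂ] ell2 G) : S.shOp (star x) = star (S.shOp x) := by
  unfold shOp
  rw [star_sum]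
  refine Finset.sum_congr rfl fun a _ => ?_
  rw [star_mul, star_mul, star_star, mul_assoc]

theorem shOp_mem {x : ell2 G →L[ℂ] ell2 G} (hx : x ∈ S.ω.vN) : S.shOp x ∈ S.ω.vN := by
  rw [SignCocycle.mem_vN] at hx ⊢
  intro k
  obtain ⟨⟨b, k⟩, rfl⟩ := S.e.surjective k
  apply S.ext_W
  intro a
  calc S.ω.rt (S.e (b, k)) * S.shOp x * S.W a
      = S.ω.rt (S.e (b, k)) * S.W a * x := by rw [mul_assoc, shOp_mul_W, mul_assoc]
    _ = sg (S.ω₀.c a b) • (S.W (a * b) * (S.ω.rt k * x)) := by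
        rw [rt_W, smul_mul_assoc, mul_assoc]
    _ = sg (S.ω₀.c a b) • (S.W (a * b) * x * S.ω.rt k) := by rw [hx, mul_assoc]
    _ = sg (S.ω₀.c a b) • (S.shOp x * (S.W (a * b) * S.ω.rt k)) := by
        rw [← shOp_mul_W, mul_assoc]
    _ = S.shOp x * (S.ω.rt (S.e (b, k)) * S.W a) := by rw [rt_W, mul_smul_comm]
    _ = S.shOp x * S.ω.rt (S.e (b, k)) * S.W a := by rw [mul_assoc]

/-- the shift endomorphism of the von Neumann algebra -/
noncomputable def sh : S.ω.Alg →⋆ₐ[ℂ] S.ω.Alg where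
  toFun x := ⟨S.shOp x, S.shOp_mem x.2⟩
  map_one' := Subtype.ext S.shOp_one
  map_mul' x y := Subtype.ext (S.shOp_mul x y)
  map_zero' := Subtype.ext (by
    have := S.shOp_smul 0 0
    rwa [zero_smul, zero_smul] at this)
  map_add' x y := Subtype.ext (S.shOp_add x y)
  commutes' r := Subtype.ext (by
    show S.shOp (algebraMap ℂ (ell2 G →L[ℂ] ell2 G) r) = algebraMap ℂ (ell2 G →L[ℂ] ell2 G) r
    rw [Algebra.algebraMap_eq_smul_one, shOp_smul, shOp_one])
  map_star' x := Subtype.ext (S.shOp_star x)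

theorem coe_sh (x : S.ω.Alg) : ((S.sh x : S.ω.Alg) : ell2 G →L[ℂ] ell2 G) = S.shOp x := rfl

theorem e_one : S.e (1, 1) = 1 := S.e.map_one

theorem ev_sh (x : S.ω.Alg) : S.ω.ev (S.sh x) = S.W 1 (S.ω.ev x) := by
  show S.shOp x (dl 1) = S.W 1 ((x : ell2 G →L[ℂ] ell2 G) (dl 1))
  have h1 : dl (1 : G) = S.W 1 (dl 1) := by rw [W_dl, e_one]
  conv_lhs => rw [h1]
  exact DFunLike.congr_fun (S.shOp_mul_W x 1) (dl 1)

theorem sh_injective : Function.Injective S.sh := by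
  intro x y h
  apply S.ω.ev_injective
  have h1 := congrArg S.ω.ev h
  rw [ev_sh, ev_sh] at h1
  have h3 : ∀ f, (star (S.W 1)) (S.W 1 f) = f := fun f =>
    DFunLike.congr_fun (S.star_W_mul_self 1) f
  rw [← h3 (S.ω.ev x), h1, h3]

/-- the finite part -/
noncomputable def v (a : G₀) : S.ω.Alg := S.ω.u (S.e (a, 1))

theorem v_one : S.v 1 = 1 := by
  unfold v
  rw [e_one, SignCocycle.u_one]

theorem v_mul_v (a b : G₀) : S.v a * S.v b = sg (S.ω₀.c a b) • S.v (a * b) := by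
  unfold v
  rw [SignCocycle.u_mul_u, S.compat, ← map_mul, sg_mul, S.ω.one_left, sg_one, mul_one,
    Prod.mk_mul_mk, one_mul]

theorem v_comm_sh (a : G₀) (x : S.ω.Alg) : S.v a * S.sh x = S.sh x * S.v a := by
  apply Subtype.ext
  apply S.ext_W
  intro b
  show S.ω.lam (S.e (a, 1)) * S.shOp x * S.W b = S.shOp x * S.ω.lam (S.e (a, 1)) * S.W b
  rw [mul_assoc, shOp_mul_W, ← mul_assoc, lam_W, mul_assoc (S.shOp x), lam_W, mul_smul_comm,
    shOp_mul_W, smul_mul_assoc]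

theorem ev_v_mul_sh (a : G₀) (x : S.ω.Alg) :
    S.ω.ev (S.v a * S.sh x) = S.W a (S.ω.ev x) := by
  rw [SignCocycle.ev_mul, ev_sh]
  have h := DFunLike.congr_fun (S.lam_W a 1) (S.ω.ev x)
  have h' : S.ω.lam (S.e (a, 1)) (S.W 1 (S.ω.ev x)) = sg (S.ω₀.c a 1) • S.W (a * 1) (S.ω.ev x) := h
  rw [S.ω₀.one_right, sg_one, one_smul, mul_one] at h'
  exact h'

open Classical in
theorem tr_v_mul_sh (a : G₀) (x : S.ω.Alg) :
    S.ω.tr.toLin (S.v a * S.sh x) = if a = 1 then S.ω.tr.toLin x else 0 := by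
  rw [SignCocycle.tr_apply, SignCocycle.tr_apply, ev_v_mul_sh, ← inner_dl_left, ← inner_dl_left]
  have h1 : dl (1 : G) = S.W 1 (dl 1) := by rw [W_dl, e_one]
  split_ifs with h
  · rw [h, h1]
    conv_lhs => rw [← h1]
    conv_rhs => rw [← h1]
    conv_lhs => rw [h1]
    exact inner_opOf _ _ _
  · rw [h1, ← ContinuousLinearMap.adjoint_inner_right, ← ContinuousLinearMap.star_eq_adjoint]
    have h2 := DFunLike.congr_fun (S.star_W_mul_ne (a := 1) (b := a) (Ne.symm h)) (S.ω.ev x)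
    have h3 : (star (S.W 1)) (S.W a (S.ω.ev x)) = 0 := h2
    rw [h3, inner_zero_right]

theorem sg_injective {s t : ℤˣ} (h : sg s = sg t) : s = t := by
  have h7 : ((s : ℤ) : ℂ) = ((t : ℤ) : ℂ) := h
  exact Units.ext (Int.cast_injective h7)

theorem star_W_rt (k : G) :
    star (S.W 1) * S.ω.rt (S.e (1, k)) = S.ω.rt k * star (S.W 1) := by
  apply clm_ext
  intro g
  obtain ⟨⟨b, h⟩, rfl⟩ := S.e.surjective g
  show (star (S.W 1)) (S.ω.rt (S.e (1, k)) (dl (S.e (b, h)))) =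
    S.ω.rt k ((star (S.W 1)) (dl (S.e (b, h))))
  rw [SignCocycle.rt_dl, map_smul, ← map_mul, Prod.mk_mul_mk, mul_one, S.compat]
  by_cases hb : 1 = b
  · subst hb
    rw [star_W_dl_self, star_W_dl_self, SignCocycle.rt_dl]
    show sg (S.ω₀.c 1 1 * S.ω.c h k) • _ = _
    rw [S.ω₀.one_left, one_mul]
  · rw [star_W_dl_ne S hb, star_W_dl_ne S hb, smul_zero, map_zero]

/-- Elements commuting with the finite part come from the shift. -/
theorem mem_range_sh (hnd : ∀ b : G₀, b ≠ 1 → ∃ a, a * b = b * a ∧ S.ω₀.c a b ≠ S.ω₀.c b a)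
    (y : S.ω.Alg) (hy : ∀ a, S.v a * y = y * S.v a) : ∃ x, S.sh x = y := by
  have hzero : ∀ b : G₀, b ≠ 1 → ∀ k, S.ω.ev y (S.e (b, k)) = 0 := by
    intro b hb k
    obtain ⟨a, hab, hne⟩ := hnd b hb
    have h0 : S.ω.lam (S.e (a, 1)) * (y : ell2 G →L[ℂ] ell2 G) =
        (y : ell2 G →L[ℂ] ell2 G) * S.ω.lam (S.e (a, 1)) := congrArg Subtype.val (hy a)
    have h1 := S.ω.comm_coeff y.2 (S.e (a, 1)) h0 (S.e (b, k))
    have h2 : S.e (a, 1) * S.e (b, k) * (S.e (a, 1))⁻¹ = S.e (b, k) := by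
      rw [mul_inv_eq_iff_eq_mul, ← map_mul, ← map_mul, Prod.mk_mul_mk, Prod.mk_mul_mk, hab,
        one_mul, mul_one]
    rw [h2, S.compat, S.compat] at h1
    have h3 : sg (S.ω₀.c a b * S.ω.c 1 k) * S.ω.ev y (S.e (b, k)) =
      sg (S.ω₀.c b a * S.ω.c k 1) * S.ω.ev y (S.e (b, k)) := h1
    rw [S.ω.one_left, S.ω.one_right, mul_one, mul_one] at h3
    by_contra h4
    exact hne (sg_injective (mul_right_cancel₀ h4 h3))
  have hmem : star (S.W 1) * (y : ell2 G →L[ℂ] ell2 G) * S.W 1 ∈ S.ω.vN := by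
    rw [SignCocycle.mem_vN]
    intro k
    have h1 : S.ω.rt (S.e (1, k)) * S.W 1 = S.W 1 * S.ω.rt k := by
      rw [rt_W, S.ω₀.one_left, sg_one, one_smul, mul_one]
    calc S.ω.rt k * (star (S.W 1) * (y : ell2 G →L[ℂ] ell2 G) * S.W 1)
        = (S.ω.rt k * star (S.W 1)) * (y : ell2 G →L[ℂ] ell2 G) * S.W 1 := by
          simp only [mul_assoc]
      _ = star (S.W 1) * (S.ω.rt (S.e (1, k)) * (y : ell2 G →L[ℂ] ell2 G)) * S.W 1 := by
          rw [← star_W_rt]; simp only [mul_assoc]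
      _ = star (S.W 1) * (y : ell2 G →L[ℂ] ell2 G) * (S.ω.rt (S.e (1, k)) * S.W 1) := by
          rw [(S.ω.mem_vN.1 y.2)]; simp only [mul_assoc]
      _ = _ := by rw [h1]; simp only [mul_assoc]
  refine ⟨⟨_, hmem⟩, ?_⟩
  apply S.ω.ev_injective
  rw [ev_sh]
  show S.W 1 ((star (S.W 1)) ((y : ell2 G →L[ℂ] ell2 G) (S.W 1 (dl 1)))) = S.ω.ev y
  rw [W_dl, e_one]
  show S.W 1 ((star (S.W 1)) (S.ω.ev y)) = S.ω.ev y
  apply ell2_ext
  intro g
  obtain ⟨⟨b, k⟩, rfl⟩ := S.e.surjective g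
  have h5 : ⟪dl (S.e (b, k)), S.W 1 ((star (S.W 1)) (S.ω.ev y))⟫_ℂ =
      ⟪S.W 1 ((star (S.W 1)) (dl (S.e (b, k)))), S.ω.ev y⟫_ℂ := by
    rw [← ContinuousLinearMap.adjoint_inner_left, ← ContinuousLinearMap.star_eq_adjoint,
      ContinuousLinearMap.star_eq_adjoint (S.W 1), ContinuousLinearMap.adjoint_inner_right]
  rw [h5]
  by_cases hb : 1 = b
  · subst hb
    rw [star_W_dl_self, W_dl]
  · rw [star_W_dl_ne S hb, map_zero, inner_zero_left, inner_dl_left, hzero b (Ne.symm hb)]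

end SelfSim

end Pool.Agent.HomRU
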