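import Pool.Agent.HomRU.Ultrapower

set_option autoImplicit false

open Filter Topology

namespace Pool.Agent.HomRU

/-! ### von Neumann algebras -/

section VN

variable {H : Type*} [NormedAddCommGroup H] [InnerProductSpace ℂ H] [CompleteSpace H]

/-- A von Neumann algebra is norm closed. -/
instance isClosed_vn (M : VonNeumannAlgebra H) :
    IsClosed (M.toStarSubalgebra : Set (H →L[ℂ] H)) := by
  rw [VonNeumannAlgebra.coe_toStarSubalgebra, ← M.centralizer_centralizer]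
  exact Set.isClosed_centralizer _

/-- The type of elements of a von Neumann algebra. -/
abbrev VonNeumannAlgebra.Elem (M : VonNeumannAlgebra H) : Type _ := M.toStarSubalgebra

/-- The type of elements of a von Neumann algebra `M`, as a C*-algebra. -/
def VElem (M : VonNeumannAlgebra H) : Type _ := M.toStarSubalgebra

noncomputable instance VElem.instCStarAlgebra (M : VonNeumannAlgebra H) : CStarAlgebra (VElem M) :=
  (inferInstance : CStarAlgebra M.toStarSubalgebra)

attribute [irreducible] VElem.instCStarAlgebra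

/-- The operator underlying an element of a von Neumann algebra. -/
def VElem.op {M : VonNeumannAlgebra H} (x : VElem M) : H →L[ℂ] H := x.1

/-- `M` is a factor: its centre consists of the scalars. -/
def IsFactor (M : VonNeumannAlgebra H) : Prop :=
  ∀ x ∈ M, x ∈ M.commutant → ∃ c : ℂ, x = c • (1 : H →L[ℂ] H)

/-- `M` is a factor of type II₁: an infinite-dimensional factor with a tracial state. -/
def IsIIOneFactor (M : VonNeumannAlgebra H) : Prop :=
  IsFactor M ∧ ¬ FiniteDimensional ℂ (VElem M) ∧ Nonempty (TracialState (VElem M))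

/-- The sequence `a` generates `M` as a von Neumann algebra: every von Neumann algebra which
contains all `a n` contains `M`. -/
def Generates (M : VonNeumannAlgebra H) (a : ℕ → VElem M) : Prop :=
  ∀ N : VonNeumannAlgebra H, (∀ n, (a n).op ∈ N) → M ≤ N

/-- The set `S` is a finite-dimensional `*`-subalgebra of `A` (not necessarily containing `1`). -/
def IsFinDimStarAlgebra {A : Type*} [CStarAlgebra A] (S : Set A) : Prop :=
  ∃ V : Submodule ℂ A, (V : Set A) = S ∧ FiniteDimensional ℂ V ∧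
    (∀ x ∈ V, ∀ y ∈ V, x * y ∈ V) ∧ ∀ x ∈ V, star x ∈ V

/-- `R` is a hyperfinite factor of type II₁: a II₁ factor generated, as a von Neumann algebra, by
an increasing sequence of finite-dimensional `*`-subalgebras `F n`. -/
def IsHyperfiniteIIOneFactor (R : VonNeumannAlgebra H) : Prop :=
  IsIIOneFactor R ∧ ∃ F : ℕ → Set (VElem R), Monotone F ∧ (∀ n, IsFinDimStarAlgebra (F n)) ∧
    ∀ N : VonNeumannAlgebra H, (∀ n, ∀ x ∈ F n, x.op ∈ N) → R ≤ N

end VN

/-! ### The space `Hom(M, R^𝒰)` -/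

section Hom

variable {A : Type*} [CStarAlgebra A] (τ : TracialState A) (𝒰 : Ultrafilter ℕ)
variable (M : Type*) [CStarAlgebra M]

/-- Unital `*`-homomorphisms from `M` to the ultrapower `A^𝒰`. -/
abbrev UHom : Type _ := M →⋆ₐ[ℂ] Ultrapower τ 𝒰

variable {M}

/-- Unitary equivalence of homomorphisms: `π = u ρ(·) u*`. -/
def UnitaryEquiv (π ρ : UHom τ 𝒰 M) : Prop :=
  ∃ u : Ultrapower τ 𝒰, star u * u = 1 ∧ u * star u = 1 ∧ ∀ x, π x = u * ρ x * star u

variable (M)

/-- Unitary equivalence as a setoid. -/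
def homSetoid : Setoid (UHom τ 𝒰 M) where
  r := UnitaryEquiv τ 𝒰
  iseqv :=
    { refl := fun π => ⟨1, by simp, by simp, fun x => by simp⟩
      symm := by
        rintro π ρ ⟨u, h1, h2, h3⟩
        refine ⟨star u, by rwa [star_star], by rwa [star_star], fun x => ?_⟩
        rw [h3, star_star]
        calc ρ x = (star u * u) * ρ x * (star u * u) := by rw [h1]; simp
          _ = star u * (u * ρ x * star u) * u := by noncomm_ring
      trans := by
        rintro π ρ σ ⟨u, h1, h2, h3⟩ ⟨v, g1, g2, g3⟩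
        refine ⟨u * v, ?_, ?_, fun x => ?_⟩
        · rw [star_mul]
          calc star v * star u * (u * v) = star v * (star u * u) * v := by noncomm_ring
            _ = 1 := by rw [h1, mul_one, g1]
        · rw [star_mul]
          calc u * v * (star v * star u) = u * (v * star v) * star u := by noncomm_ring
            _ = 1 := by rw [g2, mul_one, h2]
        · rw [h3, g3, star_mul]
          noncomm_ring }

/-- `Hom(M, A^𝒰)`: unital `*`-homomorphisms modulo unitary equivalence. -/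
def HomSpace : Type _ := Quotient (homSetoid τ 𝒰 M)

variable {M}

/-- The class of a homomorphism. -/
def cls (π : UHom τ 𝒰 M) : HomSpace τ 𝒰 M := Quotient.mk (homSetoid τ 𝒰 M) π

/-- The expression `(∑_{n ≥ 1} 2^{-2n} ‖π(a_n) - u ρ(a_n) u*‖₂²)^{1/2}`
(the sequence is indexed from `0`, so that `a n` plays the role of `a_{n+1}`). -/
noncomputable def cost (a : ℕ → M) (π ρ : UHom τ 𝒰 M) (u : Ultrapower τ 𝒰) : ℝ :=
  Real.sqrt (∑' n : ℕ, (1 / 2 : ℝ) ^ (2 * (n + 1)) *
    (Ultrapower.trace τ 𝒰).norm2 (π (a n) - u * ρ (a n) * star u) ^ 2)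

/-- The metric `d([π],[ρ]) = inf_u (∑_{n ≥ 1} 2^{-2n} ‖π(a_n) - u ρ(a_n) u*‖₂²)^{1/2}`, the infimum
over the unitaries `u` of the ultrapower. -/
noncomputable def homDist (a : ℕ → M) (π ρ : UHom τ 𝒰 M) : ℝ :=
  ⨅ u : {u : Ultrapower τ 𝒰 // star u * u = 1 ∧ u * star u = 1}, cost τ 𝒰 a π ρ u

/-- `ψ : A → A` is the inverse of a `*`-isomorphism from the corner `pAp` onto `A`: it is linear,
multiplicative, `*`-preserving and injective, and its range is `pAp`. -/
def IsCornerIsoSymm (p : A) (ψ : A → A) : Prop :=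
  (∀ x y, ψ (x + y) = ψ x + ψ y) ∧ (∀ (c : ℂ) (x : A), ψ (c • x) = c • ψ x) ∧
    (∀ x y, ψ (x * y) = ψ x * ψ y) ∧ (∀ x, ψ (star x) = star (ψ x)) ∧
    Function.Injective ψ ∧ Set.range ψ = {x | p * x * p = x}

/-- `Ψ : A^𝒰 → A^𝒰` is the inverse `θ_p⁻¹` of a standard isomorphism
`θ_p : p A^𝒰 p → A^𝒰`: there are a lift `(q_n)` of `p` consisting of projections with
`τ(q_n) = τ(p)` and `*`-isomorphisms `θ_n : q_n A q_n → A` such that `Ψ [(x_n)] = [(θ_n⁻¹ x_n)]`. -/
def IsStandardIsoSymm (p : Ultrapower τ 𝒰) (Ψ : Ultrapower τ 𝒰 → Ultrapower τ 𝒰) : Prop :=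
  ∃ (q : BddSeq A) (ψ : ℕ → A → A), Ultrapower.mk τ 𝒰 q = p ∧
    (∀ n, IsStarProjection (q.seq n)) ∧
    (∀ n, τ.toLin (q.seq n) = (Ultrapower.trace τ 𝒰).toLin p) ∧
    (∀ n, IsCornerIsoSymm (q.seq n) (ψ n)) ∧
    ∀ x y : BddSeq A, (∀ n, y.seq n = ψ n (x.seq n)) →
      Ψ (Ultrapower.mk τ 𝒰 x) = Ultrapower.mk τ 𝒰 y

open Classical in
/-- `σ` represents the convex combination `∑ t_i [π_i]`: there are pairwise orthogonal projections
`p_i` of the ultrapower with `τ(p_i) = t_i` and standard isomorphisms `θ_i` (for those `i` with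
`t_i ≠ 0`) such that `σ(x) = ∑_{t_i ≠ 0} θ_i⁻¹(π_i(x))` for all `x`. -/
def IsConvexCombination {k : ℕ} (t : Fin k → ℝ) (π : Fin k → UHom τ 𝒰 M) (σ : UHom τ 𝒰 M) :
    Prop :=
  ∃ (p : Fin k → Ultrapower τ 𝒰) (Ψ : Fin k → Ultrapower τ 𝒰 → Ultrapower τ 𝒰),
    (∀ i, IsStarProjection (p i)) ∧ (∀ i j, i ≠ j → p i * p j = 0) ∧
    (∀ i, (Ultrapower.trace τ 𝒰).toLin (p i) = (t i : ℂ)) ∧
    (∀ i, t i ≠ 0 → IsStandardIsoSymm τ 𝒰 (p i) (Ψ i)) ∧
    ∀ x, σ x = ∑ i, if t i = 0 then 0 else Ψ i (π i x)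

/-- The map `Φ` on `Hom(M, A^𝒰)` is affine: `Φ(∑ t_i [π_i]) = ∑ t_i Φ([π_i])`. -/
def IsAffine {B : Type*} [AddCommGroup B] [Module ℝ B] (Φ : HomSpace τ 𝒰 M → B) : Prop :=
  ∀ (k : ℕ) (t : Fin k → ℝ) (π : Fin k → UHom τ 𝒰 M) (σ : UHom τ 𝒰 M),
    (∀ i, 0 ≤ t i) → ∑ i, t i = 1 → IsConvexCombination τ 𝒰 t π σ →
    Φ (cls τ 𝒰 σ) = ∑ i, t i • Φ (cls τ 𝒰 (π i))

/-- The map `Φ` on `Hom(M, A^𝒰)` is isometric for the metric `d` defined by the sequence `a`. -/
def IsIsometric {B : Type*} [NormedAddCommGroup B] (a : ℕ → M) (Φ : HomSpace τ 𝒰 M → B) : Prop :=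
  ∀ π ρ : UHom τ 𝒰 M, ‖Φ (cls τ 𝒰 π) - Φ (cls τ 𝒰 ρ)‖ = homDist τ 𝒰 a π ρ

end Hom

end Pool.Agent.HomRU
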