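import Pool.Agent.HomRU.Defs

set_option autoImplicit false
set_option linter.unusedSectionVars false
set_option linter.style.haveILetI false

open Filter Topology
open scoped ComplexConjugate

namespace Pool.Agent.HomRU

namespace TracialState

variable {A : Type*} [Ring A] [StarRing A] [Algebra ℂ A] [StarModule ℂ A] (τ : TracialState A)

theorem re_nonneg (a : A) : 0 ≤ (τ.toLin (star a * a)).re := by
  obtain ⟨r, hr, h⟩ := τ.nonneg a
  rw [h]; simpa using hr

theorem im_eq_zero (a : A) : (τ.toLin (star a * a)).im = 0 := by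
  obtain ⟨r, hr, h⟩ := τ.nonneg a
  rw [h]; simp

theorem map_star (a : A) : τ.toLin (star a) = conj (τ.toLin a) := by
  have e1 : ∀ b : A, star (1 + b) * (1 + b) = 1 + b + star b + star b * b := by
    intro b
    rw [star_add, star_one]; noncomm_ring
  have h1 := τ.im_eq_zero (1 + a)
  have h2 := τ.im_eq_zero (1 + Complex.I • a)
  have ha := τ.im_eq_zero a
  have e2 : star (Complex.I • a) = -(Complex.I • star a) := by
    rw [star_smul, RCLike.star_def, Complex.conj_I, neg_smul]
  have e3 : star (Complex.I • a) * (Complex.I • a) = star a * a := by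
    rw [e2, neg_mul, smul_mul_smul_comm, Complex.I_mul_I, neg_smul, one_smul, neg_neg]
  rw [e1] at h1
  rw [e1, e3, e2] at h2
  simp only [map_add, map_neg, map_smul, smul_eq_mul, Complex.add_im, Complex.neg_im,
    Complex.mul_im, Complex.I_re, Complex.I_im, τ.map_one, Complex.one_im, ha] at h1 h2
  apply Complex.ext
  · rw [Complex.conj_re]; linarith
  · rw [Complex.conj_im]; linarith

/-- A copy of `A` carrying the seminorm `‖·‖₂`. -/
@[nolint unusedArguments]
def L2 (_τ : TracialState A) : Type _ := A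

noncomputable instance : AddCommGroup (L2 τ) := inferInstanceAs (AddCommGroup A)
noncomputable instance : Module ℂ (L2 τ) := inferInstanceAs (Module ℂ A)

/-- the identity map -/
def toL2 : A ≃ₗ[ℂ] L2 τ := LinearEquiv.refl ℂ A

/-- The semi-inner product `⟪x, y⟫ = τ(x* y)`. -/
@[reducible] noncomputable def core : PreInnerProductSpace.Core ℂ (L2 τ) where
  inner x y := τ.toLin (star (τ.toL2.symm x) * τ.toL2.symm y)
  conj_inner_symm x y := by
    rw [← τ.map_star, star_mul, star_star]
  re_inner_nonneg x := τ.re_nonneg _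
  add_left x y z := by
    rw [map_add, star_add, add_mul, map_add]
  smul_left x y r := by
    rw [map_smul, star_smul, smul_mul_assoc, map_smul, smul_eq_mul]
    rfl

noncomputable instance : SeminormedAddCommGroup (L2 τ) :=
  @InnerProductSpace.Core.toSeminormedAddCommGroup ℂ (L2 τ) _ _ _ τ.core
noncomputable instance : InnerProductSpace ℂ (L2 τ) := InnerProductSpace.ofCore τ.core

theorem inner_toL2 (x y : A) : inner ℂ (τ.toL2 x) (τ.toL2 y) = τ.toLin (star x * y) := rfl

theorem norm_toL2 (x : A) : ‖τ.toL2 x‖ = τ.norm2 x := by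
  rw [@norm_eq_sqrt_re_inner ℂ, inner_toL2]
  rfl

theorem norm2_nonneg (x : A) : 0 ≤ τ.norm2 x := Real.sqrt_nonneg _

theorem norm2_sq (x : A) : τ.norm2 x ^ 2 = (τ.toLin (star x * x)).re :=
  Real.sq_sqrt (τ.re_nonneg x)

theorem toLin_star_mul_self (x : A) : τ.toLin (star x * x) = ((τ.norm2 x ^ 2 : ℝ) : ℂ) := by
  apply Complex.ext
  · rw [norm2_sq, Complex.ofReal_re]
  · rw [Complex.ofReal_im]; exact τ.im_eq_zero x

theorem norm2_add_le (x y : A) : τ.norm2 (x + y) ≤ τ.norm2 x + τ.norm2 y := by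
  rw [← norm_toL2, ← norm_toL2, ← norm_toL2, map_add]
  exact norm_add_le _ _

theorem norm2_sub_le (x y : A) : τ.norm2 (x - y) ≤ τ.norm2 x + τ.norm2 y := by
  rw [← norm_toL2, ← norm_toL2, ← norm_toL2, map_sub]
  exact norm_sub_le _ _

theorem norm2_neg (x : A) : τ.norm2 (-x) = τ.norm2 x := by
  rw [← norm_toL2, ← norm_toL2, map_neg, norm_neg]

theorem norm2_sub_rev (x y : A) : τ.norm2 (x - y) = τ.norm2 (y - x) := by
  rw [← norm_toL2, ← norm_toL2, map_sub, map_sub, norm_sub_rev]

theorem norm2_smul (c : ℂ) (x : A) : τ.norm2 (c • x) = ‖c‖ * τ.norm2 x := by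
  rw [← norm_toL2, ← norm_toL2, map_smul, norm_smul]

theorem norm2_zero : τ.norm2 0 = 0 := by
  rw [← norm_toL2, map_zero, norm_zero]

theorem norm2_one : τ.norm2 1 = 1 := by
  unfold norm2
  rw [star_one, one_mul, τ.map_one]
  simp

theorem norm2_star (x : A) : τ.norm2 (star x) = τ.norm2 x := by
  unfold norm2
  rw [star_star, τ.tracial]

theorem norm_toLin_star_mul_le (x y : A) : ‖τ.toLin (star x * y)‖ ≤ τ.norm2 x * τ.norm2 y := by
  rw [← norm_toL2, ← norm_toL2, ← inner_toL2]
  exact norm_inner_le_norm _ _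

theorem norm_toLin_mul_le (x y : A) : ‖τ.toLin (x * y)‖ ≤ τ.norm2 x * τ.norm2 y := by
  have := τ.norm_toLin_star_mul_le (star x) y
  rwa [star_star, norm2_star] at this

theorem norm_toLin_le (x : A) : ‖τ.toLin x‖ ≤ τ.norm2 x := by
  have := τ.norm_toLin_star_mul_le 1 x
  rwa [star_one, one_mul, norm2_one, one_mul] at this

theorem norm2_unitary_mul {u : A} (hu : star u * u = 1) (x : A) : τ.norm2 (u * x) = τ.norm2 x := by
  unfold norm2
  rw [star_mul, mul_assoc, ← mul_assoc (star u), hu, one_mul]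

theorem norm2_mul_unitary {u : A} (hu : u * star u = 1) (x : A) : τ.norm2 (x * u) = τ.norm2 x := by
  rw [← norm2_star, star_mul]
  have hu' : star (star u) * star u = 1 := by rw [star_star, hu]
  rw [τ.norm2_unitary_mul hu', norm2_star]

/-- parallelogram law -/
theorem parallelogram (x y : A) :
    τ.norm2 (x + y) ^ 2 + τ.norm2 (x - y) ^ 2 = 2 * (τ.norm2 x ^ 2 + τ.norm2 y ^ 2) := by
  simp only [← norm_toL2, map_add, map_sub]
  have := parallelogram_law_with_norm ℂ (τ.toL2 x) (τ.toL2 y)
  nlinarith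

end TracialState

section CStar

variable {A : Type*} [CStarAlgebra A] (τ : TracialState A)

namespace TracialState

theorem exists_star_mul_self_add (a : A) :
    ∃ c : A, star a * a + star c * c = algebraMap ℂ A ((‖a‖ ^ 2 : ℝ) : ℂ) := by
  letI := CStarAlgebra.spectralOrder A
  haveI := CStarAlgebra.spectralOrderedRing A
  have h := CStarAlgebra.star_mul_le_algebraMap_norm_sq (a := a)
  have h2 := sub_nonneg.2 h
  obtain ⟨c, hc⟩ := CStarAlgebra.nonneg_iff_eq_star_mul_self.1 h2
  refine ⟨c, ?_⟩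
  rw [← hc]
  simp only [add_sub_cancel]
  rw [IsScalarTower.algebraMap_apply ℝ ℂ A]
  rfl

theorem norm2_mul_le_left (a b : A) : τ.norm2 (a * b) ≤ ‖a‖ * τ.norm2 b := by
  obtain ⟨c, hc⟩ := exists_star_mul_self_add a
  have h1 : τ.norm2 (a * b) ^ 2 ≤ (‖a‖ * τ.norm2 b) ^ 2 := by
    have e : star (a * b) * (a * b) = ((‖a‖ ^ 2 : ℝ) : ℂ) • (star b * b) - star (c * b) * (c * b) := by
      rw [star_mul, star_mul]
      have : star b * star a * (a * b) = star b * (star a * a) * b := by noncomm_ring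
      rw [this, eq_sub_of_add_eq hc, Algebra.smul_def]
      have h3 : star b * (algebraMap ℂ A ((‖a‖ ^ 2 : ℝ) : ℂ)) * b =
          (algebraMap ℂ A ((‖a‖ ^ 2 : ℝ) : ℂ)) * (star b * b) := by
        rw [← Algebra.commutes, mul_assoc]
      rw [mul_sub, sub_mul, h3]
      noncomm_ring
    rw [mul_pow, norm2_sq, norm2_sq, e, map_sub, map_smul, smul_eq_mul, Complex.sub_re,
      Complex.re_ofReal_mul]
    have := τ.re_nonneg (c * b)
    linarith
  exact le_of_sq_le_sq h1 (mul_nonneg (norm_nonneg _) (τ.norm2_nonneg _))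

theorem norm2_mul_le_right (a b : A) : τ.norm2 (a * b) ≤ τ.norm2 a * ‖b‖ := by
  rw [← norm2_star, star_mul]
  have := τ.norm2_mul_le_left (star b) (star a)
  rwa [norm_star, norm2_star, mul_comm] at this

theorem norm2_le_norm (a : A) : τ.norm2 a ≤ ‖a‖ := by
  have := τ.norm2_mul_le_left a 1
  rwa [mul_one, norm2_one, mul_one] at this

end TracialState

end CStar

end Pool.Agent.HomRU
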