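import Pool.Agent.HomRU.Statement
import Pool.Agent.HomRU.Ell2

set_option autoImplicit false
set_option linter.unusedSectionVars false
set_option linter.style.haveILetI false

open scoped InnerProductSpace

namespace Pool.Agent.HomRU

/-- the sign as a complex number -/
noncomputable def sg (s : ℤˣ) : ℂ := ((s : ℤ) : ℂ)

@[simp] theorem sg_one : sg 1 = 1 := by simp [sg]

theorem sg_mul (s t : ℤˣ) : sg (s * t) = sg s * sg t := by simp [sg]

@[simp] theorem sg_mul_self (s : ℤˣ) : sg s * sg s = 1 := by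
  rw [← sg_mul, Int.units_mul_self, sg_one]

@[simp] theorem conj_sg (s : ℤˣ) : (starRingEnd ℂ) (sg s) = sg s := by
  rcases Int.units_eq_one_or s with h | h <;> rw [h] <;> simp [sg]

@[simp] theorem star_sg (s : ℤˣ) : star (sg s) = sg s := conj_sg s

theorem norm_sg (s : ℤˣ) : ‖sg s‖ = 1 := by
  rcases Int.units_eq_one_or s with h | h <;> rw [h] <;> simp [sg]

theorem sg_ne_zero (s : ℤˣ) : sg s ≠ 0 := by
  intro h
  have := norm_sg s
  rw [h, norm_zero] at this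
  exact zero_ne_one this

/-- A normalised `2`-cocycle with values in `{±1}`. -/
structure SignCocycle (G : Type*) [Group G] where
  /-- the values -/
  c : G → G → ℤˣ
  one_left : ∀ g, c 1 g = 1
  one_right : ∀ g, c g 1 = 1
  cocycle : ∀ g h k, c g h * c (g * h) k = c h k * c g (h * k)

namespace SignCocycle

variable {G : Type*} [Group G] (ω : SignCocycle G)

/-- left translation `δ_h ↦ ω(g,h) δ_{gh}` -/
noncomputable def lam (g : G) : ell2 G →L[ℂ] ell2 G :=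
  opOf (orthonormal_sign_dl (fun h => g * h) (mul_right_injective g) (fun h => ω.c g h))

/-- right translation `δ_h ↦ ω(h,k) δ_{hk}` -/
noncomputable def rt (k : G) : ell2 G →L[ℂ] ell2 G :=
  opOf (orthonormal_sign_dl (fun h => h * k) (mul_left_injective k) (fun h => ω.c h k))

theorem lam_dl (g h : G) : ω.lam g (dl h) = sg (ω.c g h) • dl (g * h) := opOf_dl _ _

theorem rt_dl (k h : G) : ω.rt k (dl h) = sg (ω.c h k) • dl (h * k) := opOf_dl _ _

theorem lam_one : ω.lam 1 = 1 := by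
  apply clm_ext
  intro h
  rw [lam_dl, ω.one_left, sg_one, one_smul, one_mul]
  rfl

theorem rt_one : ω.rt 1 = 1 := by
  apply clm_ext
  intro h
  rw [rt_dl, ω.one_right, sg_one, one_smul, mul_one]
  rfl

theorem lam_mul_lam (g h : G) : ω.lam g * ω.lam h = sg (ω.c g h) • ω.lam (g * h) := by
  apply clm_ext
  intro k
  show ω.lam g (ω.lam h (dl k)) = sg (ω.c g h) • ω.lam (g * h) (dl k)
  rw [lam_dl, map_smul, lam_dl, lam_dl, smul_smul, smul_smul, ← sg_mul, ← sg_mul, mul_assoc,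
    ω.cocycle]

theorem rt_mul_rt (k l : G) : ω.rt k * ω.rt l = sg (ω.c l k) • ω.rt (l * k) := by
  apply clm_ext
  intro h
  show ω.rt k (ω.rt l (dl h)) = sg (ω.c l k) • ω.rt (l * k) (dl h)
  rw [rt_dl, map_smul, rt_dl, rt_dl, smul_smul, smul_smul, ← sg_mul, ← sg_mul, mul_assoc,
    ω.cocycle]

theorem lam_rt_comm (g k : G) : ω.lam g * ω.rt k = ω.rt k * ω.lam g := by
  apply clm_ext
  intro h
  show ω.lam g (ω.rt k (dl h)) = ω.rt k (ω.lam g (dl h))
  rw [rt_dl, map_smul, lam_dl, lam_dl, map_smul, rt_dl, smul_smul, smul_smul, ← sg_mul, ← sg_mul,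
    mul_assoc, ω.cocycle]

theorem c_inv (g : G) : ω.c g g⁻¹ = ω.c g⁻¹ g := by
  have h := ω.cocycle g g⁻¹ g
  rw [mul_inv_cancel, inv_mul_cancel, ω.one_left, ω.one_right, mul_one, mul_one] at h
  exact h

theorem star_lam_mul (g : G) : star (ω.lam g) * ω.lam g = 1 := adjoint_opOf_mul _

theorem star_rt_mul (k : G) : star (ω.rt k) * ω.rt k = 1 := adjoint_opOf_mul _

theorem star_lam (g : G) : star (ω.lam g) = sg (ω.c g g⁻¹) • ω.lam g⁻¹ := by
  have h1 : ω.lam g * (sg (ω.c g g⁻¹) • ω.lam g⁻¹) = 1 := by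
    rw [mul_smul_comm, lam_mul_lam, smul_smul, sg_mul_self, one_smul, mul_inv_cancel, lam_one]
  calc star (ω.lam g) = star (ω.lam g) * (ω.lam g * (sg (ω.c g g⁻¹) • ω.lam g⁻¹)) := by
        rw [h1, mul_one]
    _ = _ := by rw [← mul_assoc, star_lam_mul, one_mul]

theorem star_rt (k : G) : star (ω.rt k) = sg (ω.c k k⁻¹) • ω.rt k⁻¹ := by
  have h1 : ω.rt k * (sg (ω.c k k⁻¹) • ω.rt k⁻¹) = 1 := by
    rw [mul_smul_comm, rt_mul_rt, smul_smul, ← c_inv, sg_mul_self, one_smul, inv_mul_cancel, rt_one]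
  calc star (ω.rt k) = star (ω.rt k) * (ω.rt k * (sg (ω.c k k⁻¹) • ω.rt k⁻¹)) := by
        rw [h1, mul_one]
    _ = _ := by rw [← mul_assoc, star_rt_mul, one_mul]

theorem lam_mul_star (g : G) : ω.lam g * star (ω.lam g) = 1 := by
  rw [star_lam, mul_smul_comm, lam_mul_lam, smul_smul, sg_mul_self, one_smul, mul_inv_cancel,
    lam_one]

theorem rt_mul_star (k : G) : ω.rt k * star (ω.rt k) = 1 := by
  rw [star_rt, mul_smul_comm, rt_mul_rt, smul_smul, ← c_inv, sg_mul_self, one_smul, inv_mul_cancel,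
    rt_one]

/-- The twisted group von Neumann algebra, as the commutant of the right translations. -/
noncomputable def vN : VonNeumannAlgebra (ell2 G) where
  toStarSubalgebra := StarSubalgebra.centralizer ℂ (Set.range ω.rt)
  centralizer_centralizer' := by
    show Set.centralizer (Set.centralizer
      (StarSubalgebra.centralizer ℂ (Set.range ω.rt) : Set (ell2 G →L[ℂ] ell2 G))) =
      (StarSubalgebra.centralizer ℂ (Set.range ω.rt) : Set (ell2 G →L[ℂ] ell2 G))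
    rw [StarSubalgebra.coe_centralizer, Set.centralizer_centralizer_centralizer]

theorem mem_vN {x : ell2 G →L[ℂ] ell2 G} : x ∈ ω.vN ↔ ∀ k, ω.rt k * x = x * ω.rt k := by
  constructor
  · intro hx k
    have h1 : x ∈ StarSubalgebra.centralizer ℂ (Set.range ω.rt) := hx
    rw [StarSubalgebra.mem_centralizer_iff] at h1
    exact (h1 _ ⟨k, rfl⟩).1
  · intro h
    show x ∈ StarSubalgebra.centralizer ℂ (Set.range ω.rt)
    rw [StarSubalgebra.mem_centralizer_iff]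
    rintro _ ⟨k, rfl⟩
    refine ⟨h k, ?_⟩
    rw [star_rt, smul_mul_assoc, mul_smul_comm, h]

theorem lam_mem (g : G) : ω.lam g ∈ ω.vN := by
  rw [mem_vN]
  intro k
  rw [lam_rt_comm]

/-- vectors of the form `x δ_g` -/
theorem apply_dl {x : ell2 G →L[ℂ] ell2 G} (hx : x ∈ ω.vN) (g : G) :
    x (dl g) = ω.rt g (x (dl 1)) := by
  have h1 : ω.rt g (dl 1) = dl g := by
    rw [rt_dl, ω.one_left, sg_one, one_smul, one_mul]
  rw [← h1]
  have h2 := (ω.mem_vN.1 hx) g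
  exact (DFunLike.congr_fun h2 (dl 1)).symm

theorem eq_of_apply_one {x y : ell2 G →L[ℂ] ell2 G} (hx : x ∈ ω.vN) (hy : y ∈ ω.vN)
    (h : x (dl 1) = y (dl 1)) : x = y := by
  apply clm_ext
  intro g
  rw [ω.apply_dl hx, ω.apply_dl hy, h]

/-- coefficients of the adjoint -/
theorem star_apply_one {x : ell2 G →L[ℂ] ell2 G} (hx : x ∈ ω.vN) (g : G) :
    (star x) (dl 1) g = sg (ω.c g⁻¹ g) * (starRingEnd ℂ) (x (dl 1) g⁻¹) := by
  have h1 : ⟪dl g, (star x) (dl 1)⟫_ℂ = ⟪x (dl g), dl 1⟫_ℂ := by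
    rw [ContinuousLinearMap.star_eq_adjoint, ContinuousLinearMap.adjoint_inner_right]
  rw [inner_dl_left] at h1
  rw [h1, ω.apply_dl hx]
  have h2 : ω.rt g (dl g⁻¹) = sg (ω.c g⁻¹ g) • dl 1 := by
    rw [rt_dl, inv_mul_cancel]
  have h3 : dl 1 = sg (ω.c g⁻¹ g) • ω.rt g (dl g⁻¹) := by
    rw [h2, smul_smul, sg_mul_self, one_smul]
  rw [h3, inner_smul_right]
  congr 1
  have h4 : ⟪ω.rt g (x (sg (ω.c g⁻¹ g) • ω.rt g (dl g⁻¹))), ω.rt g (dl g⁻¹)⟫_ℂ =
      ⟪x (sg (ω.c g⁻¹ g) • ω.rt g (dl g⁻¹)), dl g⁻¹⟫_ℂ := inner_opOf _ _ _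
  rw [h4, ← h3, inner_dl_right]

/-- abbreviation for the type of elements of the twisted group von Neumann algebra -/
abbrev Alg : Type _ := VonNeumannAlgebra.Elem ω.vN

/-- the trace vector evaluation -/
noncomputable def ev (x : ω.Alg) : ell2 G := (x : ell2 G →L[ℂ] ell2 G) (dl 1)

theorem ev_add (x y : ω.Alg) : ω.ev (x + y) = ω.ev x + ω.ev y := rfl
theorem ev_sub (x y : ω.Alg) : ω.ev (x - y) = ω.ev x - ω.ev y := rfl
theorem ev_smul (c : ℂ) (x : ω.Alg) : ω.ev (c • x) = c • ω.ev x := rfl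
theorem ev_mul (x y : ω.Alg) : ω.ev (x * y) = (x : ell2 G →L[ℂ] ell2 G) (ω.ev y) := rfl
theorem ev_one : ω.ev 1 = dl 1 := rfl

theorem ev_injective {x y : ω.Alg} (h : ω.ev x = ω.ev y) : x = y :=
  Subtype.ext (ω.eq_of_apply_one x.2 y.2 h)

theorem ev_star (x : ω.Alg) (g : G) :
    ω.ev (star x) g = sg (ω.c g⁻¹ g) * (starRingEnd ℂ) (ω.ev x g⁻¹) :=
  ω.star_apply_one x.2 g

/-- `⟪ev x, ev y⟫ = (x* y)_1` -/
theorem ev_star_mul (x y : ω.Alg) : ω.ev (star x * y) 1 = ⟪ω.ev x, ω.ev y⟫_ℂ := by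
  rw [← inner_dl_left, ev_mul]
  show ⟪dl 1, (star (x : ell2 G →L[ℂ] ell2 G)) (ω.ev y)⟫_ℂ = _
  rw [ContinuousLinearMap.star_eq_adjoint, ContinuousLinearMap.adjoint_inner_right]
  rfl

theorem ev_mul_comm (x y : ω.Alg) : ω.ev (x * y) 1 = ω.ev (y * x) 1 := by
  have h1 := ω.ev_star_mul (star x) y
  have h2 := ω.ev_star_mul (star y) x
  rw [star_star] at h1 h2
  rw [h1, h2, lp.inner_eq_tsum, lp.inner_eq_tsum]
  have e1 : ∀ g, ⟪ω.ev (star x) g, ω.ev y g⟫_ℂ = sg (ω.c g⁻¹ g) * ω.ev x g⁻¹ * ω.ev y g := by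
    intro g
    rw [ev_star, RCLike.inner_apply', map_mul, conj_sg, Complex.conj_conj]
  have e2 : ∀ g, ⟪ω.ev (star y) g, ω.ev x g⟫_ℂ = sg (ω.c g⁻¹ g) * ω.ev y g⁻¹ * ω.ev x g := by
    intro g
    rw [ev_star, RCLike.inner_apply', map_mul, conj_sg, Complex.conj_conj]
  simp_rw [e1, e2]
  rw [← (Equiv.inv G).tsum_eq]
  congr 1
  funext g
  show sg (ω.c g⁻¹⁻¹ g⁻¹) * ω.ev x g⁻¹⁻¹ * ω.ev y g⁻¹ = _
  rw [inv_inv, ω.c_inv]
  ring

/-- The canonical trace `τ(x) = ⟪δ_1, x δ_1⟫`. -/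
noncomputable def tr : TracialState ω.Alg where
  toLin :=
    { toFun := fun x => ω.ev x 1
      map_add' := fun x y => by rw [ev_add]; rfl
      map_smul' := fun c x => by rw [ev_smul]; rfl }
  map_one := by
    show ω.ev 1 1 = 1
    rw [ev_one, dl_apply_self]
  nonneg := by
    intro x
    refine ⟨‖ω.ev x‖ ^ 2, by positivity, ?_⟩
    show ω.ev (star x * x) 1 = _
    rw [ev_star_mul, inner_self_eq_norm_sq_to_K]
    norm_cast
  tracial := ω.ev_mul_comm

theorem tr_apply (x : ω.Alg) : ω.tr.toLin x = ω.ev x 1 := rfl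

theorem norm2_eq (x : ω.Alg) : ω.tr.norm2 x = ‖ω.ev x‖ := by
  unfold TracialState.norm2
  rw [tr_apply, ev_star_mul, inner_self_eq_norm_sq_to_K]
  have : ((((‖ω.ev x‖ : ℝ) : ℂ) ^ 2)).re = ‖ω.ev x‖ ^ 2 := by norm_cast
  rw [show ((RCLike.ofReal ‖ω.ev x‖ : ℂ) ^ 2).re = ‖ω.ev x‖ ^ 2 from this]
  exact Real.sqrt_sq (norm_nonneg _)

/-- the translations as elements of the algebra -/
noncomputable def u (g : G) : ω.Alg := ⟨ω.lam g, ω.lam_mem g⟩

theorem u_one : ω.u 1 = 1 := Subtype.ext ω.lam_one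

theorem u_mul_u (g h : G) : ω.u g * ω.u h = sg (ω.c g h) • ω.u (g * h) :=
  Subtype.ext (ω.lam_mul_lam g h)

theorem star_u_mul (g : G) : star (ω.u g) * ω.u g = 1 := Subtype.ext (ω.star_lam_mul g)

theorem u_mul_star (g : G) : ω.u g * star (ω.u g) = 1 := Subtype.ext (ω.lam_mul_star g)

theorem star_u (g : G) : star (ω.u g) = sg (ω.c g g⁻¹) • ω.u g⁻¹ := Subtype.ext (ω.star_lam g)

theorem ev_u (g : G) : ω.ev (ω.u g) = dl g := by
  show ω.lam g (dl 1) = _
  rw [lam_dl, ω.one_right, sg_one, one_smul, mul_one]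

end SignCocycle

end Pool.Agent.HomRU
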