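import Pool.Agent.HomRU.Twisted

set_option autoImplicit false
set_option linter.unusedSectionVars false
set_option linter.style.haveILetI false

open scoped InnerProductSpace
open Filter Topology

namespace Pool.Agent.HomRU

namespace SignCocycle

variable {G : Type*} [Group G] (ω : SignCocycle G)

/-- finite truncation of the Fourier series -/
noncomputable def trunc (x : ω.Alg) (F : Finset G) : ω.Alg := ∑ g ∈ F, ω.ev x g • ω.u g

/-- `ev` as a linear map -/
noncomputable def evL : ω.Alg →ₗ[ℂ] ell2 G where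
  toFun := ω.ev
  map_add' := ω.ev_add
  map_smul' := ω.ev_smul

theorem ev_sum {ι : Type*} (s : Finset ι) (f : ι → ω.Alg) :
    ω.ev (∑ i ∈ s, f i) = ∑ i ∈ s, ω.ev (f i) := map_sum ω.evL f s

theorem ev_trunc (x : ω.Alg) (F : Finset G) :
    ω.ev (ω.trunc x F) = ∑ g ∈ F, ω.ev x g • dl g := by
  unfold trunc
  rw [ev_sum]
  simp_rw [ev_smul, ev_u]

theorem tendsto_trunc (x : ω.Alg) :
    Tendsto (fun F => ω.tr.norm2 (x - ω.trunc x F)) atTop (𝓝 0) := by
  simp_rw [norm2_eq, ev_sub, ev_trunc]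
  have h : HasSum (fun g => ω.ev x g • dl g) (ω.ev x) := hasSum_dl (ω.ev x)
  have h1 : Tendsto (fun F : Finset G => ω.ev x - ∑ g ∈ F, ω.ev x g • dl g) atTop
      (𝓝 (ω.ev x - ω.ev x)) := tendsto_const_nhds.sub h
  rw [sub_self] at h1
  exact tendsto_zero_iff_norm_tendsto_zero.1 h1

/-- an operator commuting with all left translations commutes with the algebra -/
theorem comm_of_comm_lam (x : ω.Alg) (y : ell2 G →L[ℂ] ell2 G)
    (hy : ∀ g, ω.lam g * y = y * ω.lam g) : (x : ell2 G →L[ℂ] ell2 G) * y = y * x := by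
  have hsum : ∀ F : Finset G, ((ω.trunc x F : ω.Alg) : ell2 G →L[ℂ] ell2 G) * y =
      y * (ω.trunc x F : ω.Alg) := by
    intro F
    have e : ((ω.trunc x F : ω.Alg) : ell2 G →L[ℂ] ell2 G) = ∑ g ∈ F, ω.ev x g • ω.lam g := by
      unfold trunc
      rw [AddSubmonoidClass.coe_finsetSum]
      rfl
    rw [e, Finset.sum_mul, Finset.mul_sum]
    refine Finset.sum_congr rfl fun g _ => ?_
    rw [smul_mul_assoc, mul_smul_comm, hy]
  apply clm_ext
  intro a
  apply ell2_ext
  intro b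
  -- both sides are limits of the same net
  have hlim : ∀ z : ω.Alg, ∀ c : G, ‖(z : ell2 G →L[ℂ] ell2 G) (dl c)‖ = ω.tr.norm2 z := by
    intro z c
    rw [ω.apply_dl z.2 c, norm2_eq]
    exact norm_opOf _ _
  have h1 : Tendsto (fun F => ⟪dl b, (y * ((ω.trunc x F : ω.Alg) : ell2 G →L[ℂ] ell2 G)) (dl a)⟫_ℂ)
      atTop (𝓝 ⟪dl b, (y * (x : ell2 G →L[ℂ] ell2 G)) (dl a)⟫_ℂ) := by
    rw [tendsto_iff_norm_sub_tendsto_zero]
    have hb := (ω.tendsto_trunc x).const_mul ‖y‖
    rw [mul_zero] at hb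
    refine squeeze_zero (fun F => norm_nonneg _) (fun F => ?_) hb
    rw [← inner_sub_right]
    refine (norm_inner_le_norm _ _).trans ?_
    rw [norm_dl, one_mul]
    show ‖y _ - y _‖ ≤ _
    rw [← map_sub, ← norm_neg, ← map_neg, neg_sub]
    refine (y.le_opNorm _).trans (mul_le_mul_of_nonneg_left (le_of_eq ?_) (norm_nonneg _))
    exact hlim (x - ω.trunc x F) a
  have h2 : Tendsto (fun F => ⟪dl b, (((ω.trunc x F : ω.Alg) : ell2 G →L[ℂ] ell2 G) * y) (dl a)⟫_ℂ)
      atTop (𝓝 ⟪dl b, ((x : ell2 G →L[ℂ] ell2 G) * y) (dl a)⟫_ℂ) := by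
    rw [tendsto_iff_norm_sub_tendsto_zero]
    have hb := (ω.tendsto_trunc x).mul_const ‖y (dl a)‖
    rw [zero_mul] at hb
    refine squeeze_zero (fun F => norm_nonneg _) (fun F => ?_) hb
    have e : ∀ z : ω.Alg, ⟪dl b, ((z : ell2 G →L[ℂ] ell2 G) * y) (dl a)⟫_ℂ =
        ⟪((star z : ω.Alg) : ell2 G →L[ℂ] ell2 G) (dl b), y (dl a)⟫_ℂ := by
      intro z
      show _ = ⟪(star (z : ell2 G →L[ℂ] ell2 G)) (dl b), y (dl a)⟫_ℂ
      rw [ContinuousLinearMap.star_eq_adjoint, ContinuousLinearMap.adjoint_inner_left]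
      rfl
    rw [e, e, ← inner_sub_left]
    refine (norm_inner_le_norm _ _).trans (mul_le_mul_of_nonneg_right (le_of_eq ?_) (norm_nonneg _))
    rw [← ω.tr.norm2_star, ← ω.tr.norm2_neg, star_sub, neg_sub]
    exact hlim (star (ω.trunc x F) - star x) b
  simp_rw [hsum] at h2
  exact (tendsto_nhds_unique h1 h2).symm

/-- the algebra is generated by the left translations -/
theorem vN_le (N : VonNeumannAlgebra (ell2 G)) (hN : ∀ g, ω.lam g ∈ N) : ω.vN ≤ N := by
  intro x hx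
  rw [← N.commutant_commutant, VonNeumannAlgebra.mem_commutant_iff]
  intro y hy
  rw [VonNeumannAlgebra.mem_commutant_iff] at hy
  exact (ω.comm_of_comm_lam ⟨x, hx⟩ y fun g => hy _ (hN g)).symm

/-- coefficients of elements commuting with `λ_h` -/
theorem comm_coeff {x : ell2 G →L[ℂ] ell2 G} (hx : x ∈ ω.vN) (h : G)
    (hc : ω.lam h * x = x * ω.lam h) (g : G) :
    sg (ω.c h g) * x (dl 1) g = sg (ω.c (h * g * h⁻¹) h) * x (dl 1) (h * g * h⁻¹) := by
  have h1 : ω.lam h (x (dl 1)) = ω.rt h (x (dl 1)) := by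
    have h2 := DFunLike.congr_fun hc (dl 1)
    have h3 : ω.lam h (x (dl 1)) = x (ω.lam h (dl 1)) := h2
    rw [h3, lam_dl, ω.one_right, sg_one, one_smul, mul_one, ω.apply_dl hx]
  have h4 : ω.lam h (x (dl 1)) (h * g) = sg (ω.c h g) * x (dl 1) g := by
    have h5 : dl (h * g) = sg (ω.c h g) • ω.lam h (dl g) := by
      rw [lam_dl, smul_smul, sg_mul_self, one_smul]
    rw [← inner_dl_left, h5, inner_smul_left, conj_sg]
    congr 1
    have h6 : ⟪ω.lam h (dl g), ω.lam h (x (dl 1))⟫_ℂ = ⟪dl g, x (dl 1)⟫_ℂ := inner_opOf _ _ _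
    rw [h6, inner_dl_left]
  have h7 : ω.rt h (x (dl 1)) (h * g) =
      sg (ω.c (h * g * h⁻¹) h) * x (dl 1) (h * g * h⁻¹) := by
    have h5 : dl (h * g) = sg (ω.c (h * g * h⁻¹) h) • ω.rt h (dl (h * g * h⁻¹)) := by
      rw [rt_dl, smul_smul, sg_mul_self, one_smul, inv_mul_cancel_right]
    rw [← inner_dl_left, h5, inner_smul_left, conj_sg]
    congr 1
    have h6 : ⟪ω.rt h (dl (h * g * h⁻¹)), ω.rt h (x (dl 1))⟫_ℂ = ⟪dl (h * g * h⁻¹), x (dl 1)⟫_ℂ :=
      inner_opOf _ _ _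
    rw [h6, inner_dl_left]
  rw [← h4, ← h7, h1]

/-- coefficients of central elements -/
theorem central_coeff {x : ell2 G →L[ℂ] ell2 G} (hx : x ∈ ω.vN) (hc : ∀ h, ω.lam h * x = x * ω.lam h)
    (g h : G) : sg (ω.c h g) * x (dl 1) g = sg (ω.c (h * g * h⁻¹) h) * x (dl 1) (h * g * h⁻¹) :=
  ω.comm_coeff hx h (hc h) g

theorem isFactor (hω : ∀ g : G, g ≠ 1 → (∃ h, h * g = g * h ∧ ω.c h g ≠ ω.c g h) ∨
    Set.Infinite {k : G | ∃ h, k = h * g * h⁻¹}) : IsFactor ω.vN := by
  intro x hx hx'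
  have hc : ∀ h, ω.lam h * x = x * ω.lam h := fun h =>
    (VonNeumannAlgebra.mem_commutant_iff.1 hx') _ (ω.lam_mem h)
  have hzero : ∀ g : G, g ≠ 1 → x (dl 1) g = 0 := by
    intro g hg
    rcases hω g hg with ⟨h, h1, h2⟩ | hinf
    · have h3 := ω.central_coeff hx hc g h
      have h4 : h * g * h⁻¹ = g := by rw [h1, mul_inv_cancel_right]
      rw [h4] at h3
      have h5 : sg (ω.c h g) ≠ sg (ω.c g h) := by
        intro h6
        apply h2
        have h7 : ((ω.c h g : ℤ) : ℂ) = ((ω.c g h : ℤ) : ℂ) := h6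
        exact Units.ext (Int.cast_injective h7)
      by_contra h6
      exact h5 (mul_right_cancel₀ h6 h3)
    · have hnorm : ∀ k ∈ {k : G | ∃ h, k = h * g * h⁻¹}, ‖x (dl 1) k‖ = ‖x (dl 1) g‖ := by
        rintro k ⟨h, rfl⟩
        have h3 := congrArg norm (ω.central_coeff hx hc g h)
        rw [norm_mul, norm_mul, norm_sg, norm_sg, one_mul, one_mul] at h3
        exact h3.symm
      by_contra h6
      have hpos : 0 < ‖x (dl 1) g‖ ^ 2 := by positivity
      have hsum : Summable fun k => ‖x (dl 1) k‖ ^ 2 := by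
        have := lp.summable_inner (𝕜 := ℂ) (x (dl 1)) (x (dl 1))
        refine (this.norm).congr fun k => ?_
        rw [RCLike.inner_apply', norm_mul, RCLike.norm_conj]
        ring
      have h7 := hsum.tendsto_cofinite_zero
      have h8 : ∀ᶠ k in cofinite, ‖x (dl 1) k‖ ^ 2 < ‖x (dl 1) g‖ ^ 2 := by
        exact h7.eventually (gt_mem_nhds hpos)
      rw [Filter.eventually_cofinite] at h8
      refine hinf (h8.subset ?_)
      intro k hk
      show ¬ _
      rw [hnorm k hk]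
      exact lt_irrefl _
  refine ⟨x (dl 1) 1, ?_⟩
  have hmem : (x (dl 1) 1) • (1 : ell2 G →L[ℂ] ell2 G) ∈ ω.vN := by
    rw [mem_vN]
    intro k
    rw [mul_smul_comm, smul_mul_assoc, mul_one, one_mul]
  refine ω.eq_of_apply_one hx hmem ?_
  apply lp.ext
  funext g
  show x (dl 1) g = (x (dl 1) 1 • dl 1 : ell2 G) g
  rw [lp.coeFn_smul, Pi.smul_apply, smul_eq_mul]
  by_cases hg : g = 1
  · rw [hg, dl_apply_self, mul_one]
  · rw [dl_apply_ne hg, mul_zero, hzero g hg]

theorem linearIndependent_u : LinearIndependent ℂ ω.u := by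
  have h : LinearIndependent ℂ (ω.evL ∘ ω.u) := by
    have e : (ω.evL ∘ ω.u) = (dl : G → ell2 G) := by
      funext g
      exact ω.ev_u g
    rw [e]
    exact orthonormal_dl.linearIndependent
  exact h.of_comp _

theorem not_finiteDimensional [Infinite G] : ¬ FiniteDimensional ℂ ω.Alg := by
  intro h
  have h1 := ω.linearIndependent_u
  have : Finite G := h1.finite
  exact not_finite G

unseal VElem.instCStarAlgebra in
theorem isIIOneFactor [Infinite G] (hω : ∀ g : G, g ≠ 1 → (∃ h, h * g = g * h ∧ ω.c h g ≠ ω.c g h) ∨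
    Set.Infinite {k : G | ∃ h, k = h * g * h⁻¹}) : IsIIOneFactor ω.vN :=
  ⟨ω.isFactor hω, ω.not_finiteDimensional, ⟨ω.tr⟩⟩

/-- the span of a subgroup -/
noncomputable def spanSub (K : Subgroup G) : StarSubalgebra ℂ ω.Alg where
  carrier := (Submodule.span ℂ (ω.u '' (K : Set G)) : Set ω.Alg)
  mul_mem' := by
    intro a b ha hb
    refine Submodule.span_induction₂ (p := fun a b _ _ => a * b ∈
      Submodule.span ℂ (ω.u '' (K : Set G))) ?_ ?_ ?_ ?_ ?_ ?_ ?_ ha hb
    · rintro _ _ ⟨g, hg, rfl⟩ ⟨h, hh, rfl⟩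
      rw [u_mul_u]
      exact Submodule.smul_mem _ _ (Submodule.subset_span ⟨g * h, K.mul_mem hg hh, rfl⟩)
    · intro y _; rw [zero_mul]; exact Submodule.zero_mem _
    · intro x _; rw [mul_zero]; exact Submodule.zero_mem _
    · intro x y z _ _ _ h1 h2; rw [add_mul]; exact Submodule.add_mem _ h1 h2
    · intro x y z _ _ _ h1 h2; rw [mul_add]; exact Submodule.add_mem _ h1 h2
    · intro r x y _ _ h1; rw [smul_mul_assoc]; exact Submodule.smul_mem _ _ h1
    · intro r x y _ _ h1; rw [mul_smul_comm]; exact Submodule.smul_mem _ _ h1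
  add_mem' := fun ha hb => Submodule.add_mem _ ha hb
  algebraMap_mem' := by
    intro r
    rw [Algebra.algebraMap_eq_smul_one, ← ω.u_one]
    exact Submodule.smul_mem _ _ (Submodule.subset_span ⟨1, K.one_mem, rfl⟩)
  star_mem' := by
    intro a ha
    refine Submodule.span_induction (p := fun a _ => star a ∈
      Submodule.span ℂ (ω.u '' (K : Set G))) ?_ ?_ ?_ ?_ ha
    · rintro _ ⟨g, hg, rfl⟩
      rw [star_u]
      exact Submodule.smul_mem _ _ (Submodule.subset_span ⟨g⁻¹, K.inv_mem hg, rfl⟩)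
    · rw [star_zero]; exact Submodule.zero_mem _
    · intro x y _ _ h1 h2; rw [star_add]; exact Submodule.add_mem _ h1 h2
    · intro r x _ h1; rw [star_smul]; exact Submodule.smul_mem _ _ h1

theorem exists_filtration (K : ℕ → Subgroup G) (hK : Monotone K)
    (hfin : ∀ n, Finite (K n)) (hun : ∀ g, ∃ n, g ∈ K n) :
    ∃ F : ℕ → Set ω.Alg, Monotone F ∧ (∀ n, IsFinDimStarAlgebra (F n)) ∧
    ∀ N : VonNeumannAlgebra (ell2 G), (∀ n, ∀ x ∈ F n, x.1 ∈ N) → ω.vN ≤ N := by
  refine ⟨fun n => (Submodule.span ℂ (ω.u '' (K n : Set G)) : Set ω.Alg), ?_, ?_, ?_⟩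
  · intro m n hmn x hx
    exact Submodule.span_mono (Set.image_mono (hK hmn)) hx
  · intro n
    refine ⟨Submodule.span ℂ (ω.u '' (K n : Set G)), rfl, ?_, ?_, ?_⟩
    · haveI := hfin n
      have hf : (ω.u '' (K n : Set G)).Finite := (Set.toFinite (K n : Set G)).image _
      exact FiniteDimensional.span_of_finite ℂ hf
    · intro x hx y hy
      exact (ω.spanSub (K n)).mul_mem hx hy
    · intro x hx
      exact (ω.spanSub (K n)).star_mem' hx
  · intro N hN
    apply ω.vN_le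
    intro g
    obtain ⟨n, hn⟩ := hun g
    exact hN n (ω.u g) (Submodule.subset_span ⟨g, hn, rfl⟩)

unseal VElem.instCStarAlgebra in
/-- If `G` is an increasing union of finite subgroups then the algebra is hyperfinite. -/
theorem isHyperfinite [Infinite G] (hω : ∀ g : G, g ≠ 1 → (∃ h, h * g = g * h ∧ ω.c h g ≠ ω.c g h) ∨
    Set.Infinite {k : G | ∃ h, k = h * g * h⁻¹}) (K : ℕ → Subgroup G) (hK : Monotone K)
    (hfin : ∀ n, Finite (K n)) (hun : ∀ g, ∃ n, g ∈ K n) : IsHyperfiniteIIOneFactor ω.vN :=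
  ⟨ω.isIIOneFactor hω, ω.exists_filtration K hK hfin hun⟩

end SignCocycle

end Pool.Agent.HomRU
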