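import Pool.Agent.HomRU.Tracial

set_option autoImplicit false
set_option linter.unusedSectionVars false
set_option linter.style.haveILetI false

open Filter Topology
open scoped ComplexConjugate

namespace Pool.Agent.HomRU

/-! ### The tracial ultrapower -/

/-- The `*`-algebra of norm-bounded sequences in `A`, as a subalgebra of all sequences. -/
def bddSub (A : Type*) [CStarAlgebra A] : StarSubalgebra ℂ (ℕ → A) where
  carrier := {x | ∃ C : ℝ, ∀ n, ‖x n‖ ≤ C}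
  mul_mem' := by
    rintro x y ⟨C, hC⟩ ⟨D, hD⟩
    refine ⟨C * D, fun n => ?_⟩
    exact (norm_mul_le _ _).trans (mul_le_mul (hC n) (hD n) (norm_nonneg _)
      ((norm_nonneg _).trans (hC n)))
  add_mem' := by
    rintro x y ⟨C, hC⟩ ⟨D, hD⟩
    exact ⟨C + D, fun n => (norm_add_le _ _).trans (add_le_add (hC n) (hD n))⟩
  algebraMap_mem' := by
    intro r
    exact ⟨‖algebraMap ℂ A r‖, fun n => le_rfl⟩
  star_mem' := by
    rintro x ⟨C, hC⟩
    exact ⟨C, fun n => by rw [Pi.star_apply, norm_star]; exact hC n⟩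

/-- The type of norm-bounded sequences in `A`. -/
def BddSeq (A : Type*) [CStarAlgebra A] : Type _ := bddSub A

namespace BddSeq

variable (A : Type*) [CStarAlgebra A]

noncomputable instance instRing : Ring (BddSeq A) := (inferInstance : Ring (bddSub A))
noncomputable instance instAlgebra : Algebra ℂ (BddSeq A) := (inferInstance : Algebra ℂ (bddSub A))
noncomputable instance instStarRing : StarRing (BddSeq A) := (inferInstance : StarRing (bddSub A))
instance instStarModule : StarModule ℂ (BddSeq A) := (inferInstance : StarModule ℂ (bddSub A))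

variable {A}

/-- The underlying sequence. -/
def seq (x : BddSeq A) : ℕ → A := x.1

end BddSeq

section

variable {A : Type*} [CStarAlgebra A]

theorem bddSeq_bound (x : BddSeq A) : ∃ C : ℝ, 0 < C ∧ ∀ n, ‖x.1 n‖ ≤ C := by
  obtain ⟨C, hC⟩ := x.2
  exact ⟨max C 1, lt_max_of_lt_right one_pos, fun n => (hC n).trans (le_max_left _ _)⟩

variable (τ : TracialState A) (𝒰 : Ultrafilter ℕ)

/-- The ideal of bounded sequences with `lim_𝒰 ‖x_n‖₂ = 0`. -/
def nullIdeal : Ideal (BddSeq A) where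
  carrier := {x | Tendsto (fun n => τ.norm2 (x.seq n)) 𝒰 (𝓝 0)}
  add_mem' := by
    intro x y hx hy
    have h := hx.add hy
    rw [add_zero] at h
    exact squeeze_zero (fun n => τ.norm2_nonneg _) (fun n => τ.norm2_add_le _ _) h
  zero_mem' := by
    show Tendsto (fun n : ℕ => τ.norm2 0) (𝒰 : Filter ℕ) (𝓝 0)
    rw [τ.norm2_zero]
    exact tendsto_const_nhds
  smul_mem' := by
    intro c x hx
    obtain ⟨C, hC0, hC⟩ := bddSeq_bound c
    have h := hx.const_mul C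
    rw [mul_zero] at h
    refine squeeze_zero (fun n => τ.norm2_nonneg _) (fun n => ?_) h
    exact (τ.norm2_mul_le_left _ _).trans (mul_le_mul_of_nonneg_right (hC n) (τ.norm2_nonneg _))

theorem mem_nullIdeal {x : BddSeq A} :
    x ∈ nullIdeal τ 𝒰 ↔ Tendsto (fun n => τ.norm2 (x.1 n)) 𝒰 (𝓝 0) := Iff.rfl

instance : (nullIdeal τ 𝒰).IsTwoSided where
  mul_mem_of_left := by
    intro x c hx
    obtain ⟨C, hC0, hC⟩ := bddSeq_bound c
    have h := (show Tendsto (fun n => τ.norm2 (x.1 n)) 𝒰 (𝓝 0) from hx).mul_const C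
    rw [zero_mul] at h
    refine squeeze_zero (fun n => τ.norm2_nonneg _) (fun n => ?_) h
    exact (τ.norm2_mul_le_right _ _).trans (mul_le_mul_of_nonneg_left (hC n) (τ.norm2_nonneg _))

/-- The tracial ultrapower `A^𝒰`: bounded sequences modulo those with `lim_𝒰 ‖x_n‖₂ = 0`. -/
def Ultrapower : Type _ := BddSeq A ⧸ nullIdeal τ 𝒰

namespace Ultrapower

noncomputable instance instRing : Ring (Ultrapower τ 𝒰) :=
  (inferInstance : Ring (BddSeq A ⧸ nullIdeal τ 𝒰))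
noncomputable instance instAlgebra : Algebra ℂ (Ultrapower τ 𝒰) :=
  (inferInstance : Algebra ℂ (BddSeq A ⧸ nullIdeal τ 𝒰))

/-- the class of a bounded sequence, as an algebra homomorphism -/
noncomputable def mkAlg : BddSeq A →ₐ[ℂ] Ultrapower τ 𝒰 := Ideal.Quotient.mkₐ ℂ (nullIdeal τ 𝒰)

theorem mkAlg_eq_iff {x y : BddSeq A} :
    mkAlg τ 𝒰 x = mkAlg τ 𝒰 y ↔ Tendsto (fun n => τ.norm2 (x.1 n - y.1 n)) 𝒰 (𝓝 0) :=
  Ideal.Quotient.eq (I := nullIdeal τ 𝒰)

theorem mkAlg_surjective : Function.Surjective (mkAlg τ 𝒰) :=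
  Ideal.Quotient.mk_surjective (I := nullIdeal τ 𝒰)

noncomputable instance : Star (Ultrapower τ 𝒰) where
  star := Quotient.map' (fun x : BddSeq A => star x) (by
    intro x y h
    have h1 : mkAlg τ 𝒰 x = mkAlg τ 𝒰 y := Quotient.sound' h
    have h2 : mkAlg τ 𝒰 (star x) = mkAlg τ 𝒰 (star y) := by
      rw [mkAlg_eq_iff] at h1 ⊢
      refine h1.congr fun n => ?_
      rw [← τ.norm2_star, star_sub]
      rfl
    exact Quotient.exact' h2)

theorem star_mkAlg (x : BddSeq A) : star (mkAlg τ 𝒰 x) = mkAlg τ 𝒰 (star x) := rfl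

noncomputable instance : StarRing (Ultrapower τ 𝒰) where
  star_involutive x := by
    obtain ⟨x, rfl⟩ := mkAlg_surjective τ 𝒰 x
    rw [star_mkAlg, star_mkAlg, star_star]
  star_mul x y := by
    obtain ⟨x, rfl⟩ := mkAlg_surjective τ 𝒰 x
    obtain ⟨y, rfl⟩ := mkAlg_surjective τ 𝒰 y
    rw [← map_mul, star_mkAlg, star_mkAlg, star_mkAlg, star_mul, map_mul]
  star_add x y := by
    obtain ⟨x, rfl⟩ := mkAlg_surjective τ 𝒰 x
    obtain ⟨y, rfl⟩ := mkAlg_surjective τ 𝒰 y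
    rw [← map_add, star_mkAlg, star_mkAlg, star_mkAlg, star_add, map_add]

instance : StarModule ℂ (Ultrapower τ 𝒰) where
  star_smul c x := by
    obtain ⟨x, rfl⟩ := mkAlg_surjective τ 𝒰 x
    rw [← map_smul, star_mkAlg, star_mkAlg, star_smul, map_smul]

/-- the class of a bounded sequence, as a `*`-homomorphism -/
noncomputable def mk : BddSeq A →⋆ₐ[ℂ] Ultrapower τ 𝒰 where
  __ := mkAlg τ 𝒰
  map_star' _ := rfl

theorem mk_eq_iff {x y : BddSeq A} :
    mk τ 𝒰 x = mk τ 𝒰 y ↔ Tendsto (fun n => τ.norm2 (x.1 n - y.1 n)) 𝒰 (𝓝 0) :=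
  mkAlg_eq_iff τ 𝒰

theorem mk_surjective : Function.Surjective (mk τ 𝒰) := mkAlg_surjective τ 𝒰

end Ultrapower

/-! limits along ultrafilters -/

theorem exists_tendsto_of_bdd (f : ℕ → ℂ) (C : ℝ) (hC : ∀ n, ‖f n‖ ≤ C) :
    ∃ z, Tendsto f 𝒰 (𝓝 z) := by
  have hc : IsCompact (Metric.closedBall (0 : ℂ) C) := isCompact_closedBall 0 C
  have h1 : (𝒰.map f : Filter ℂ) ≤ 𝓟 (Metric.closedBall (0 : ℂ) C) := by
    rw [le_principal_iff, Ultrafilter.mem_coe, Ultrafilter.mem_map]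
    exact Filter.univ_mem' fun n => by
      rw [Set.mem_preimage, mem_closedBall_zero_iff]; exact hC n
  obtain ⟨z, _, hz⟩ := hc.ultrafilter_le_nhds (𝒰.map f) h1
  exact ⟨z, hz⟩

theorem exists_tendsto_of_bdd_real (f : ℕ → ℝ) (C : ℝ) (hC : ∀ n, |f n| ≤ C) :
    ∃ z, Tendsto f 𝒰 (𝓝 z) := by
  have hc : IsCompact (Metric.closedBall (0 : ℝ) C) := isCompact_closedBall 0 C
  have h1 : (𝒰.map f : Filter ℝ) ≤ 𝓟 (Metric.closedBall (0 : ℝ) C) := by
    rw [le_principal_iff, Ultrafilter.mem_coe, Ultrafilter.mem_map]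
    exact Filter.univ_mem' fun n => by
      rw [Set.mem_preimage, mem_closedBall_zero_iff]; exact hC n
  obtain ⟨z, _, hz⟩ := hc.ultrafilter_le_nhds (𝒰.map f) h1
  exact ⟨z, hz⟩

theorem tendsto_trace (x : BddSeq A) :
    Tendsto (fun n => τ.toLin (x.1 n)) 𝒰 (𝓝 (limUnder 𝒰 (fun n => τ.toLin (x.1 n)))) := by
  obtain ⟨C, _, hC⟩ := bddSeq_bound x
  exact tendsto_nhds_limUnder (exists_tendsto_of_bdd 𝒰 _ C fun n =>
    ((τ.norm_toLin_le _).trans (τ.norm2_le_norm _)).trans (hC n))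

namespace Ultrapower

/-- The ultrapower trace as a function: `τ([x_n]) = lim_𝒰 τ(x_n)`. -/
noncomputable def trFun : Ultrapower τ 𝒰 → ℂ :=
  Quotient.lift (fun x : BddSeq A => limUnder 𝒰 (fun n => τ.toLin (x.seq n))) (by
    intro x y h
    have h1 : mkAlg τ 𝒰 x = mkAlg τ 𝒰 y := Quotient.sound h
    rw [mkAlg_eq_iff] at h1
    have h2 : Tendsto (fun n => τ.toLin (x.1 n) - τ.toLin (y.1 n)) 𝒰 (𝓝 0) := by
      rw [tendsto_zero_iff_norm_tendsto_zero]
      refine squeeze_zero (fun n => norm_nonneg _) (fun n => ?_) h1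
      rw [← map_sub]
      exact τ.norm_toLin_le _
    have h3 := (tendsto_trace τ 𝒰 x).sub (tendsto_trace τ 𝒰 y)
    exact sub_eq_zero.1 (tendsto_nhds_unique h3 h2))

theorem trFun_mk (x : BddSeq A) :
    trFun τ 𝒰 (mk τ 𝒰 x) = limUnder 𝒰 (fun n => τ.toLin (x.1 n)) := rfl

theorem tendsto_trFun (x : BddSeq A) :
    Tendsto (fun n => τ.toLin (x.1 n)) 𝒰 (𝓝 (trFun τ 𝒰 (mk τ 𝒰 x))) := tendsto_trace τ 𝒰 x

theorem trFun_mk_eq {x : BddSeq A} {z : ℂ} (h : Tendsto (fun n => τ.toLin (x.1 n)) 𝒰 (𝓝 z)) :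
    trFun τ 𝒰 (mk τ 𝒰 x) = z := tendsto_nhds_unique (tendsto_trFun τ 𝒰 x) h

/-- The trace of the ultrapower: `τ([x_n]) = lim_𝒰 τ(x_n)`. -/
noncomputable def trace : TracialState (Ultrapower τ 𝒰) where
  toLin :=
    { toFun := trFun τ 𝒰
      map_add' := by
        intro x y
        obtain ⟨x, rfl⟩ := mk_surjective τ 𝒰 x
        obtain ⟨y, rfl⟩ := mk_surjective τ 𝒰 y
        rw [← map_add]
        apply trFun_mk_eq
        refine ((tendsto_trFun τ 𝒰 x).add (tendsto_trFun τ 𝒰 y)).congr fun n => ?_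
        rw [← map_add]
        rfl
      map_smul' := by
        intro c x
        obtain ⟨x, rfl⟩ := mk_surjective τ 𝒰 x
        rw [← map_smul]
        apply trFun_mk_eq
        refine ((tendsto_trFun τ 𝒰 x).const_mul c).congr fun n => ?_
        rw [← smul_eq_mul, ← map_smul]
        rfl }
  map_one := by
    show trFun τ 𝒰 1 = 1
    rw [← map_one (mk τ 𝒰)]
    apply trFun_mk_eq
    refine tendsto_const_nhds.congr fun n => ?_
    exact τ.map_one.symm
  nonneg := by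
    intro x
    obtain ⟨x, rfl⟩ := mk_surjective τ 𝒰 x
    obtain ⟨C, hC0, hC⟩ := bddSeq_bound x
    obtain ⟨r, hr⟩ := exists_tendsto_of_bdd_real 𝒰 (fun n => (τ.toLin (star (x.1 n) * x.1 n)).re)
      (C * C) (by
        intro n
        refine (Complex.abs_re_le_norm _).trans ((τ.norm_toLin_star_mul_le _ _).trans ?_)
        have h1 := (τ.norm2_le_norm (x.1 n)).trans (hC n)
        exact mul_le_mul h1 h1 (τ.norm2_nonneg _) hC0.le)
    refine ⟨r, ?_, ?_⟩
    · exact ge_of_tendsto' hr fun n => τ.re_nonneg _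
    · show trFun τ 𝒰 (star (mk τ 𝒰 x) * mk τ 𝒰 x) = ((r : ℝ) : ℂ)
      rw [← map_star, ← map_mul]
      apply trFun_mk_eq
      refine ((Complex.continuous_ofReal.tendsto r).comp hr).congr fun n => ?_
      show (((τ.toLin (star (x.1 n) * x.1 n)).re : ℝ) : ℂ) = τ.toLin (star (x.1 n) * x.1 n)
      apply Complex.ext
      · rw [Complex.ofReal_re]
      · rw [Complex.ofReal_im, τ.im_eq_zero]
  tracial := by
    intro x y
    obtain ⟨x, rfl⟩ := mk_surjective τ 𝒰 x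
    obtain ⟨y, rfl⟩ := mk_surjective τ 𝒰 y
    show trFun τ 𝒰 (mk τ 𝒰 x * mk τ 𝒰 y) = trFun τ 𝒰 (mk τ 𝒰 y * mk τ 𝒰 x)
    rw [← map_mul, ← map_mul]
    apply trFun_mk_eq
    refine (tendsto_trFun τ 𝒰 (y * x)).congr fun n => ?_
    exact τ.tracial _ _

theorem trace_mk (x : BddSeq A) :
    Tendsto (fun n => τ.toLin (x.1 n)) 𝒰 (𝓝 ((trace τ 𝒰).toLin (mk τ 𝒰 x))) :=
  tendsto_trFun τ 𝒰 x

theorem trace_mk_eq {x : BddSeq A} {z : ℂ} (h : Tendsto (fun n => τ.toLin (x.1 n)) 𝒰 (𝓝 z)) :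
    (trace τ 𝒰).toLin (mk τ 𝒰 x) = z := trFun_mk_eq τ 𝒰 h

theorem tendsto_norm2 (x : BddSeq A) :
    Tendsto (fun n => τ.norm2 (x.1 n)) 𝒰 (𝓝 ((trace τ 𝒰).norm2 (mk τ 𝒰 x))) := by
  unfold TracialState.norm2
  refine (Real.continuous_sqrt.tendsto _).comp ?_
  refine (Complex.continuous_re.tendsto _).comp ?_
  have := trace_mk τ 𝒰 (star x * x)
  rwa [map_mul, map_star] at this

theorem norm2_mk_eq {x : BddSeq A} {r : ℝ} (h : Tendsto (fun n => τ.norm2 (x.1 n)) 𝒰 (𝓝 r)) :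
    (trace τ 𝒰).norm2 (mk τ 𝒰 x) = r := tendsto_nhds_unique (tendsto_norm2 τ 𝒰 x) h

theorem norm2_eq_zero_iff (x : Ultrapower τ 𝒰) : (trace τ 𝒰).norm2 x = 0 ↔ x = 0 := by
  obtain ⟨x, rfl⟩ := mk_surjective τ 𝒰 x
  constructor
  · intro h
    have h1 := tendsto_norm2 τ 𝒰 x
    rw [h] at h1
    rw [← map_zero (mk τ 𝒰), mk_eq_iff]
    refine h1.congr fun n => ?_
    show _ = τ.norm2 (x.1 n - 0)
    rw [sub_zero]
  · intro h
    rw [h, TracialState.norm2_zero]

/-- multiplication by a fixed element is bounded in `2`-norm -/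
theorem exists_mul_bound (x : Ultrapower τ 𝒰) :
    ∃ C : ℝ, 0 < C ∧ ∀ y, (trace τ 𝒰).norm2 (x * y) ≤ C * (trace τ 𝒰).norm2 y ∧
      (trace τ 𝒰).norm2 (y * x) ≤ C * (trace τ 𝒰).norm2 y := by
  obtain ⟨x, rfl⟩ := mk_surjective τ 𝒰 x
  obtain ⟨C, hC0, hC⟩ := bddSeq_bound x
  refine ⟨C, hC0, fun y => ?_⟩
  obtain ⟨y, rfl⟩ := mk_surjective τ 𝒰 y
  rw [← map_mul, ← map_mul]
  constructor
  · refine le_of_tendsto_of_tendsto' (tendsto_norm2 τ 𝒰 (x * y))
      ((tendsto_norm2 τ 𝒰 y).const_mul C) fun n => ?_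
    exact (τ.norm2_mul_le_left _ _).trans (mul_le_mul_of_nonneg_right (hC n) (τ.norm2_nonneg _))
  · refine le_of_tendsto_of_tendsto' (tendsto_norm2 τ 𝒰 (y * x))
      ((tendsto_norm2 τ 𝒰 y).const_mul C) fun n => ?_
    refine (τ.norm2_mul_le_right _ _).trans ?_
    rw [mul_comm]
    exact mul_le_mul_of_nonneg_right (hC n) (τ.norm2_nonneg _)

end Ultrapower

end

attribute [irreducible] Ultrapower.instRing Ultrapower.instAlgebra

end Pool.Agent.HomRU
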